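import Pool.Agent.Lib.MP_b5066f_al.Pat

section

/-!
# From `gl(m)` to `gl(m+1)` inside a Weyl algebra
-/

namespace Pool.Agent.Lib.MP_b5066f_al

section Commutator

variable {A : Type*} [Ring A]

/-- The commutator. -/
def cm (x y : A) : A := x * y - y * x

lemma cm_mul_right (x y z : A) : cm x (y * z) = cm x y * z + y * cm x z := by
  unfold cm; noncomm_ring

lemma cm_mul_left (x y z : A) : cm (x * y) z = x * cm y z + cm x z * y := by
  unfold cm; noncomm_ring

lemma cm_add_left (x y z : A) : cm (x + y) z = cm x z + cm y z := by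
  unfold cm; noncomm_ring

lemma cm_add_right (x y z : A) : cm x (y + z) = cm x y + cm x z := by
  unfold cm; noncomm_ring

lemma cm_sub_left (x y z : A) : cm (x - y) z = cm x z - cm y z := by
  unfold cm; noncomm_ring

lemma cm_sub_right (x y z : A) : cm x (y - z) = cm x y - cm x z := by
  unfold cm; noncomm_ring

lemma cm_swap (x y : A) : cm x y = - cm y x := by
  unfold cm; noncomm_ring

lemma cm_self (x : A) : cm x x = 0 := by
  unfold cm; noncomm_ring

lemma cm_sum_right {ι : Type*} (s : Finset ι) (f : ι → A) (x : A) :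
    cm x (∑ k ∈ s, f k) = ∑ k ∈ s, cm x (f k) := by
  unfold cm
  rw [Finset.mul_sum, Finset.sum_mul, Finset.sum_sub_distrib]

lemma cm_sum_left {ι : Type*} (s : Finset ι) (f : ι → A) (x : A) :
    cm (∑ k ∈ s, f k) x = ∑ k ∈ s, cm (f k) x := by
  unfold cm
  rw [Finset.mul_sum, Finset.sum_mul, Finset.sum_sub_distrib]

end Commutator

section Weyl

variable {A : Type*} [Ring A] {m : ℕ}

/-- The input: a Weyl algebra commuting with a copy of `gl(m)`. -/
structure WeylData (A : Type*) [Ring A] (m : ℕ) where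
  y : Fin m → A
  d : Fin m → A
  ε : Fin m → Fin m → A
  c : A
  yy : ∀ i j, cm (y i) (y j) = 0
  dd : ∀ i j, cm (d i) (d j) = 0
  dy : ∀ i j, cm (d i) (y j) = if i = j then 1 else 0
  εy : ∀ i j k, cm (ε i j) (y k) = 0
  εd : ∀ i j k, cm (ε i j) (d k) = 0
  εε : ∀ i j k l, cm (ε i j) (ε k l) = (if j = k then ε i l else 0) - (if l = i then ε k j else 0)
  cy : ∀ i, cm c (y i) = 0
  cd : ∀ i, cm c (d i) = 0
  cε : ∀ i j, cm c (ε i j) = 0

namespace WeylData

variable (w : WeylData A m)

lemma yd (i j : Fin m) : cm (w.y i) (w.d j) = - if j = i then 1 else 0 := by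
  rw [cm_swap, w.dy]

lemma yε (i j k : Fin m) : cm (w.y k) (w.ε i j) = 0 := by
  rw [cm_swap, w.εy, neg_zero]

lemma dε (i j k : Fin m) : cm (w.d k) (w.ε i j) = 0 := by
  rw [cm_swap, w.εd, neg_zero]

/-- The sum `∑ ε_ik ∂_k`. -/
def S (i : Fin m) : A := ∑ k, w.ε i k * w.d k

/-- The element `c + ∑ y_k ∂_k`. -/
def Δ : A := w.c + ∑ k, w.y k * w.d k

/-- The operators `ε_ij - y_j ∂_i`. -/
def L (i j : Fin m) : A := w.ε i j - w.y j * w.d i

/-- The operators in the last column. -/
def C (i : Fin m) : A := w.S i - w.Δ * w.d i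

lemma Δy (j : Fin m) : cm w.Δ (w.y j) = w.y j := by
  unfold Δ
  rw [cm_add_left, w.cy, zero_add, cm_sum_left]
  simp only [cm_mul_left, w.dy, w.yy, zero_mul, add_zero]
  simp

lemma Δd (j : Fin m) : cm w.Δ (w.d j) = - w.d j := by
  unfold Δ
  rw [cm_add_left, w.cd, zero_add, cm_sum_left]
  simp only [cm_mul_left, w.dd, w.yd, mul_zero, zero_add]
  simp

lemma Δε (i j : Fin m) : cm w.Δ (w.ε i j) = 0 := by
  unfold Δ
  rw [cm_add_left, w.cε, zero_add, cm_sum_left]
  simp only [cm_mul_left, w.dε, w.yε, mul_zero, zero_mul, add_zero, Finset.sum_const_zero]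

lemma Sy (i j : Fin m) : cm (w.S i) (w.y j) = w.ε i j := by
  unfold S
  rw [cm_sum_left]
  simp only [cm_mul_left, w.dy, w.εy, zero_mul, add_zero]
  simp

lemma Sd (i j : Fin m) : cm (w.S i) (w.d j) = 0 := by
  unfold S
  rw [cm_sum_left]
  simp only [cm_mul_left, w.dd, w.εd, mul_zero, zero_mul, add_zero, Finset.sum_const_zero]

lemma ΔS (i : Fin m) : cm w.Δ (w.S i) = - w.S i := by
  unfold S
  rw [cm_sum_right]
  simp only [cm_mul_right, w.Δε, w.Δd, zero_mul, zero_add, mul_neg, Finset.sum_neg_distrib]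

lemma εS (i j k : Fin m) : cm (w.ε i j) (w.S k) =
    (if j = k then w.S i else 0) - w.ε k j * w.d i := by
  unfold S
  rw [cm_sum_right]
  simp only [cm_mul_right, w.εε, w.εd, mul_zero, add_zero, sub_mul, Finset.sum_sub_distrib,
    ite_mul, zero_mul]
  congr 1
  · split_ifs <;> simp
  · simp

lemma SS (i k : Fin m) : cm (w.S i) (w.S k) = w.S i * w.d k - w.S k * w.d i := by
  have h1 : cm (w.S i) (w.S k) = ∑ j, cm (w.ε i j) (w.S k) * w.d j := by
    conv_lhs => rw [S]
    rw [cm_sum_left]
    apply Finset.sum_congr rfl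
    intro j _
    rw [cm_mul_left, cm_swap (w.d j), w.Sd, neg_zero, mul_zero, zero_add]
  rw [h1]
  simp only [εS, sub_mul, ite_mul, zero_mul, Finset.sum_sub_distrib]
  congr 1
  · simp
  · have h2 : ∀ j, w.ε k j * w.d i * w.d j = w.ε k j * w.d j * w.d i := by
      intro j
      have h3 := w.dd i j
      unfold cm at h3
      rw [mul_assoc, sub_eq_zero.mp h3, mul_assoc]
    simp only [h2]
    rw [← Finset.sum_mul]
    rfl

lemma Ly (i j k : Fin m) : cm (w.L i j) (w.y k) = - if i = k then w.y j else 0 := by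
  unfold L
  rw [cm_sub_left, w.εy, cm_mul_left, w.dy, w.yy]
  split_ifs <;> simp

lemma Ld (i j k : Fin m) : cm (w.L i j) (w.d k) = if j = k then w.d i else 0 := by
  unfold L
  rw [cm_sub_left, w.εd, cm_mul_left, w.dd, w.yd]
  by_cases h : j = k
  · subst h; simp
  · rw [if_neg h, if_neg (Ne.symm h)]; simp

lemma LΔ (i j : Fin m) : cm (w.L i j) w.Δ = 0 := by
  rw [cm_swap]
  unfold L
  rw [cm_sub_right, w.Δε, cm_mul_right, w.Δy, w.Δd]
  simp

lemma LS (i j k : Fin m) : cm (w.L i j) (w.S k) = if j = k then w.S i else 0 := by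
  unfold L
  rw [cm_sub_left, w.εS, cm_mul_left, cm_swap (w.d i), w.Sd, cm_swap (w.y j), w.Sy]
  simp

lemma Lε (i j k l : Fin m) : cm (w.L i j) (w.ε k l) =
    (if j = k then w.ε i l else 0) - (if l = i then w.ε k j else 0) := by
  unfold L
  rw [cm_sub_left, w.εε, cm_mul_left, w.dε, w.yε]
  simp

lemma LL (i j k l : Fin m) : cm (w.L i j) (w.L k l) =
    (if j = k then w.L i l else 0) - (if l = i then w.L k j else 0) := by
  have h1 : cm (w.L i j) (w.L k l) = cm (w.L i j) (w.ε k l) - cm (w.L i j) (w.y l * w.d k) := by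
    conv_lhs => rw [L.eq_def w k l]
    rw [cm_sub_right]
  rw [h1, w.Lε, cm_mul_right, w.Ly, w.Ld]
  have h2 : (i = l) ↔ (l = i) := eq_comm
  simp only [h2]
  unfold L
  split_ifs <;> simp <;> abel

lemma LC (i j k : Fin m) : cm (w.L i j) (w.C k) = if j = k then w.C i else 0 := by
  unfold C
  rw [cm_sub_right, w.LS, cm_mul_right, w.LΔ, w.Ld]
  split_ifs <;> simp

lemma Cy (i j : Fin m) : cm (w.C i) (w.y j) = w.L i j - if j = i then w.Δ else 0 := by
  unfold C L
  rw [cm_sub_left, w.Sy, cm_mul_left, w.dy, w.Δy]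
  have h2 : (i = j) ↔ (j = i) := eq_comm
  simp only [h2]
  split_ifs <;> simp <;> abel

lemma CΔ (i : Fin m) : cm (w.C i) w.Δ = w.C i := by
  rw [cm_swap]
  unfold C
  rw [cm_sub_right, w.ΔS, cm_mul_right, cm_self, w.Δd]
  simp
  abel

lemma CC (i k : Fin m) : cm (w.C i) (w.C k) = 0 := by
  unfold C
  rw [cm_sub_left, cm_sub_right, cm_sub_right, w.SS, cm_mul_right (w.S i), cm_swap (w.S i) w.Δ,
    w.ΔS, w.Sd, cm_mul_left w.Δ, cm_swap (w.d i) (w.S k), w.Sd, w.ΔS, cm_mul_left,
    cm_mul_right (w.d i), cm_mul_right w.Δ, cm_self, w.dd, w.Δd, cm_swap (w.d i) w.Δ, w.Δd]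
  have h3 := w.dd i k
  unfold cm at h3
  have h4 := sub_eq_zero.mp h3
  simp only [neg_neg, mul_zero, add_zero, neg_zero, zero_mul, zero_add, mul_neg, neg_mul,
    sub_neg_eq_add]
  rw [mul_assoc w.Δ (w.d k) (w.d i), ← h4]
  abel

open Classical in
/-- The new family. -/
noncomputable def fam (i j : ℕ) : A :=
  if hi : i < m then (if hj : j < m then w.L ⟨i, hi⟩ ⟨j, hj⟩ else w.C ⟨i, hi⟩)
  else (if hj : j < m then w.y ⟨j, hj⟩ else w.Δ)

lemma fam_LL {i j : ℕ} (hi : i < m) (hj : j < m) : w.fam i j = w.L ⟨i, hi⟩ ⟨j, hj⟩ := by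
  unfold fam; rw [dif_pos hi, dif_pos hj]

lemma fam_C {i : ℕ} (hi : i < m) : w.fam i m = w.C ⟨i, hi⟩ := by
  unfold fam; rw [dif_pos hi, dif_neg (lt_irrefl m)]

lemma fam_y {j : ℕ} (hj : j < m) : w.fam m j = w.y ⟨j, hj⟩ := by
  unfold fam; rw [dif_neg (lt_irrefl m), dif_pos hj]

lemma fam_Δ : w.fam m m = w.Δ := by
  unfold fam; rw [dif_neg (lt_irrefl m), dif_neg (lt_irrefl m)]

/-- The relations of `gl(m+1)`. -/
theorem fam_rel : GLRel (m + 1) w.fam := by
  have key : ∀ i j k l, i < m + 1 → j < m + 1 → k < m + 1 → l < m + 1 →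
      (cm (w.fam i j) (w.fam k l) =
        (if j = k then w.fam i l else 0) - (if l = i then w.fam k j else 0)) →
      (cm (w.fam k l) (w.fam i j) =
        (if l = i then w.fam k j else 0) - (if j = k then w.fam i l else 0)) := by
    intro i j k l _ _ _ _ h
    rw [cm_swap, h, neg_sub]
  intro i j k l hi hj hk hl
  change cm (w.fam i j) (w.fam k l) = _
  have ne1 : ∀ {a : ℕ}, a < m → a ≠ m := fun h => h.ne
  have ne2 : ∀ {a : ℕ}, a < m → m ≠ a := fun h => h.ne'
  rcases Nat.lt_succ_iff_lt_or_eq.mp hi with hi' | rfl <;>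
  rcases Nat.lt_succ_iff_lt_or_eq.mp hj with hj' | rfl <;>
  rcases Nat.lt_succ_iff_lt_or_eq.mp hk with hk' | rfl <;>
  rcases Nat.lt_succ_iff_lt_or_eq.mp hl with hl' | rfl
  · -- LL
    rw [w.fam_LL hi' hj', w.fam_LL hk' hl', w.fam_LL hi' hl', w.fam_LL hk' hj', w.LL]
    simp only [Fin.mk.injEq]
  · -- LC
    rw [w.fam_LL hi' hj', w.fam_C hk', w.fam_C hi', w.LC, if_neg (ne2 hi')]
    simp only [Fin.mk.injEq, sub_zero]
  · -- Ly
    rw [w.fam_LL hi' hj', w.fam_y hl', w.fam_y hj', w.Ly, if_neg (ne1 hj')]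
    have h2 : (i = l) ↔ (l = i) := eq_comm
    simp only [Fin.mk.injEq, zero_sub, h2]
  · -- LΔ
    rw [w.fam_LL hi' hj', w.fam_Δ, w.LΔ, if_neg (ne1 hj'), if_neg (ne2 hi'), sub_zero]
  · -- CL
    apply key k l i _ hk hl hi hj
    rw [w.fam_LL hk' hl', w.fam_C hi', w.fam_C hk', w.LC, if_neg (ne2 hk')]
    simp only [Fin.mk.injEq, sub_zero]
  · -- CC
    rw [w.fam_C hi', w.fam_C hk', w.CC, if_neg (ne2 hk'), if_neg (ne2 hi'), sub_zero]
  · -- Cy
    rw [w.fam_C hi', w.fam_y hl', w.fam_LL hi' hl', w.fam_Δ, w.Cy]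
    simp only [Fin.mk.injEq, if_true]
  · -- CΔ
    rw [w.fam_C hi', w.fam_Δ, w.CΔ, if_pos rfl, if_neg (ne2 hi'), sub_zero]
  · -- yL
    apply key k l _ j hk hl hi hj
    rw [w.fam_LL hk' hl', w.fam_y hj', w.fam_y hl', w.Ly, if_neg (ne1 hl')]
    have h2 : (k = j) ↔ (j = k) := eq_comm
    simp only [Fin.mk.injEq, zero_sub, h2]
  · -- yC
    apply key k _ _ j hk hl hi hj
    rw [w.fam_C hk', w.fam_y hj', w.fam_LL hk' hj', w.fam_Δ, w.Cy]
    simp only [Fin.mk.injEq, if_true]
  · -- yy
    rw [w.fam_y hj', w.fam_y hl', w.yy, if_neg (ne1 hj'), if_neg (ne1 hl'), sub_zero]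
  · -- yΔ
    rw [w.fam_y hj', w.fam_Δ, cm_swap, w.Δy, if_neg (ne1 hj'), if_pos rfl, zero_sub]
  · -- ΔL
    rw [w.fam_Δ, w.fam_LL hk' hl', cm_swap, w.LΔ, if_neg (ne2 hk'), if_neg (ne1 hl')]
    simp
  · -- ΔC
    rw [w.fam_Δ, w.fam_C hk', cm_swap, w.CΔ, if_neg (ne2 hk'), if_pos rfl, zero_sub]
  · -- Δy
    rw [w.fam_Δ, w.fam_y hl', w.Δy, if_pos rfl, if_neg (ne1 hl'), sub_zero]
  · -- ΔΔ
    rw [cm_self]; simp

end WeylData

end Weyl

end Pool.Agent.Lib.MP_b5066f_al
end

section

/-!
# A highest weight module with linearly independent monomials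
-/

namespace Pool.Agent.Lib.MP_b5066f_al

open MvPolynomial TensorProduct

/-- Transport of monomials along a relation. -/
lemma mon_rel {Q Q' : Type*} [AddCommGroup Q] [Module ℂ Q] [AddCommGroup Q'] [Module ℂ Q']
    {n m : ℕ} {e : ℕ → ℕ → Module.End ℂ Q} {e' : ℕ → ℕ → Module.End ℂ Q'} (h : GLRel n e)
    (h' : GLRel m e') (hmn : m ≤ n) (R : Q → Q' → Prop)
    (hR : ∀ i j, j < i → i < m → ∀ x q, R x q → R (e i j x) (e' i j q)) :
    ∀ k, k ≤ m → ∀ T : Pat k, ∀ x q, R x q → R (mon e k T x) (mon e' k T q) := by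
  intro k
  induction k with
  | zero => intro _ T x q hx; exact hx
  | succ k ih =>
    intro hk T x q hx
    change R (mon e k T.low (rowMon e k T.row x)) (mon e' k T.low (rowMon e' k T.row q))
    apply ih (by omega)
    generalize T.row = a
    induction a using expo_induction with
    | h0 => rw [rowMon_zero h (by omega), rowMon_zero h' (by omega)]; exact hx
    | hs a j iha =>
      rw [rowMon_add_single h (by omega), rowMon_add_single h' (by omega)]
      exact hR k j j.2 (by omega) _ _ iha

section Construction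

variable {m : ℕ} {Q' : Type} [AddCommGroup Q'] [Module ℂ Q'] (e' : ℕ → ℕ → Module.End ℂ Q')

/-- Multiplication by a variable. -/
noncomputable def yop (j : Fin m) : Module.End ℂ (MvPolynomial (Fin m) ℂ ⊗[ℂ] Q') :=
  LinearMap.rTensor Q' (LinearMap.mulLeft ℂ (X j : MvPolynomial (Fin m) ℂ))

/-- A partial derivative. -/
noncomputable def dop (j : Fin m) : Module.End ℂ (MvPolynomial (Fin m) ℂ ⊗[ℂ] Q') :=
  LinearMap.rTensor Q' ((pderiv j : Derivation ℂ (MvPolynomial (Fin m) ℂ) _).toLinearMap)

/-- The smaller algebra. -/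
noncomputable def εop (i j : Fin m) : Module.End ℂ (MvPolynomial (Fin m) ℂ ⊗[ℂ] Q') :=
  LinearMap.lTensor (MvPolynomial (Fin m) ℂ) (e' i j)

lemma cm_rTensor {P : Type} [AddCommGroup P] [Module ℂ P] (f g : Module.End ℂ P) :
    cm (LinearMap.rTensor Q' f : Module.End ℂ (P ⊗[ℂ] Q')) (LinearMap.rTensor Q' g) =
      LinearMap.rTensor Q' (cm f g) := by
  unfold cm
  rw [LinearMap.rTensor_sub, LinearMap.rTensor_mul, LinearMap.rTensor_mul]

lemma cm_lTensor {P : Type} [AddCommGroup P] [Module ℂ P] (f g : Module.End ℂ Q') :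
    cm (LinearMap.lTensor P f : Module.End ℂ (P ⊗[ℂ] Q')) (LinearMap.lTensor P g) =
      LinearMap.lTensor P (cm f g) := by
  unfold cm
  rw [LinearMap.lTensor_sub, LinearMap.lTensor_mul, LinearMap.lTensor_mul]

lemma cm_lr {P : Type} [AddCommGroup P] [Module ℂ P] (f : Module.End ℂ Q')
    (g : Module.End ℂ P) :
    cm (LinearMap.lTensor P f : Module.End ℂ (P ⊗[ℂ] Q')) (LinearMap.rTensor Q' g) = 0 := by
  unfold cm
  rw [Module.End.mul_eq_comp, Module.End.mul_eq_comp, LinearMap.lTensor_comp_rTensor,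
    LinearMap.rTensor_comp_lTensor, sub_self]

/-- The Weyl data of the construction. -/
noncomputable def wdata (h' : GLRel m e') (c : ℂ) :
    WeylData (Module.End ℂ (MvPolynomial (Fin m) ℂ ⊗[ℂ] Q')) m where
  y := yop
  d := dop
  ε := εop e'
  c := algebraMap ℂ _ c
  yy := by
    intro i j
    unfold yop
    rw [cm_rTensor]
    have : cm (LinearMap.mulLeft ℂ (X i : MvPolynomial (Fin m) ℂ))
        (LinearMap.mulLeft ℂ (X j : MvPolynomial (Fin m) ℂ)) = 0 := by
      apply LinearMap.ext
      intro p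
      simp only [cm, LinearMap.sub_apply, Module.End.mul_apply, LinearMap.mulLeft_apply,
        LinearMap.zero_apply]
      ring
    rw [this, LinearMap.rTensor_zero]
  dd := by
    intro i j
    unfold dop
    rw [cm_rTensor]
    have : cm ((pderiv i : Derivation ℂ (MvPolynomial (Fin m) ℂ) _).toLinearMap)
        ((pderiv j : Derivation ℂ (MvPolynomial (Fin m) ℂ) _).toLinearMap) = 0 := by
      apply LinearMap.ext
      intro p
      simp only [cm, LinearMap.sub_apply, Module.End.mul_apply, LinearMap.zero_apply]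
      change pderiv i (pderiv j p) - pderiv j (pderiv i p) = 0
      ext a
      simp only [coeff_sub, coeff_pderiv, coeff_zero, Finsupp.add_apply]
      by_cases hij : i = j
      · subst hij; ring
      · have h1 : a + Finsupp.single i 1 + Finsupp.single j 1 =
            a + Finsupp.single j 1 + Finsupp.single i 1 := by abel
        rw [h1]
        simp only [Finsupp.single_apply, if_neg hij, if_neg (Ne.symm hij)]
        push_cast
        ring
    rw [this, LinearMap.rTensor_zero]
  dy := by
    intro i j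
    unfold dop yop
    rw [cm_rTensor]
    have : cm ((pderiv i : Derivation ℂ (MvPolynomial (Fin m) ℂ) _).toLinearMap)
        (LinearMap.mulLeft ℂ (X j : MvPolynomial (Fin m) ℂ)) = if i = j then LinearMap.id else 0 := by
      apply LinearMap.ext
      intro p
      simp only [cm, LinearMap.sub_apply, Module.End.mul_apply, LinearMap.mulLeft_apply]
      change pderiv i (X j * p) - X j * pderiv i p = _
      rw [pderiv_mul, pderiv_X]
      by_cases hij : i = j
      · subst hij; simp
      · rw [Pi.single_eq_of_ne (Ne.symm hij), if_neg hij]; simp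
    rw [this]
    split_ifs
    · rw [LinearMap.rTensor_id]; rfl
    · rw [LinearMap.rTensor_zero]
  εy := by
    intro i j k
    unfold εop yop
    rw [cm_lr]
  εd := by
    intro i j k
    unfold εop dop
    rw [cm_lr]
  εε := by
    intro i j k l
    unfold εop
    rw [cm_lTensor]
    have h1 : cm (e' i j) (e' k l) = _ := h' i j k l i.2 j.2 k.2 l.2
    have e1 : ((j : ℕ) = (k : ℕ)) ↔ j = k := Fin.ext_iff.symm
    have e2 : ((l : ℕ) = (i : ℕ)) ↔ l = i := Fin.ext_iff.symm
    rw [h1, LinearMap.lTensor_sub]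
    simp only [e1, e2]
    split_ifs
    · rfl
    · rw [LinearMap.lTensor_zero]
    · rw [LinearMap.lTensor_zero]
    · rw [LinearMap.lTensor_zero]
  cy := fun i => by unfold cm; rw [Algebra.commutes, sub_self]
  cd := fun i => by unfold cm; rw [Algebra.commutes, sub_self]
  cε := fun i j => by unfold cm; rw [Algebra.commutes, sub_self]

/-- The coefficient map. -/
noncomputable def cf (b : Fin m →₀ ℕ) : MvPolynomial (Fin m) ℂ ⊗[ℂ] Q' →ₗ[ℂ] Q' :=
  (TensorProduct.lid ℂ Q').toLinearMap ∘ₗ (LinearMap.rTensor Q' (MvPolynomial.lcoeff ℂ b))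

lemma cf_tmul (b : Fin m →₀ ℕ) (p : MvPolynomial (Fin m) ℂ) (q : Q') :
    cf b (p ⊗ₜ[ℂ] q) = coeff b p • q := by
  simp [cf]

lemma cf_ε (b : Fin m →₀ ℕ) (i j : Fin m) (x : MvPolynomial (Fin m) ℂ ⊗[ℂ] Q') :
    cf b (εop e' i j x) = e' i j (cf b x) := by
  induction x using TensorProduct.induction_on with
  | zero => simp
  | tmul p q => rw [cf_tmul, εop, LinearMap.lTensor_tmul, cf_tmul, map_smul]
  | add x y hx hy => simp only [map_add, hx, hy]

lemma cf_yd (b : Fin m →₀ ℕ) (i j : Fin m) (x : MvPolynomial (Fin m) ℂ ⊗[ℂ] Q') :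
    cf b (yop j (dop i x)) = if b j = 0 then 0 else
      (((b - Finsupp.single j 1 : Fin m →₀ ℕ) i : ℂ) + 1) •
        cf (b - Finsupp.single j 1 + Finsupp.single i 1) x := by
  induction x using TensorProduct.induction_on with
  | zero => simp
  | tmul p q =>
    rw [dop, LinearMap.rTensor_tmul, yop, LinearMap.rTensor_tmul, cf_tmul, cf_tmul]
    change coeff b (X j * pderiv i p) • q = _
    rw [coeff_X_mul']
    by_cases hb : b j = 0
    · rw [if_neg (by rwa [Finsupp.notMem_support_iff]), if_pos hb, zero_smul]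
    · rw [if_pos (Finsupp.mem_support_iff.mpr hb), if_neg hb, coeff_pderiv, smul_smul, mul_comm]
  | add x y hx hy =>
    simp only [map_add, hx, hy]
    split_ifs
    · rw [add_zero]
    · rw [smul_add]

/-- The leading coefficient relation. -/
def LeadRel (a : Fin m →₀ ℕ) (x : MvPolynomial (Fin m) ℂ ⊗[ℂ] Q') (q : Q') : Prop :=
  cf a x = q ∧ ∀ b : Fin m →₀ ℕ, toLex b < toLex a → cf b x = 0

lemma leadRel_step (h' : GLRel m e') (c : ℂ) (a : Fin m →₀ ℕ) (i j : ℕ) (hji : j < i)
    (hi : i < m) (x : MvPolynomial (Fin m) ℂ ⊗[ℂ] Q') (q : Q') (hx : LeadRel a x q) :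
    LeadRel a ((wdata e' h' c).fam i j x) (e' i j q) := by
  have hj : j < m := hji.trans hi
  have hfam : (wdata e' h' c).fam i j x =
      εop e' ⟨i, hi⟩ ⟨j, hj⟩ x - yop ⟨j, hj⟩ (dop ⟨i, hi⟩ x) := by
    rw [WeylData.fam_LL _ hi hj]; rfl
  have key : ∀ b : Fin m →₀ ℕ, toLex b ≤ toLex a → cf b (yop ⟨j, hj⟩ (dop ⟨i, hi⟩ x)) = 0 := by
    intro b hb
    rw [cf_yd]
    split_ifs with hbj
    · rfl
    · rw [hx.2, smul_zero]
      refine lt_of_lt_of_le ?_ hb
      rw [Finsupp.Lex.lt_iff]
      refine ⟨⟨j, hj⟩, ?_, ?_⟩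
      · intro k hk
        have h2 : (⟨j, hj⟩ : Fin m) ≠ k := hk.ne'
        have h3 : (⟨i, hi⟩ : Fin m) ≠ k := by
          intro h4
          rw [← h4] at hk
          exact absurd hk (not_lt.mpr (Fin.mk_le_mk.mpr hji.le))
        simp [h2, h3]
      · have h3 : (⟨i, hi⟩ : Fin m) ≠ ⟨j, hj⟩ := by
          intro h4
          rw [Fin.mk.injEq] at h4
          omega
        simp [h3]
        omega
  constructor
  · rw [hfam, map_sub, key a le_rfl, sub_zero, cf_ε, hx.1]
  · intro b hb
    rw [hfam, map_sub, key b hb.le, sub_zero, cf_ε, hx.2 b hb, map_zero]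

end Construction

lemma L_apply {Q : Type*} [AddCommGroup Q] [Module ℂ Q] {m : ℕ}
    (w : WeylData (Module.End ℂ Q) m) (i j : Fin m) (x : Q) :
    w.L i j x = w.ε i j x - w.y j (w.d i x) := rfl

lemma C_apply {Q : Type*} [AddCommGroup Q] [Module ℂ Q] {m : ℕ}
    (w : WeylData (Module.End ℂ Q) m) (i : Fin m) (x : Q) :
    w.C i x = ∑ k, w.ε i k (w.d k x) - w.Δ (w.d i x) := by
  have : w.S i x = ∑ k, w.ε i k (w.d k x) := by
    unfold WeylData.S
    rw [LinearMap.sum_apply]
    rfl
  rw [← this]
  rfl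

lemma Δ_apply {Q : Type*} [AddCommGroup Q] [Module ℂ Q] {m : ℕ}
    (w : WeylData (Module.End ℂ Q) m) (x : Q) :
    w.Δ x = w.c x + ∑ k, w.y k (w.d k x) := by
  unfold WeylData.Δ
  rw [LinearMap.add_apply, LinearMap.sum_apply]
  rfl

/-- A singular vector for the new family. -/
lemma weyl_sing {Q : Type*} [AddCommGroup Q] [Module ℂ Q] {m : ℕ}
    (w : WeylData (Module.End ℂ Q) m) (lam : ℕ → ℂ) (x : Q) (hd : ∀ j, w.d j x = 0)
    (h1 : ∀ i j : Fin m, i < j → w.ε i j x = 0) (h2 : ∀ i : Fin m, w.ε i i x = lam i • x)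
    (hc : w.c x = lam m • x) : Sing w.fam (m + 1) ⊥ lam x := by
  constructor
  · intro i j hij hj
    rw [Submodule.mem_bot]
    rcases Nat.lt_succ_iff_lt_or_eq.mp hj with hj' | rfl
    · have hi' : i < m := hij.trans hj'
      rw [w.fam_LL hi' hj', L_apply, hd, map_zero, sub_zero]
      exact h1 _ _ (Fin.mk_lt_mk.mpr hij)
    · rw [w.fam_C hij, C_apply, hd, map_zero, sub_zero]
      apply Finset.sum_eq_zero
      intro k _
      rw [hd, map_zero]
  · intro i hi
    rw [Submodule.mem_bot]
    rcases Nat.lt_succ_iff_lt_or_eq.mp hi with hi' | rfl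
    · rw [w.fam_LL hi' hi', L_apply, hd, map_zero, sub_zero, h2, sub_self]
    · rw [w.fam_Δ, Δ_apply, hc]
      have h0 : ∑ k, w.y k (w.d k x) = 0 := by
        apply Finset.sum_eq_zero
        intro k _
        rw [hd, map_zero]
      rw [h0, add_zero, sub_self]

/-- For every weight there is a module with a singular vector of that weight whose monomials
are linearly independent. -/
theorem exists_model : ∀ (m : ℕ) (lam : ℕ → ℂ), ∃ (Q : Type) (_ : AddCommGroup Q)
    (_ : Module ℂ Q) (e : ℕ → ℕ → Module.End ℂ Q) (v : Q), GLRel m e ∧ Sing e m ⊥ lam v ∧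
      LinearIndependent ℂ (fun T : Pat m => mon e m T v) := by
  intro m
  induction m with
  | zero =>
    intro lam
    refine ⟨ℂ, inferInstance, inferInstance, fun _ _ => 0, 1, ?_, ?_, ?_⟩
    · intro i j k l hi; omega
    · exact ⟨fun i j _ hj => by omega, fun i hi => by omega⟩
    · let _ : Unique (Pat 0) := ⟨⟨PUnit.unit⟩, fun _ => subsingleton_pat_zero _ _⟩
      rw [linearIndependent_unique_iff]
      exact one_ne_zero
  | succ m ih =>
    intro lam
    obtain ⟨Q', i1, i2, e', v', hrel', hsing', hli'⟩ := ih lam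
    set w := wdata e' hrel' (lam m) with hw
    have hrel : GLRel (m + 1) w.fam := w.fam_rel
    have hd : ∀ j, w.d j ((1 : MvPolynomial (Fin m) ℂ) ⊗ₜ[ℂ] v') = 0 := by
      intro j
      change dop j _ = 0
      rw [dop, LinearMap.rTensor_tmul]
      change (pderiv j 1) ⊗ₜ[ℂ] v' = 0
      rw [pderiv_one, zero_tmul]
    have hε : ∀ i j, w.ε i j ((1 : MvPolynomial (Fin m) ℂ) ⊗ₜ[ℂ] v') =
        (1 : MvPolynomial (Fin m) ℂ) ⊗ₜ[ℂ] (e' i j v') := by
      intro i j
      change εop e' i j _ = _
      rw [εop, LinearMap.lTensor_tmul]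
    have hsing : Sing w.fam (m + 1) ⊥ lam ((1 : MvPolynomial (Fin m) ℂ) ⊗ₜ[ℂ] v') := by
      apply weyl_sing w lam _ hd
      · intro i j hij
        have := hsing'.1 i j hij j.2
        rw [Submodule.mem_bot] at this
        rw [hε, this, tmul_zero]
      · intro i
        have := hsing'.2 i i.2
        rw [Submodule.mem_bot, sub_eq_zero] at this
        rw [hε, this, tmul_smul]
      · change (algebraMap ℂ (Module.End ℂ (MvPolynomial (Fin m) ℂ ⊗[ℂ] Q')) (lam m)) _ = _
        rw [Module.algebraMap_end_apply]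
    refine ⟨MvPolynomial (Fin m) ℂ ⊗[ℂ] Q', inferInstance, inferInstance, w.fam,
      (1 : MvPolynomial (Fin m) ℂ) ⊗ₜ[ℂ] v', hrel, hsing, ?_⟩
    · -- linear independence
      have hrow : ∀ a : Fin m →₀ ℕ, rowMon w.fam m a ((1 : MvPolynomial (Fin m) ℂ) ⊗ₜ[ℂ] v') =
          (monomial a (1 : ℂ)) ⊗ₜ[ℂ] v' := by
        intro a
        induction a using expo_induction with
        | h0 => rw [rowMon_zero hrel (Nat.lt_succ_self m)]; rfl
        | hs a k iha =>
          rw [rowMon_add_single hrel (Nat.lt_succ_self m), Module.End.mul_apply, iha,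
            w.fam_y k.2]
          change yop k _ = _
          rw [yop, LinearMap.rTensor_tmul]
          change ((X k : MvPolynomial (Fin m) ℂ) * monomial a 1) ⊗ₜ[ℂ] v' = _
          rw [X, monomial_mul, one_mul, add_comm]
      have hlead : ∀ (a : Fin m →₀ ℕ) (T : Pat m),
          LeadRel a (mon w.fam m T ((monomial a (1 : ℂ)) ⊗ₜ[ℂ] v')) (mon e' m T v') := by
        intro a T
        apply mon_rel hrel hrel' (Nat.le_succ m) (LeadRel a)
          (fun i j hji hi x q hx => leadRel_step e' hrel' (lam m) a i j hji hi x q hx) m le_rfl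
        constructor
        · rw [cf_tmul, coeff_monomial, if_pos rfl, one_smul]
        · intro b hb
          have : a ≠ b := by rintro rfl; exact lt_irrefl _ hb
          rw [cf_tmul, coeff_monomial, if_neg this, zero_smul]
      rw [linearIndependent_iff]
      intro l hl
      have main : ∀ a : Lex (Fin m →₀ ℕ), ∀ T : Pat m, l (Pat.mk (ofLex a) T) = 0 := by
        intro a
        induction a using WellFoundedLT.induction with
        | ind a iha =>
          -- the part of `l` with first row `a`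
          set f : Pat m → Pat (m + 1) := fun T => Pat.mk (ofLex a) T with hf
          have hfinj : Function.Injective f := fun T T' h => congrArg Pat.low h
          set l' : Pat m →₀ ℂ := l.comapDomain f hfinj.injOn with hl'
          have h1 : Finsupp.linearCombination ℂ (fun T : Pat m => mon e' m T v') l' = 0 := by
            have h2 := congrArg (cf (ofLex a)) hl
            rw [map_zero, Finsupp.linearCombination_apply, Finsupp.sum, map_sum] at h2
            have hmon : ∀ S : Pat (m + 1), mon w.fam (m + 1) S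
                ((1 : MvPolynomial (Fin m) ℂ) ⊗ₜ[ℂ] v') =
                mon w.fam m S.low ((monomial S.row (1 : ℂ)) ⊗ₜ[ℂ] v') := by
              intro S
              rw [← hrow]; rfl
            set g : Pat (m + 1) → Q' := fun S => cf (ofLex a) (l S • mon w.fam (m + 1) S
                ((1 : MvPolynomial (Fin m) ℂ) ⊗ₜ[ℂ] v')) with hg
            have h5 : ∀ T : Pat m, g (f T) = l (f T) • mon e' m T v' := by
              intro T
              simp only [hg]
              rw [hmon, map_smul]
              have := (hlead (ofLex a) T).1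
              rw [← this]
              rfl
            rw [hl', Finsupp.linearCombination_comapDomain]
            have h6 := Finset.sum_preimage f l.support hfinj.injOn g (by
              intro S hS hSf
              have hSa : S.row ≠ ofLex a := by
                intro h7
                apply hSf
                exact ⟨S.low, by rw [hf]; simp only; rw [← h7]; rfl⟩
              simp only [hg]
              rw [hmon, map_smul]
              rcases lt_or_gt_of_ne (fun h7 : toLex S.row = a => hSa (by rw [← h7]; rfl)) with h8 | h8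
              · have h9 := iha (toLex S.row) h8 S.low
                have h10 : l S = 0 := h9
                rw [h10, zero_smul]
              · have h9 := (hlead S.row S.low).2 (ofLex a) h8
                rw [h9, smul_zero])
            rw [Finset.sum_congr rfl (fun T _ => h5 T)] at h6
            rw [h6]
            exact h2
          have h3 := (linearIndependent_iff.mp hli') l' h1
          intro T
          have h4 := congrArg (fun g : Pat m →₀ ℂ => g T) h3
          simpa [hl', hf] using h4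
      ext S
      have := main (toLex S.row) S.low
      simpa using this

end Pool.Agent.Lib.MP_b5066f_al
end

section

/-!
# Central characters
-/

namespace Pool.Agent.Lib.MP_b5066f_al

section General

variable {Q : Type*} [AddCommGroup Q] [Module ℂ Q] {n : ℕ} {e : ℕ → ℕ → Module.End ℂ Q}

/-- A stable subspace is stable under the enveloping algebra. -/
lemma Inv.phi_mem {m : ℕ} (h : GLRel m e) {F : Submodule ℂ Q} (hF : Inv e m F) (z : Ugl m)
    {x : Q} (hx : x ∈ F) : phi h z x ∈ F := by
  induction z using Ugl_induction generalizing x with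
  | hE i j => rw [phi_E]; exact hF i j i.2 j.2 x hx
  | hc c =>
    rw [AlgHom.commutes, Module.algebraMap_end_apply]
    exact F.smul_mem c hx
  | hadd y z hy hz => rw [map_add]; exact F.add_mem (hy hx) (hz hx)
  | hmul y z hy hz => rw [map_mul]; exact hy (hz hx)

/-- The left ideal of the Verma module annihilates singular vectors. -/
lemma phi_mem_of_ideal {m : ℕ} (h : GLRel m e) {F : Submodule ℂ Q} (hF : Inv e m F)
    {lam : ℕ → ℂ} {v : Q} (hv : Sing e m F lam v) {x : Ugl m}
    (hx : x ∈ vermaIdeal m (fun i => lam i)) : phi h x v ∈ F := by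
  unfold vermaIdeal at hx
  induction hx using Submodule.span_induction with
  | mem x hx =>
    rcases hx with ⟨i, j, hij, rfl⟩ | ⟨i, rfl⟩
    · rw [phi_E]; exact hv.1 i j hij j.2
    · rw [map_sub, phi_E, AlgHom.commutes, LinearMap.sub_apply, Module.algebraMap_end_apply]
      exact hv.2 i i.2
  | zero => rw [map_zero]; exact zero_mem _
  | add x y _ _ hx hy => rw [map_add]; exact F.add_mem hx hy
  | smul a x _ hx => rw [smul_eq_mul, map_mul]; exact hF.phi_mem h a hx

/-- Elements commuting with the family commute with its monomials. -/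
lemma commute_mon (hrel : GLRel n e) {g : Module.End ℂ Q} {m : ℕ} (hm : m ≤ n)
    (hg : ∀ i j, i < m → j < m → g * e i j = e i j * g) :
    ∀ k, k ≤ m → ∀ T : Pat k, g * mon e k T = mon e k T * g := by
  intro k
  induction k with
  | zero => intro _ T; change g * 1 = 1 * g; rw [mul_one, one_mul]
  | succ k ih =>
    intro hk T
    change g * (mon e k T.low * rowMon e k T.row) = mon e k T.low * rowMon e k T.row * g
    have h1 : ∀ a : Fin k →₀ ℕ, g * rowMon e k a = rowMon e k a * g := by
      intro a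
      induction a using expo_induction with
      | h0 => rw [rowMon_zero hrel (by omega), mul_one, one_mul]
      | hs a j iha =>
        rw [rowMon_add_single hrel (by omega), ← mul_assoc, hg k j (by omega) (by omega),
          mul_assoc, iha, mul_assoc]
    rw [← mul_assoc, ih (by omega), mul_assoc, h1, mul_assoc]

/-- The weight of a monomial. -/
noncomputable def wt : ∀ m, (ℕ → ℂ) → Pat m → ℕ → ℂ
  | 0, lam, _ => lam
  | m + 1, lam, T => fun i =>
    if i = m then lam m + (T.row.degree : ℂ) else wt m (shift lam T.row) T.low i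

lemma wt_last {m : ℕ} (lam : ℕ → ℂ) (T : Pat (m + 1)) :
    wt (m + 1) lam T m = lam m + (T.row.degree : ℂ) := by
  simp [wt]

lemma wt_lt {m : ℕ} (lam : ℕ → ℂ) (T : Pat (m + 1)) {i : ℕ} (hi : i < m) :
    wt (m + 1) lam T i = wt m (shift lam T.row) T.low i := by
  simp [wt, hi.ne]

lemma weight_mon (hrel : GLRel n e) : ∀ m, m ≤ n → ∀ (lam : ℕ → ℂ) (v : Q),
    (∀ i, i < m → e i i v = lam i • v) → ∀ (T : Pat m) (i : ℕ), i < m →
      e i i (mon e m T v) = wt m lam T i • mon e m T v := by
  intro m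
  induction m with
  | zero => intro _ lam v _ T i hi; omega
  | succ m ih =>
    intro hm lam v hv T i hi
    rcases Nat.lt_succ_iff_lt_or_eq.mp hi with hi' | rfl
    · rw [wt_lt lam T hi']
      change e i i (mon e m T.low (rowMon e m T.row v)) = _ • mon e m T.low (rowMon e m T.row v)
      apply ih (by omega) _ _ _ _ _ hi'
      intro k hk
      have h1 := congrArg (fun f : Module.End ℂ Q => f v)
        (e_mul_rowMon hrel (show m < n from hm) ⟨k, hk⟩ ⟨k, hk⟩ T.row)
      simp only [Module.End.mul_apply, LinearMap.sub_apply, LinearMap.smul_apply] at h1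
      have h2 : (T.row ⟨k, hk⟩ : ℂ) • (rowMon e m (T.row - Finsupp.single ⟨k, hk⟩ 1 +
          Finsupp.single ⟨k, hk⟩ 1)) v = (T.row ⟨k, hk⟩ : ℂ) • rowMon e m T.row v := by
        by_cases ha : T.row ⟨k, hk⟩ = 0
        · rw [ha, Nat.cast_zero, zero_smul, zero_smul]
        · rw [tsub_add_cancel_of_le]
          rw [Finsupp.single_le_iff]
          omega
      rw [h1, h2, hv k (by omega), map_smul]
      have h3 : shift lam T.row k = lam k - T.row ⟨k, hk⟩ := by simp [shift, hk]
      rw [h3, sub_smul]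
    · rw [wt_last]
      change e i i (mon e i T.low (rowMon e i T.row v)) = _ • mon e i T.low (rowMon e i T.row v)
      have h1 := commute_mon hrel (g := e i i) (m := i) (by omega) (by
        intro k l hk hl
        have h2 := hrel i i k l (by omega) (by omega) (by omega) (by omega)
        rw [if_neg hk.ne', if_neg hl.ne, sub_zero] at h2
        exact sub_eq_zero.mp h2) i le_rfl T.low
      have h2 := congrArg (fun f : Module.End ℂ Q => f (rowMon e i T.row v)) h1
      simp only [Module.End.mul_apply] at h2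
      rw [h2]
      have h3 := congrArg (fun f : Module.End ℂ Q => f v)
        (emm_mul_rowMon hrel (show i < n from hm) T.row)
      simp only [Module.End.mul_apply, LinearMap.add_apply, LinearMap.smul_apply] at h3
      rw [h3, hv i (by omega), map_smul, ← add_smul, map_smul]

end General

lemma shift_zero {m : ℕ} (lam : ℕ → ℂ) : shift lam (0 : Fin m →₀ ℕ) = lam := by
  funext i; simp [shift]

/-- Only the zero pattern has the highest weight. -/
lemma eq_zero_of_wt : ∀ (m : ℕ) (lam : ℕ → ℂ) (T : Pat m),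
    (∀ i, i < m → wt m lam T i = lam i) → T = Pat.zero m := by
  intro m
  induction m with
  | zero => intro _ T _; exact subsingleton_pat_zero _ _
  | succ m ih =>
    intro lam T hT
    have h1 := hT m (Nat.lt_succ_self m)
    rw [wt_last] at h1
    have h2 : T.row.degree = 0 := by
      have : (T.row.degree : ℂ) = 0 := by linear_combination h1
      exact_mod_cast this
    have h3 : T.row = 0 := Finsupp.degree_eq_zero_iff _ |>.mp h2
    have h4 : T.low = Pat.zero m := by
      apply ih (shift lam T.row)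
      intro i hi
      rw [← wt_lt lam T hi, hT i (by omega), h3, shift_zero]
    change Pat.mk T.row T.low = Pat.mk 0 (Pat.zero m)
    rw [h3, h4]

/-- Finitely many patterns of a given weight. -/
lemma finite_wt : ∀ (m : ℕ) (lam μ : ℕ → ℂ),
    {T : Pat m | ∀ i, i < m → wt m lam T i = μ i}.Finite := by
  intro m
  induction m with
  | zero =>
    intro lam μ
    have : Subsingleton (Pat 0) := ⟨subsingleton_pat_zero⟩
    exact Set.toFinite _
  | succ m ih =>
    intro lam μ
    by_cases hd : ∃ d : ℕ, lam m + (d : ℂ) = μ m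
    · obtain ⟨d, hd⟩ := hd
      have hfin : {a : Fin m →₀ ℕ | a.degree = d}.Finite := by
        have : {a : Fin m →₀ ℕ | a.degree = d} ⊆
            {a : Fin m →₀ ℕ | a ≤ Finsupp.equivFunOnFinite.symm (fun _ => d)} := by
          intro a ha i
          have h1 : a.degree = d := ha
          have h2 : a i ≤ a.degree := Finsupp.le_degree i a
          simp only [Finsupp.equivFunOnFinite_symm_apply_apply]
          omega
        exact (Set.finite_Iic _).subset this
      have hU : (⋃ a ∈ {a : Fin m →₀ ℕ | a.degree = d},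
          (Pat.mk a) '' {T : Pat m | ∀ i, i < m → wt m (shift lam a) T i = μ i}).Finite :=
        hfin.biUnion (fun a _ => (ih (shift lam a) μ).image _)
      apply hU.subset
      intro T hT
      simp only [Set.mem_iUnion]
      refine ⟨T.row, ?_, T.low, ?_, rfl⟩
      · have h1 := hT m (Nat.lt_succ_self m)
        rw [wt_last, ← hd] at h1
        have h2 : (T.row.degree : ℂ) = d := by linear_combination h1
        exact_mod_cast h2
      · intro i hi
        rw [← wt_lt lam T hi]
        exact hT i (by omega)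
    · apply Set.finite_empty.subset
      intro T hT
      exfalso
      apply hd
      refine ⟨T.row.degree, ?_⟩
      have h1 := hT m (Nat.lt_succ_self m)
      rwa [wt_last] at h1

section Verma

variable (n : ℕ) (lam : ℕ → ℂ)

/-- The operators on the Verma module. -/
noncomputable def vop : ℕ → ℕ → Module.End ℂ (Verma n (fun i => lam i)) :=
  famOf (Algebra.lsmul ℂ ℂ (Verma n (fun i => lam i)) :
    Ugl n →ₐ[ℂ] Module.End ℂ (Verma n (fun i => lam i)))

/-- The highest weight vector. -/
noncomputable def vvec : Verma n (fun i => lam i) := Submodule.Quotient.mk 1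

lemma vop_rel : GLRel n (vop n lam) := famOf_rel _

lemma phi_vop (z : Ugl n) (x : Verma n (fun i => lam i)) :
    phi (vop_rel n lam) z x = z • x := by
  have h1 : phi (vop_rel n lam) = (Algebra.lsmul ℂ ℂ (Verma n (fun i => lam i)) :
      Ugl n →ₐ[ℂ] Module.End ℂ (Verma n (fun i => lam i))) := by
    apply Ugl_hom_ext
    intro i j
    rw [phi_E]
    exact famOf_eq _ i j
  rw [h1]; rfl

lemma mk_eq_smul (z : Ugl n) :
    (Submodule.Quotient.mk z : Verma n (fun i => lam i)) = z • vvec n lam := by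
  unfold vvec
  rw [← Submodule.Quotient.mk_smul, smul_eq_mul, mul_one]

lemma vop_apply (i j : Fin n) (x : Verma n (fun i => lam i)) :
    vop n lam i j x = (E i j : Ugl n) • x := by
  unfold vop
  rw [famOf_eq]; rfl

lemma vsing : Sing (vop n lam) n ⊥ lam (vvec n lam) := by
  constructor
  · intro i j hij hj
    have hi : i < n := hij.trans hj
    rw [Submodule.mem_bot]
    have h1 := vop_apply n lam ⟨i, hi⟩ ⟨j, hj⟩ (vvec n lam)
    simp only at h1
    rw [h1, ← mk_eq_smul, Submodule.Quotient.mk_eq_zero]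
    exact Submodule.subset_span (Or.inl ⟨⟨i, hi⟩, ⟨j, hj⟩, Fin.mk_lt_mk.mpr hij, rfl⟩)
  · intro i hi
    rw [Submodule.mem_bot]
    have h1 := vop_apply n lam ⟨i, hi⟩ ⟨i, hi⟩ (vvec n lam)
    simp only at h1
    rw [h1, ← algebraMap_smul (Ugl n) (lam i), ← sub_smul, ← mk_eq_smul,
      Submodule.Quotient.mk_eq_zero]
    exact Submodule.subset_span (Or.inr ⟨⟨i, hi⟩, rfl⟩)

lemma inv_bot {Q : Type*} [AddCommGroup Q] [Module ℂ Q] (e : ℕ → ℕ → Module.End ℂ Q) (m : ℕ) :
    Inv e m ⊥ := by
  intro i j _ _ x hx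
  rw [Submodule.mem_bot] at hx ⊢
  rw [hx, map_zero]

lemma vspan : Submodule.span ℂ (Set.range (fun T : Pat n => mon (vop n lam) n T (vvec n lam))) =
    ⊤ := by
  have h1 := inv_span (vop_rel n lam) n le_rfl ⊥ (inv_bot _ _) lam _ (vsing n lam)
  have h2 : Fall (vop n lam) n ⊥ (vvec n lam) =
      Submodule.span ℂ (Set.range (fun T : Pat n => mon (vop n lam) n T (vvec n lam))) := by
    unfold Fall
    rw [bot_sup_eq]
    congr 1
    ext x
    constructor
    · rintro ⟨T, rfl⟩; exact ⟨T, rfl⟩
    · rintro ⟨T, rfl⟩; exact ⟨T, rfl⟩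
  rw [h2] at h1
  rw [eq_top_iff]
  intro x _
  obtain ⟨z, rfl⟩ := Submodule.Quotient.mk_surjective _ x
  rw [mk_eq_smul, ← phi_vop]
  apply h1.phi_mem
  have h3 : mon (vop n lam) n (Pat.zero n) (vvec n lam) ∈
      Submodule.span ℂ (Set.range (fun T : Pat n => mon (vop n lam) n T (vvec n lam))) :=
    Submodule.subset_span ⟨_, rfl⟩
  rw [mon_zero (vop_rel n lam) le_rfl] at h3
  exact h3

lemma vli : LinearIndependent ℂ (fun T : Pat n => mon (vop n lam) n T (vvec n lam)) := by
  obtain ⟨Q, i1, i2, e, v, hrel, hsing, hli⟩ := exists_model n lam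
  -- the map to the model
  let g : Ugl n →ₗ[ℂ] Q := (LinearMap.applyₗ v) ∘ₗ (phi hrel).toLinearMap
  have hg : ∀ z, g z = phi hrel z v := fun z => rfl
  let f : Verma n (fun i => lam i) →ₗ[ℂ] Q :=
    { toFun := Quotient.lift (s := Submodule.quotientRel _) (fun z => g z) (by
        intro x y hxy
        have h1 : x - y ∈ vermaIdeal n (fun i => lam i) :=
          (Submodule.quotientRel_def _).mp hxy
        have h2 := phi_mem_of_ideal hrel (inv_bot e n) hsing h1
        rw [Submodule.mem_bot, ← hg, map_sub, sub_eq_zero] at h2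
        exact h2)
      map_add' := by
        intro x y
        obtain ⟨x, rfl⟩ := Submodule.Quotient.mk_surjective _ x
        obtain ⟨y, rfl⟩ := Submodule.Quotient.mk_surjective _ y
        exact map_add g x y
      map_smul' := by
        intro c x
        obtain ⟨x, rfl⟩ := Submodule.Quotient.mk_surjective _ x
        exact map_smul g c x }
  have hf : ∀ z : Ugl n, f (z • vvec n lam) = phi hrel z v := by
    intro z
    rw [← mk_eq_smul]
    rfl
  have hR : ∀ T : Pat n, f (mon (vop n lam) n T (vvec n lam)) = mon e n T v := by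
    intro T
    apply mon_rel (vop_rel n lam) hrel le_rfl (fun x q => f x = q)
      (fun i j hji hi x q hx => ?_) n le_rfl
    · have := hf 1
      rw [one_smul, map_one] at this
      exact this
    · have hj : j < n := hji.trans hi
      obtain ⟨z, rfl⟩ := Submodule.Quotient.mk_surjective _ x
      have h1 := vop_apply n lam ⟨i, hi⟩ ⟨j, hj⟩ (Submodule.Quotient.mk z)
      have h2 := phi_E hrel ⟨i, hi⟩ ⟨j, hj⟩
      simp only at h1 h2
      rw [h1, ← hx, mk_eq_smul, smul_smul, hf, hf, map_mul, h2]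
      rfl
  apply LinearIndependent.of_comp f
  convert hli using 1
  funext T
  exact hR T

/-- The basis of monomials. -/
noncomputable def vbasis : Module.Basis (Pat n) ℂ (Verma n (fun i => lam i)) :=
  Module.Basis.mk (vli n lam) (vspan n lam).ge

lemma vbasis_apply (T : Pat n) : vbasis n lam T = mon (vop n lam) n T (vvec n lam) := by
  unfold vbasis
  rw [Module.Basis.mk_apply]

lemma vbasis_zero : vbasis n lam (Pat.zero n) = vvec n lam := by
  rw [vbasis_apply, mon_zero (vop_rel n lam) le_rfl]; rfl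

lemma vweight (T : Pat n) {i : ℕ} (hi : i < n) :
    vop n lam i i (vbasis n lam T) = wt n lam T i • vbasis n lam T := by
  rw [vbasis_apply]
  apply weight_mon (vop_rel n lam) n le_rfl lam _ _ T i hi
  intro j hj
  have := (vsing n lam).2 j hj
  rwa [Submodule.mem_bot, sub_eq_zero] at this

/-- Coordinates of weight vectors. -/
lemma repr_eq_zero_of_weight {x : Verma n (fun i => lam i)} {i : ℕ} (hi : i < n) {c : ℂ}
    (hx : vop n lam i i x = c • x) {T : Pat n} (hT : (vbasis n lam).repr x T ≠ 0) :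
    wt n lam T i = c := by
  have h1 : ∀ y, (vbasis n lam).repr (vop n lam i i y) T =
      wt n lam T i * (vbasis n lam).repr y T := by
    intro y
    have h2 : ((vbasis n lam).coord T) ∘ₗ (vop n lam i i) =
        wt n lam T i • (vbasis n lam).coord T := by
      apply (vbasis n lam).ext
      intro S
      rw [LinearMap.comp_apply, vweight n lam S hi, map_smul, LinearMap.smul_apply,
        Module.Basis.coord_apply, Module.Basis.repr_self]
      by_cases hST : S = T
      · subst hST; rfl
      · simp [hST]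
    exact LinearMap.congr_fun h2 y
  have h3 := h1 x
  rw [hx, map_smul, Finsupp.smul_apply, smul_eq_mul] at h3
  exact (mul_right_cancel₀ hT h3).symm

lemma one_notMem_vermaIdeal : (1 : Ugl n) ∉ vermaIdeal n (fun i => lam i) := by
  intro h
  have h1 : vvec n lam = 0 := (Submodule.Quotient.mk_eq_zero _).mpr h
  have h2 := (vbasis n lam).ne_zero (Pat.zero n)
  rw [vbasis_zero] at h2
  exact h2 h1

/-- Central elements act by a scalar on the highest weight vector. -/
lemma exists_zc {z : Ugl n} (hz : z ∈ Subalgebra.center ℂ (Ugl n)) :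
    ∃ c : ℂ, z - algebraMap ℂ _ c ∈ vermaIdeal n (fun i => lam i) := by
  set B := vbasis n lam with hB
  have h1 : ∀ i, i < n → vop n lam i i (z • vvec n lam) = lam i • (z • vvec n lam) := by
    intro i hi
    have h2 := (vsing n lam).2 i hi
    rw [Submodule.mem_bot, sub_eq_zero] at h2
    have h3 := vop_apply n lam ⟨i, hi⟩ ⟨i, hi⟩ (z • vvec n lam)
    have h4 := vop_apply n lam ⟨i, hi⟩ ⟨i, hi⟩ (vvec n lam)
    simp only at h3 h4
    rw [h3, smul_smul, (Subalgebra.mem_center_iff.mp hz _), ← smul_smul, ← h4, h2, smul_comm]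
  have h2 : B.repr (z • vvec n lam) = Finsupp.single (Pat.zero n)
      (B.repr (z • vvec n lam) (Pat.zero n)) := by
    ext T
    by_cases hT : T = Pat.zero n
    · rw [hT]; simp
    · rw [Finsupp.single_apply, if_neg (Ne.symm hT)]
      by_contra hne
      apply hT
      apply eq_zero_of_wt n lam
      intro i hi
      exact repr_eq_zero_of_weight n lam hi (h1 i hi) hne
  set c := B.repr (z • vvec n lam) (Pat.zero n) with hc
  refine ⟨c, ?_⟩
  have h3 : z • vvec n lam = c • vvec n lam := by
    apply B.repr.injective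
    rw [h2, map_smul, ← vbasis_zero, B.repr_self]
    simp
  rw [← Submodule.Quotient.mk_eq_zero, Submodule.Quotient.mk_sub, mk_eq_smul, mk_eq_smul, h3,
    algebraMap_smul, sub_self]

end Verma

open Classical in
/-- The central character attached to a weight. -/
noncomputable def zc' (m : ℕ) (lam : Fin m → ℂ) (z : Ugl m) : ℂ :=
  if h : ∃ c : ℂ, z - algebraMap ℂ _ c ∈ vermaIdeal m lam then h.choose else 0

/-- The central character attached to a weight. -/
noncomputable def zc (m : ℕ) (lam : ℕ → ℂ) (z : Ugl m) : ℂ := zc' m (fun i => lam i) z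

lemma zc_spec {m : ℕ} (lam : ℕ → ℂ) {z : Ugl m} (hz : z ∈ Subalgebra.center ℂ (Ugl m)) :
    z - algebraMap ℂ _ (zc m lam z) ∈ vermaIdeal m (fun i => lam i) := by
  unfold zc zc'
  rw [dif_pos (exists_zc m lam hz)]
  exact (exists_zc m lam hz).choose_spec

lemma zc_unique {m : ℕ} (lam : ℕ → ℂ) {z : Ugl m} {c : ℂ}
    (hc : z - algebraMap ℂ _ c ∈ vermaIdeal m (fun i => lam i)) : zc m lam z = c := by
  have h : ∃ c : ℂ, z - algebraMap ℂ _ c ∈ vermaIdeal m (fun i => lam i) := ⟨c, hc⟩
  have h1 : z - algebraMap ℂ _ (zc m lam z) ∈ vermaIdeal m (fun i => lam i) := by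
    unfold zc zc'
    rw [dif_pos h]
    exact h.choose_spec
  by_contra hne
  have h2 := Submodule.sub_mem _ hc h1
  have h3 : z - algebraMap ℂ (Ugl m) c - (z - algebraMap ℂ _ (zc m lam z)) =
      algebraMap ℂ _ (zc m lam z - c) := by rw [map_sub]; abel
  rw [h3] at h2
  have h4 := Submodule.smul_mem _ (algebraMap ℂ (Ugl m) (zc m lam z - c)⁻¹) h2
  rw [smul_eq_mul, ← map_mul, inv_mul_cancel₀ (sub_ne_zero.mpr hne), map_one] at h4
  exact one_notMem_vermaIdeal m lam h4

/-- The central character depends only on the first `m` entries. -/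
lemma zc_congr {m : ℕ} {lam lam' : ℕ → ℂ} (h : ∀ i, i < m → lam i = lam' i) (z : Ugl m) :
    zc m lam z = zc m lam' z := by
  have : (fun i : Fin m => lam i) = fun i : Fin m => lam' i := by
    funext i; exact h i i.2
  unfold zc
  rw [this]

/-- Action of central elements on relative singular vectors. -/
lemma central_sing {Q : Type*} [AddCommGroup Q] [Module ℂ Q] {m : ℕ}
    {e : ℕ → ℕ → Module.End ℂ Q} (h : GLRel m e) {F : Submodule ℂ Q} (hF : Inv e m F)
    {lam : ℕ → ℂ} {v : Q} (hv : Sing e m F lam v) {z : Ugl m}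
    (hz : z ∈ Subalgebra.center ℂ (Ugl m)) : phi h z v - zc m lam z • v ∈ F := by
  have h1 := phi_mem_of_ideal h hF hv (zc_spec lam hz)
  rwa [map_sub, AlgHom.commutes, LinearMap.sub_apply, Module.algebraMap_end_apply] at h1

end Pool.Agent.Lib.MP_b5066f_al
end
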