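import Mathlib

/-!
# Verma modules of `gl(n)`, the Gelfand-Tsetlin subalgebra and the Gelfand-Tsetlin degree
-/

namespace Pool.Agent.Lib.MP_b5066f_al

attribute [local instance 100] LieRing.ofAssociativeRing

/-- The Lie algebra `gl(n)` over the complex numbers, with the commutator bracket. -/
abbrev gl (n : ℕ) : Type := Matrix (Fin n) (Fin n) ℂ

/-- The universal enveloping algebra `U(gl(n))`. -/
abbrev Ugl (n : ℕ) : Type := UniversalEnvelopingAlgebra ℂ (gl n)

/-- The elementary matrix `E_ij`, as an element of `U(gl(n))`. -/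
noncomputable def E {n : ℕ} (i j : Fin n) : Ugl n :=
  UniversalEnvelopingAlgebra.ι ℂ (Matrix.single i j (1 : ℂ))

/-- The `n × m` matrix with ones on the diagonal. -/
def incMatrix {m n : ℕ} (h : m ≤ n) : Matrix (Fin n) (Fin m) ℂ :=
  Matrix.of fun i j => if i = Fin.castLE h j then 1 else 0

lemma incMatrix_mul {m n : ℕ} (h : m ≤ n) : (incMatrix h).transpose * incMatrix h = 1 := by
  ext i j
  simp [incMatrix, Matrix.mul_apply, Matrix.one_apply, eq_comm]

/-- The inclusion of `gl(m)` in `gl(n)` as the upper left corner: `E_ij` goes to `E_ij`. -/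
def corner {m n : ℕ} (h : m ≤ n) : gl m →ₗ⁅ℂ⁆ gl n where
  toFun A := incMatrix h * A * (incMatrix h).transpose
  map_add' A B := by rw [Matrix.mul_add, Matrix.add_mul]
  map_smul' c A := by simp
  map_lie' := by
    intro A B
    have key : ∀ A B : gl m, incMatrix h * A * (incMatrix h).transpose *
        (incMatrix h * B * (incMatrix h).transpose) =
        incMatrix h * (A * B) * (incMatrix h).transpose := by
      intro A B
      calc incMatrix h * A * (incMatrix h).transpose *
          (incMatrix h * B * (incMatrix h).transpose)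
          = incMatrix h * A * ((incMatrix h).transpose * incMatrix h) * B *
            (incMatrix h).transpose := by simp only [Matrix.mul_assoc]
        _ = incMatrix h * (A * B) * (incMatrix h).transpose := by
            rw [incMatrix_mul, Matrix.mul_one]; simp only [Matrix.mul_assoc]
    change incMatrix h * (A * B - B * A) * (incMatrix h).transpose = _
    rw [Matrix.mul_sub, Matrix.sub_mul, ← key, ← key]
    rfl

/-- The induced homomorphism `U(gl(m)) → U(gl(n))`. -/
noncomputable def cornerU {m n : ℕ} (h : m ≤ n) : Ugl m →ₐ[ℂ] Ugl n :=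
  UniversalEnvelopingAlgebra.lift ℂ ((UniversalEnvelopingAlgebra.ι ℂ).comp (corner h))

/-- The Gelfand-Tsetlin subalgebra: the subalgebra of `U(gl(n))` generated by the centers of
`U(gl(1))`, ..., `U(gl(n))`. -/
noncomputable def GT (n : ℕ) : Subalgebra ℂ (Ugl n) :=
  Algebra.adjoin ℂ {x | ∃ (m : ℕ) (_ : 1 ≤ m) (h : m ≤ n),
    ∃ z ∈ Subalgebra.center ℂ (Ugl m), x = cornerU h z}

/-- The left ideal of `U(gl(n))` generated by the `E_ij` with `i < j` and the
`E_ii - λ_i`. -/
noncomputable def vermaIdeal (n : ℕ) (lam : Fin n → ℂ) : Submodule (Ugl n) (Ugl n) :=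
  Submodule.span (Ugl n) ({x | ∃ i j : Fin n, i < j ∧ x = E i j} ∪
    {x | ∃ i : Fin n, x = E i i - algebraMap ℂ (Ugl n) (lam i)})

/-- The Verma module `M(λ)`: the quotient of `U(gl(n))` by the left ideal `vermaIdeal`. -/
abbrev Verma (n : ℕ) (lam : Fin n → ℂ) : Type := Ugl n ⧸ vermaIdeal n lam

/-- For a subalgebra `Γ` of an algebra `U`, a `U`-module `M` and an ideal `𝔪` of `Γ`:
`M_𝔪 = {v | 𝔪^k v = 0 for some k}`. -/
def genSpace {U : Type*} [Ring U] [Algebra ℂ U] (Γ : Subalgebra ℂ U) (M : Type*)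
    [AddCommGroup M] [Module ℂ M] [Module U M] [IsScalarTower ℂ U M] (𝔪 : Ideal Γ) :
    Submodule ℂ M where
  carrier := {v | ∃ k : ℕ, ∀ x ∈ 𝔪 ^ k, (x : U) • v = 0}
  zero_mem' := ⟨0, fun x _ => smul_zero _⟩
  add_mem' := by
    rintro v w ⟨k, hk⟩ ⟨l, hl⟩
    refine ⟨max k l, fun x hx => ?_⟩
    rw [smul_add, hk x (Ideal.pow_le_pow_right (le_max_left k l) hx),
      hl x (Ideal.pow_le_pow_right (le_max_right k l) hx), add_zero]
  smul_mem' := by
    rintro c v ⟨k, hk⟩
    refine ⟨k, fun x hx => ?_⟩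
    rw [← algebraMap_smul U c v, ← mul_smul, ← Algebra.commutes, mul_smul, hk x hx, smul_zero]

/-- The Gelfand-Tsetlin degree relative to `Γ`: the supremum of the dimensions of the `M_𝔪`,
over all maximal ideals `𝔪` of `Γ`. -/
noncomputable def degree {U : Type*} [Ring U] [Algebra ℂ U] (Γ : Subalgebra ℂ U) (M : Type*)
    [AddCommGroup M] [Module ℂ M] [Module U M] [IsScalarTower ℂ U M] : ℕ∞ :=
  ⨆ (𝔪 : Ideal Γ) (_ : 𝔪.IsMaximal), Cardinal.toENat (Module.rank ℂ (genSpace Γ M 𝔪))

/-- The weight `-ρ`, with entries `-((n-1)/2 - i)` for `i = 0, ..., n-1`. -/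
noncomputable def negRho (n : ℕ) : Fin n → ℂ := fun i => -(((n : ℂ) - 1) / 2 - (i : ℕ))

end Pool.Agent.Lib.MP_b5066f_al
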