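import Pool.Agent.Lib.MP_b5066f_al.Central

section

/-!
# Invariance of central characters under the dot action, for integral differences
-/

namespace Pool.Agent.Lib.MP_b5066f_al

section Single

variable {A : Type*} [Ring A] [Algebra ℂ A] {n : ℕ} {e : ℕ → ℕ → A}

lemma rowMon_single (h : GLRel n e) {m : ℕ} (hm : m < n) (j : Fin m) (p : ℕ) :
    rowMon e m (Finsupp.single j p) = e m j ^ p := by
  induction p with
  | zero => rw [Finsupp.single_zero, rowMon_zero h hm, pow_zero]
  | succ p ih => rw [Finsupp.single_add, rowMon_add_single h hm, ih, pow_succ']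

/-- Powers of a simple lowering operator are monomials. -/
lemma exists_pat_pow (h : GLRel n e) (i p : ℕ) : ∀ m, m ≤ n → i + 1 < m →
    ∃ T : Pat m, mon e m T = e (i + 1) i ^ p := by
  intro m
  induction m with
  | zero => intro _ h; omega
  | succ m ih =>
    intro hm him
    by_cases h1 : i + 1 = m
    · subst h1
      refine ⟨Pat.mk (Finsupp.single ⟨i, Nat.lt_succ_self i⟩ p) (Pat.zero _), ?_⟩
      rw [mon_mk, mon_zero h (by omega), one_mul, rowMon_single h (by omega)]
    · obtain ⟨T, hT⟩ := ih (by omega) (by omega)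
      refine ⟨Pat.mk 0 T, ?_⟩
      rw [mon_mk, rowMon_zero h (by omega), mul_one, hT]

end Single

section Singular

variable {Q : Type*} [AddCommGroup Q] [Module ℂ Q] {m : ℕ} {e : ℕ → ℕ → Module.End ℂ Q}

/-- Applying a relation to a vector. -/
lemma rel_apply (h : GLRel m e) {i j k l : ℕ} (hi : i < m) (hj : j < m) (hk : k < m) (hl : l < m)
    (x : Q) : e i j (e k l x) = e k l (e i j x) + ((if j = k then e i l x else 0) -
      (if l = i then e k j x else 0)) := by
  have h1 := congrArg (fun f : Module.End ℂ Q => f x) (h i j k l hi hj hk hl)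
  simp only [LinearMap.sub_apply, Module.End.mul_apply] at h1
  rw [sub_eq_iff_eq_add] at h1
  rw [h1, add_comm]
  congr 2
  · split_ifs <;> rfl
  · split_ifs <;> rfl

/-- Vectors killed by the simple raising operators are killed by all raising operators. -/
lemma raise_of_simple (h : GLRel m e) {x : Q} (hx : ∀ j, j + 1 < m → e j (j + 1) x = 0) :
    ∀ d j, j + 1 + d < m → e j (j + 1 + d) x = 0 := by
  intro d
  induction d with
  | zero => intro j hj; exact hx j hj
  | succ d ih =>
    intro j hj
    have h1 := rel_apply h (i := j) (j := j + 1 + d) (k := j + 1 + d) (l := j + 1 + (d + 1))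
      (by omega) (by omega) (by omega) (by omega) x
    have h2 : e (j + 1 + d) (j + 1 + (d + 1)) x = 0 := hx (j + 1 + d) (by omega)
    rw [h2, ih j (by omega), map_zero, map_zero, zero_add, if_pos rfl,
      if_neg (by omega : ¬ (j + 1 + (d + 1) = j)), sub_zero] at h1
    exact h1.symm

variable {lam : ℕ → ℂ} {v : Q}

lemma weight_pow (h : GLRel m e) (hv : ∀ k, k < m → e k k v = lam k • v) {i : ℕ}
    (hi : i + 1 < m) (q : ℕ) {k : ℕ} (hk : k < m) :
    e k k ((e (i + 1) i ^ q) v) =
      (lam k + (if k = i + 1 then (q : ℂ) else 0) - (if k = i then (q : ℂ) else 0)) •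
        ((e (i + 1) i ^ q) v) := by
  induction q with
  | zero => rw [pow_zero]; simp [hv k hk]
  | succ q ih =>
    rw [pow_succ', Module.End.mul_apply, rel_apply h hk hk (by omega : i + 1 < m)
      (by omega : i < m), ih, map_smul]
    have e1 : (k = i + 1) ↔ (i + 1 = k) := eq_comm
    have e2 : (k = i) ↔ (i = k) := eq_comm
    by_cases h1 : i + 1 = k
    · subst h1
      have h2 : ¬ (i = i + 1) := by omega
      simp only [if_true, if_neg h2, if_neg (Ne.symm h2), sub_zero]
      push_cast
      module
    · by_cases h2 : i = k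
      · subst h2
        simp only [if_true, if_neg h1, if_neg (Ne.symm h1)]
        push_cast
        module
      · simp only [if_neg h1, if_neg h2, if_neg (Ne.symm h1), if_neg (Ne.symm h2)]
        module

lemma raise_pow (h : GLRel m e) (hv : ∀ k, k < m → e k k v = lam k • v)
    {i : ℕ} (hi : i + 1 < m) (hr : e i (i + 1) v = 0) (q : ℕ) :
    e i (i + 1) ((e (i + 1) i ^ (q + 1)) v) =
      (((q : ℂ) + 1) * (lam i - lam (i + 1) - q)) • ((e (i + 1) i ^ q) v) := by
  induction q with
  | zero =>
    rw [zero_add, pow_one, pow_zero, rel_apply h (by omega) (by omega) (by omega) (by omega), hr,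
      map_zero, zero_add, if_pos rfl, if_pos rfl, hv i (by omega), hv (i + 1) (by omega)]
    push_cast
    rw [← sub_smul]
    simp
  | succ q ih =>
    rw [pow_succ', Module.End.mul_apply, rel_apply h (by omega : i < m) (by omega : i + 1 < m)
      (by omega : i + 1 < m) (by omega : i < m), ih, map_smul, ← Module.End.mul_apply (e (i + 1) i),
      ← pow_succ', if_pos rfl, if_pos rfl, weight_pow h hv hi _ (by omega),
      weight_pow h hv hi _ (by omega)]
    have h2 : ¬ (i = i + 1) := by omega
    simp only [if_true, if_neg h2, if_neg (Ne.symm h2)]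
    push_cast
    module

/-- The singular vector of the dot action. -/
lemma sing_pow (h : GLRel m e) (hv : Sing e m ⊥ lam v) {i p : ℕ} (hi : i + 1 < m)
    (hp : lam i - lam (i + 1) + 1 = p) :
    Sing e m ⊥ (fun k => lam k + (if k = i + 1 then (p : ℂ) else 0) -
      (if k = i then (p : ℂ) else 0)) ((e (i + 1) i ^ p) v) := by
  have hw : ∀ k, k < m → e k k v = lam k • v := by
    intro k hk
    have := hv.2 k hk
    rwa [Submodule.mem_bot, sub_eq_zero] at this
  have hr : ∀ j k, j < k → k < m → e j k v = 0 := by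
    intro j k hjk hk
    have := hv.1 j k hjk hk
    rwa [Submodule.mem_bot] at this
  have hsimple : ∀ j, j + 1 < m → e j (j + 1) ((e (i + 1) i ^ p) v) = 0 := by
    intro j hj
    by_cases hji : j = i
    · subst hji
      cases p with
      | zero => rw [pow_zero]; exact hr j (j + 1) (by omega) hj
      | succ p =>
        rw [raise_pow h hw hj (hr j (j + 1) (by omega) hj)]
        have : lam j - lam (j + 1) - p = 0 := by
          push_cast at hp
          linear_combination hp
        rw [this, mul_zero, zero_smul]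
    · have h1 : ∀ q : ℕ, e j (j + 1) ((e (i + 1) i ^ q) v) = 0 := by
        intro q
        induction q with
        | zero => rw [pow_zero]; exact hr j (j + 1) (by omega) hj
        | succ q ih =>
          rw [pow_succ', Module.End.mul_apply, rel_apply h (by omega : j < m)
            (by omega : j + 1 < m) (by omega : i + 1 < m) (by omega : i < m), ih, map_zero,
            if_neg (by omega : ¬ (j + 1 = i + 1)), if_neg (by omega : ¬ (i = j))]
          simp
      exact h1 p
  constructor
  · intro j k hjk hk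
    rw [Submodule.mem_bot]
    obtain ⟨d, rfl⟩ : ∃ d, k = j + 1 + d := ⟨k - (j + 1), by omega⟩
    exact raise_of_simple h hsimple d j hk
  · intro k hk
    rw [Submodule.mem_bot, weight_pow h hw hi p hk, sub_self]

end Singular

/-- Invariance of the central character under one step of the dot action. -/
lemma zc_dot {m : ℕ} {lam : ℕ → ℂ} {i p : ℕ} (hi : i + 1 < m)
    (hp : lam i - lam (i + 1) + 1 = p) {z : Ugl m} (hz : z ∈ Subalgebra.center ℂ (Ugl m)) :
    zc m (fun k => lam k + (if k = i + 1 then (p : ℂ) else 0) -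
      (if k = i then (p : ℂ) else 0)) z = zc m lam z := by
  obtain ⟨Q, i1, i2, e, v, hrel, hsing, hli⟩ := exists_model m lam
  obtain ⟨T, hT⟩ := exists_pat_pow hrel i p m le_rfl hi
  have hne : (e (i + 1) i ^ p) v ≠ 0 := by
    have := hli.ne_zero T
    simp only [hT] at this
    exact this
  have h1 := central_sing hrel (inv_bot e m) (sing_pow hrel hsing hi hp) hz
  have h2 := central_sing hrel (inv_bot e m) hsing hz
  rw [Submodule.mem_bot, sub_eq_zero] at h1 h2
  have h3 : phi hrel z ((e (i + 1) i ^ p) v) = (e (i + 1) i ^ p) (phi hrel z v) := by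
    have h4 : Commute (phi hrel z) (e (i + 1) i) :=
      phi_central hrel hz (by omega) (by omega)
    have h5 := (h4.pow_right p).eq
    exact congrArg (fun f : Module.End ℂ Q => f v) h5
  rw [h3, h2, map_smul] at h1
  have h6 := sub_eq_zero.mpr h1
  rw [← sub_smul] at h6
  rcases smul_eq_zero.mp h6 with h7 | h7
  · exact (sub_eq_zero.mp h7).symm
  · exact absurd h7 hne

/-- The central character in terms of the shifted weight `l_j = λ_j + (m - 1 - j)`. -/
noncomputable def zl (m : ℕ) (l : Fin m → ℂ) (z : Ugl m) : ℂ :=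
  zc' m (fun j => l j - ((m : ℂ) - 1 - (j : ℕ))) z

lemma zl_swap_aux {m : ℕ} (l : Fin (m + 1) → ℂ) (i : Fin m) {p : ℕ}
    (hp : l i.castSucc - l i.succ = p) {z : Ugl (m + 1)}
    (hz : z ∈ Subalgebra.center ℂ (Ugl (m + 1))) :
    zl (m + 1) (l ∘ Equiv.swap i.castSucc i.succ) z = zl (m + 1) l z := by
  -- extend the weight
  set lam : ℕ → ℂ := fun k => if h : k < m + 1 then
    l ⟨k, h⟩ - (((m + 1 : ℕ) : ℂ) - 1 - (k : ℕ)) else 0 with hlam
  have hi : (i : ℕ) + 1 < m + 1 := by omega
  have hi0 : (i : ℕ) < m + 1 := by omega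
  have hl1 : lam i = l i.castSucc - (((m + 1 : ℕ) : ℂ) - 1 - (i : ℕ)) := by
    simp only [hlam, dif_pos hi0]; rfl
  have hl2 : lam (i + 1) = l i.succ - (((m + 1 : ℕ) : ℂ) - 1 - ((i + 1 : ℕ) : ℂ)) := by
    simp only [hlam, dif_pos hi]; rfl
  have hp' : lam i - lam (i + 1) + 1 = p := by
    rw [hl1, hl2, ← hp]; push_cast; ring
  have h1 := zc_dot hi hp' hz
  unfold zc at h1
  unfold zl
  have e1 : (fun j : Fin (m + 1) => lam j) =
      fun j => l j - (((m + 1 : ℕ) : ℂ) - 1 - (j : ℕ)) := by
    funext j
    simp only [hlam, dif_pos j.2]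
  have e2 : (fun j : Fin (m + 1) => lam j + (if (j : ℕ) = i + 1 then (p : ℂ) else 0) -
      (if (j : ℕ) = i then (p : ℂ) else 0)) =
      fun j => (l ∘ Equiv.swap i.castSucc i.succ) j - (((m + 1 : ℕ) : ℂ) - 1 - (j : ℕ)) := by
    funext j
    have h2 := congrFun e1 j
    rw [h2, Function.comp_apply]
    by_cases hj1 : j = i.castSucc
    · subst hj1
      rw [Equiv.swap_apply_left]
      have : ¬ (((i.castSucc : Fin (m + 1)) : ℕ) = i + 1) := by simp
      rw [if_neg this, if_pos (by simp), ← hp]
      ring
    · by_cases hj2 : j = i.succ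
      · subst hj2
        rw [Equiv.swap_apply_right]
        have : ¬ (((i.succ : Fin (m + 1)) : ℕ) = i) := by simp
        rw [if_neg this, if_pos (by simp), ← hp]
        ring
      · rw [Equiv.swap_apply_of_ne_of_ne hj1 hj2]
        have h3 : ¬ ((j : ℕ) = i + 1) := fun h => hj2 (Fin.ext (by simpa using h))
        have h4 : ¬ ((j : ℕ) = i) := fun h => hj1 (Fin.ext (by simpa using h))
        rw [if_neg h3, if_neg h4]
        ring
  rw [e1, e2] at h1
  exact h1

lemma zl_swap {m : ℕ} (l : Fin (m + 1) → ℂ) (hl : ∀ i j, ∃ k : ℤ, l i - l j = k) (i : Fin m)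
    {z : Ugl (m + 1)} (hz : z ∈ Subalgebra.center ℂ (Ugl (m + 1))) :
    zl (m + 1) (l ∘ Equiv.swap i.castSucc i.succ) z = zl (m + 1) l z := by
  obtain ⟨k, hk⟩ := hl i.castSucc i.succ
  rcases le_total 0 k with h0 | h0
  · obtain ⟨p, rfl⟩ := Int.eq_ofNat_of_zero_le h0
    exact zl_swap_aux l i (p := p) (by rw [hk]; simp) hz
  · obtain ⟨p, hp⟩ := Int.eq_ofNat_of_zero_le (neg_nonneg.mpr h0)
    have h1 := zl_swap_aux (l ∘ Equiv.swap i.castSucc i.succ) i (p := p) (by
      simp only [Function.comp_apply, Equiv.swap_apply_left, Equiv.swap_apply_right]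
      have h2 : l i.succ - l i.castSucc = ((-k : ℤ) : ℂ) := by
        rw [← neg_sub, hk]; push_cast; ring
      rw [h2, hp]; simp) hz
    have h2 : (l ∘ Equiv.swap i.castSucc i.succ) ∘ Equiv.swap i.castSucc i.succ = l := by
      funext j; simp
    rw [h2] at h1
    exact h1.symm

/-- Central characters are invariant under permutations when the differences are integers. -/
theorem zl_perm {m : ℕ} {z : Ugl m} (hz : z ∈ Subalgebra.center ℂ (Ugl m)) (l : Fin m → ℂ)
    (hl : ∀ i j, ∃ k : ℤ, l i - l j = k) (σ : Equiv.Perm (Fin m)) :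
    zl m (l ∘ σ) z = zl m l z := by
  cases m with
  | zero =>
    congr 1
    funext i
    exact i.elim0
  | succ m =>
    have hσ : σ ∈ Submonoid.closure (Set.range fun i : Fin m => Equiv.swap i.castSucc i.succ) := by
      rw [Equiv.Perm.mclosure_swap_castSucc_succ]; trivial
    induction hσ using Submonoid.closure_induction_right with
    | one => rfl
    | mul_right x _ y hy ih =>
      obtain ⟨i, rfl⟩ := hy
      have h1 := zl_swap (l ∘ x) (fun a b => hl (x a) (x b)) i hz
      rw [ih] at h1
      exact h1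

end Pool.Agent.Lib.MP_b5066f_al
end

section

section

/-!
# Rows of patterns and counting
-/

namespace Pool.Agent.Lib.MP_b5066f_al

/-- The weight of the `k`-th row. -/
noncomputable def rowWt : ∀ m, (ℕ → ℂ) → Pat m → ℕ → ℕ → ℂ
  | 0, lam, _, _ => lam
  | m + 1, lam, T, k => if k = m + 1 then lam else rowWt m (shift lam T.row) T.low k

lemma rowWt_top (m : ℕ) (lam : ℕ → ℂ) (T : Pat m) : rowWt m lam T m = lam := by
  cases m with
  | zero => rfl
  | succ m => simp [rowWt]

lemma rowWt_lt {m : ℕ} (lam : ℕ → ℂ) (T : Pat (m + 1)) {k : ℕ} (hk : k ≤ m) :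
    rowWt (m + 1) lam T k = rowWt m (shift lam T.row) T.low k := by
  have : k ≠ m + 1 := by omega
  simp [rowWt, this]

/-- The shifted `k`-th row. -/
noncomputable def lrow (m : ℕ) (lam : ℕ → ℂ) (T : Pat m) (k : ℕ) : Fin k → ℂ :=
  fun j => rowWt m lam T k j + ((k : ℂ) - 1 - (j : ℕ))

/-- A pattern is determined by its rows. -/
lemma pat_ext : ∀ (m : ℕ) (lam : ℕ → ℂ) (T T' : Pat m),
    (∀ k, k < m → lrow m lam T k = lrow m lam T' k) → T = T' := by
  intro m
  induction m with
  | zero => intro _ T T' _; exact subsingleton_pat_zero _ _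
  | succ m ih =>
    intro lam T T' h
    have h1 : T.row = T'.row := by
      ext j
      have h2 := congrFun (h m (Nat.lt_succ_self m)) j
      simp only [lrow] at h2
      rw [rowWt_lt lam T le_rfl, rowWt_lt lam T' le_rfl, rowWt_top, rowWt_top] at h2
      have h3 : shift lam T.row j = shift lam T'.row j := by linear_combination h2
      simp only [shift, dif_pos j.2] at h3
      have h4 : (T.row j : ℂ) = T'.row j := by linear_combination -h3
      exact_mod_cast h4
    have h2 : T.low = T'.low := by
      apply ih (shift lam T.row)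
      intro k hk
      have h3 := h k (by omega)
      funext j
      have h4 := congrFun h3 j
      simp only [lrow] at h4 ⊢
      rw [rowWt_lt lam T (by omega), rowWt_lt lam T' (by omega), ← h1] at h4
      exact h4
    change Pat.mk T.row T.low = Pat.mk T'.row T'.low
    rw [h1, h2]

/-- Existence of patterns with prescribed rows. -/
lemma exists_pat (c : ℂ) (x : ℕ → ℕ → ℕ) : ∀ (m : ℕ) (lam : ℕ → ℂ),
    (∀ j, j < m → lam j + ((m : ℂ) - 1 - j) = c - x m j) →
    (∀ k j, j < k → k < m → x (k + 1) j + 1 ≤ x k j) →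
    ∃ T : Pat m, ∀ k, k ≤ m → ∀ j : Fin k, lrow m lam T k j = c - x k j := by
  intro m
  induction m with
  | zero =>
    intro lam _ _
    exact ⟨Pat.zero 0, fun k hk j => by have := j.2; omega⟩
  | succ m ih =>
    intro lam h1 h2
    set a : Fin m →₀ ℕ := Finsupp.equivFunOnFinite.symm (fun j => x m j - x (m + 1) j - 1) with ha
    have ha' : ∀ j : Fin m, (a j : ℂ) = x m j - x (m + 1) j - 1 := by
      intro j
      have h3 := h2 m j j.2 (Nat.lt_succ_self m)
      have h4 : a j = x m j - x (m + 1) j - 1 := by simp [ha]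
      have h5 : a j + x (m + 1) j + 1 = x m j := by omega
      have h6 : (a j : ℂ) + x (m + 1) j + 1 = x m j := by exact_mod_cast h5
      linear_combination h6
    obtain ⟨T, hT⟩ := ih (shift lam a) (by
      intro j hj
      have h3 := h1 j (by omega)
      have h4 := ha' ⟨j, hj⟩
      simp only at h4
      simp only [shift, dif_pos hj, h4]
      push_cast at h3
      linear_combination h3) (fun k j hj hk => h2 k j hj (by omega))
    refine ⟨Pat.mk a T, fun k hk j => ?_⟩
    by_cases hkm : k = m + 1
    · subst hkm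
      simp only [lrow]
      rw [rowWt_top]
      exact h1 j j.2
    · have h3 := hT k (by omega) j
      simp only [lrow] at h3 ⊢
      rw [rowWt_lt _ _ (by omega : k ≤ m)]
      exact h3

/-- Functions with the same multiset of values differ by a permutation. -/
lemma exists_perm_of_multiset {m : ℕ} (f g : Fin m → ℂ)
    (h : Multiset.map f Finset.univ.val = Multiset.map g Finset.univ.val) :
    ∃ σ : Equiv.Perm (Fin m), f = g ∘ σ := by
  classical
  have hcard : ∀ (r : Fin m → ℂ) (c : ℂ), Fintype.card {a // r a = c} =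
      Multiset.count c (Multiset.map r Finset.univ.val) := by
    intro r c
    rw [Multiset.count_map, Fintype.card_subtype]
    simp only [eq_comm]
    rfl
  have he : ∀ c : ℂ, Nonempty ({a // f a = c} ≃ {b // g b = c}) := by
    intro c
    rw [← Fintype.card_eq, hcard, hcard, h]
  refine ⟨Equiv.ofFiberEquiv (fun c => (he c).some), ?_⟩
  funext a
  exact (Equiv.ofFiberEquiv_map _ a).symm

/-- The set of patterns with given multisets of rows. -/
def sameRows (n : ℕ) (lam : ℕ → ℂ) (T₀ : Pat n) : Set (Pat n) :=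
  {T | ∀ k, k < n → Multiset.map (lrow n lam T k) Finset.univ.val =
    Multiset.map (lrow n lam T₀ k) Finset.univ.val}

/-- An injection into a product of symmetric groups. -/
lemma exists_injection (n : ℕ) (lam : ℕ → ℂ) (T₀ : Pat n) :
    ∃ f : sameRows n lam T₀ → (∀ k : Fin n, Equiv.Perm (Fin k)), Function.Injective f := by
  have h : ∀ T : sameRows n lam T₀, ∀ k : Fin n, ∃ σ : Equiv.Perm (Fin k),
      lrow n lam T.1 k = lrow n lam T₀ k ∘ σ := fun T k =>
    exists_perm_of_multiset _ _ (T.2 k k.2)
  choose f hf using h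
  refine ⟨f, fun T T' hTT => ?_⟩
  apply Subtype.ext
  apply pat_ext n lam
  intro k hk
  have h1 := hf T ⟨k, hk⟩
  have h2 := hf T' ⟨k, hk⟩
  rw [hTT] at h1
  exact h1.trans h2.symm

lemma card_perms (n : ℕ) : Fintype.card (∀ k : Fin n, Equiv.Perm (Fin k)) =
    ∏ k ∈ Finset.range n, k.factorial := by
  rw [Fintype.card_pi, ← Fin.prod_univ_eq_prod_range]
  apply Finset.prod_congr rfl
  intro k _
  rw [Fintype.card_perm, Fintype.card_fin]

/-- Patterns attached to families of permutations, when the top row is constant. -/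
lemma exists_family (n : ℕ) (hn : 1 ≤ n) (lam : ℕ → ℂ) (c : ℂ)
    (hc : ∀ j, j < n → lam j + ((n : ℂ) - 1 - j) = c) :
    ∃ (r : ∀ k : ℕ, Fin k → ℕ) (F : (∀ k : Fin n, Equiv.Perm (Fin k)) → Pat n),
      Function.Injective F ∧
      (∀ σ, ∀ k : Fin n, ∀ j, lrow n lam (F σ) k j = c - r k (σ k j)) := by
  classical
  set r : ∀ k : ℕ, Fin k → ℕ := fun k j => (n - k) * n + j with hr
  have hex : ∀ σ : (∀ k : Fin n, Equiv.Perm (Fin k)), ∃ T : Pat n, ∀ k : Fin n, ∀ j,
      lrow n lam T k j = c - r k (σ k j) := by
    intro σ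
    set x : ℕ → ℕ → ℕ := fun k j => if hk : k < n then
      (if hj : j < k then r k (σ ⟨k, hk⟩ ⟨j, hj⟩) else 0) else 0 with hx
    obtain ⟨T, hT⟩ := exists_pat c x n lam (by
      intro j hj
      rw [hc j hj]
      simp [hx]) (by
      intro k j hj hk
      have h1 : x k j = (n - k) * n + (σ ⟨k, hk⟩ ⟨j, hj⟩ : Fin k) := by
        simp only [hx, dif_pos hk, dif_pos hj, hr]
      by_cases hk1 : k + 1 < n
      · have hj1 : j < k + 1 := by omega
        have h2 : x (k + 1) j = (n - (k + 1)) * n + (σ ⟨k + 1, hk1⟩ ⟨j, hj1⟩ : Fin (k + 1)) := by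
          simp only [hx, dif_pos hk1, dif_pos hj1, hr]
        rw [h1, h2]
        have h3 := (σ ⟨k + 1, hk1⟩ ⟨j, hj1⟩).2
        have h4 : (n - k) * n = (n - (k + 1)) * n + n := by
          have : n - k = (n - (k + 1)) + 1 := by omega
          rw [this]; ring
        simp only at h3
        omega
      · have h2 : x (k + 1) j = 0 := by simp only [hx, dif_neg hk1]
        rw [h1, h2]
        have h4 : 1 * 1 ≤ (n - k) * n := Nat.mul_le_mul (by omega) hn
        omega)
    refine ⟨T, fun k j => ?_⟩
    have h5 := hT k k.2.le j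
    rw [h5]
    simp only [hx, dif_pos k.2, dif_pos j.2]
  choose F hF using hex
  refine ⟨r, F, ?_, hF⟩
  intro σ τ hστ
  funext k
  apply Equiv.ext
  intro j
  have h1 := hF σ k j
  have h2 := hF τ k j
  rw [hστ, h2] at h1
  have h3 : ((r k (σ k j) : ℕ) : ℂ) = r k (τ k j) := by linear_combination h1
  have h4 : r k (σ k j) = r k (τ k j) := by exact_mod_cast h3
  simp only [hr] at h4
  apply Fin.ext
  omega

end Pool.Agent.Lib.MP_b5066f_al
end

section

/-!
# Gelfand invariants and separation of central characters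
-/

namespace Pool.Agent.Lib.MP_b5066f_al

/-- The matrix of generators. -/
noncomputable def EM (m : ℕ) : Matrix (Fin m) (Fin m) (Ugl m) := Matrix.of fun i j => E i j

lemma cm_E_pow (m : ℕ) (p : ℕ) (i j k l : Fin m) :
    cm (E i j) ((EM m ^ p) k l) = (if j = k then (EM m ^ p) i l else 0) -
      (if l = i then (EM m ^ p) k j else 0) := by
  induction p generalizing k l with
  | zero =>
    rw [pow_zero]
    simp only [Matrix.one_apply]
    have hL : cm (E i j) (if k = l then (1 : Ugl m) else 0) = 0 := by
      split_ifs <;> simp [cm]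
    rw [hL]
    rcases eq_or_ne j k with rfl | h1
    · rcases eq_or_ne l i with rfl | h2
      · simp
      · simp [h2, Ne.symm h2]
    · rcases eq_or_ne l i with rfl | h2
      · simp [h1, Ne.symm h1]
      · simp [h1, h2]
  | succ p ih =>
    rw [pow_succ]
    simp only [Matrix.mul_apply]
    rw [cm_sum_right]
    have hE : ∀ q, cm (E i j) (EM m q l) =
        (if j = q then E i l else 0) - (if l = i then E q j else 0) := by
      intro q
      exact E_rel i j q l
    simp only [cm_mul_right, ih, hE, sub_mul, mul_sub, ite_mul, mul_ite, zero_mul, mul_zero]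
    simp only [Finset.sum_add_distrib, Finset.sum_sub_distrib]
    rw [Finset.sum_ite_eq, Finset.sum_ite_eq']
    simp only [Finset.mem_univ, if_true]
    have h1 : ∀ a b, EM m a b = E a b := fun a b => rfl
    simp only [h1]
    split_ifs
    · abel
    · simp
    · simp only [Finset.sum_const_zero, zero_sub]
      abel
    · simp

/-- The Gelfand invariants. -/
noncomputable def gi (m p : ℕ) : Ugl m := ∑ i, (EM m ^ p) i i

lemma gi_central (m p : ℕ) : gi m p ∈ Subalgebra.center ℂ (Ugl m) := by
  have h1 : ∀ i j : Fin m, E i j * gi m p = gi m p * E i j := by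
    intro i j
    have h2 : cm (E i j) (gi m p) = 0 := by
      unfold gi
      rw [cm_sum_right]
      simp only [cm_E_pow, Finset.sum_sub_distrib]
      rw [Finset.sum_ite_eq, Finset.sum_ite_eq']
      simp
    exact sub_eq_zero.mp h2
  rw [Subalgebra.mem_center_iff]
  intro x
  induction x using Ugl_induction with
  | hE i j => exact h1 i j
  | hc c => exact Algebra.commutes _ _
  | hadd x y hx hy => rw [add_mul, mul_add, hx, hy]
  | hmul x y hx hy => rw [mul_assoc, hy, ← mul_assoc, hx, mul_assoc]

/-- The eigenvalues. -/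
noncomputable def alpha {m : ℕ} (l : Fin m → ℂ) : ℕ → Fin m → ℂ
  | 0 => fun _ => 1
  | p + 1 => fun j => l j * alpha l p j - ∑ q, if j < q then alpha l p q else 0

lemma EM_pow_mem (m : ℕ) (lam : Fin m → ℂ) (p : ℕ) (i j : Fin m) (hij : i ≤ j) :
    (EM m ^ p) i j - algebraMap ℂ _ (if i = j then
      alpha (fun j => lam j + ((m : ℂ) - 1 - (j : ℕ))) p j else 0) ∈ vermaIdeal m lam := by
  set l : Fin m → ℂ := fun j => lam j + ((m : ℂ) - 1 - (j : ℕ)) with hl
  set I := vermaIdeal m lam with hI
  have hraise : ∀ i j : Fin m, i < j → (E i j : Ugl m) ∈ I := fun i j hij =>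
    Submodule.subset_span (Or.inl ⟨i, j, hij, rfl⟩)
  have hdiag : ∀ i : Fin m, (E i i : Ugl m) - algebraMap ℂ _ (lam i) ∈ I := fun i =>
    Submodule.subset_span (Or.inr ⟨i, rfl⟩)
  induction p generalizing i j with
  | zero =>
    rw [pow_zero, Matrix.one_apply]
    split_ifs
    · simp [alpha]
    · simp
  | succ p ih =>
    rw [pow_succ, Matrix.mul_apply]
    set t : Fin m → ℂ := fun q => if q < j then 0 else if q = j then
      (if i = j then lam j * alpha l p j else 0) else
      (if i = j then alpha l p j - alpha l p q else 0) with ht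
    have hterm : ∀ q, (EM m ^ p) i q * EM m q j - algebraMap ℂ _ (t q) ∈ I := by
      intro q
      have hE : EM m q j = E q j := rfl
      rw [hE]
      rcases lt_trichotomy q j with hq | hq | hq
      · simp only [ht, if_pos hq, map_zero, sub_zero]
        exact I.smul_mem _ (hraise q j hq)
      · subst hq
        simp only [ht, lt_irrefl, if_false, if_true]
        have h1 := I.smul_mem ((EM m ^ p) i q) (hdiag q)
        have h2 := I.smul_mem (algebraMap ℂ (Ugl m) (lam q)) (ih i q hij)
        have h3 := I.add_mem h1 h2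
        convert h3 using 1
        rw [smul_eq_mul, smul_eq_mul, mul_sub, mul_sub, ← map_mul, ← Algebra.commutes (lam q)]
        split_ifs
        · abel
        · rw [mul_zero]; abel
      · have hq1 : ¬ q < j := not_lt.mpr hq.le
        simp only [ht, if_neg hq1, if_neg hq.ne']
        have h1 := cm_E_pow m p q j i q
        simp only [if_true] at h1
        have h2 : (EM m ^ p) i q * E q j = E q j * (EM m ^ p) i q -
            ((if j = i then (EM m ^ p) q q else 0) - (EM m ^ p) i j) := by
          rw [← h1]; unfold cm; abel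
        rw [h2]
        have h3 : (EM m ^ p) i q ∈ I := by
          have := ih i q (hij.trans hq.le)
          have hne : ¬ (i = q) := (lt_of_le_of_lt hij hq).ne
          rwa [if_neg hne, map_zero, sub_zero] at this
        have h4 := I.smul_mem (E q j) h3
        rw [smul_eq_mul] at h4
        by_cases hij' : i = j
        · subst hij'
          simp only [if_true]
          have h5 := ih q q le_rfl
          have h6 := ih i i le_rfl
          simp only [if_true] at h5 h6
          have h7 := I.add_mem (I.sub_mem h4 h5) h6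
          convert h7 using 1
          rw [map_sub]
          abel
        · rw [if_neg (Ne.symm hij'), if_neg hij', map_zero, sub_zero, zero_sub, sub_neg_eq_add]
          have h6 := ih i j hij
          rw [if_neg hij', map_zero, sub_zero] at h6
          exact I.add_mem h4 h6
    have hsum := I.sum_mem (fun q (_ : q ∈ Finset.univ) => hterm q)
    rw [Finset.sum_sub_distrib, ← map_sum] at hsum
    convert hsum using 2
    congr 1
    by_cases hij' : i = j
    · subst hij'
      simp only [ht, if_true, alpha]
      have e1 : ∀ q : Fin m, (if q < i then (0 : ℂ) else if q = i then lam i * alpha l p i else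
          alpha l p i - alpha l p q) = (if q = i then lam i * alpha l p i else 0) +
          (if i < q then alpha l p i else 0) - (if i < q then alpha l p q else 0) := by
        intro q
        rcases lt_trichotomy q i with hq | hq | hq
        · rw [if_pos hq, if_neg hq.ne, if_neg (not_lt.mpr hq.le), if_neg (not_lt.mpr hq.le)]
          ring
        · subst hq; simp
        · rw [if_neg (not_lt.mpr hq.le), if_neg hq.ne', if_pos hq, if_neg hq.ne', if_pos hq]
          ring
      simp only [e1, Finset.sum_sub_distrib, Finset.sum_add_distrib]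
      rw [Finset.sum_ite_eq', if_pos (Finset.mem_univ i)]
      have e2 : ∑ q : Fin m, (if i < q then alpha l p i else 0) =
          ((m : ℂ) - 1 - (i : ℕ)) * alpha l p i := by
        rw [← Finset.sum_filter, Finset.sum_const, nsmul_eq_mul]
        congr 1
        have : (Finset.univ.filter (fun q : Fin m => i < q)).card = m - 1 - i := by
          have h : Finset.univ.filter (fun q : Fin m => i < q) = Finset.Ioi i := by ext; simp
          rw [h, Fin.card_Ioi]
        rw [this]
        have hi := i.2
        rw [Nat.cast_sub (by omega), Nat.cast_sub (by omega)]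
        push_cast
        ring
      rw [e2]
      simp only [hl]
      ring
    · simp only [ht, if_neg hij']
      symm
      apply Finset.sum_eq_zero
      intro q _
      split_ifs <;> rfl

/-- The eigenvalues of the Gelfand invariants. -/
lemma zl_gi (m : ℕ) (l : Fin m → ℂ) (p : ℕ) : zl m l (gi m p) = ∑ j, alpha l p j := by
  set lam : ℕ → ℂ := fun k => if h : k < m then l ⟨k, h⟩ - ((m : ℂ) - 1 - (k : ℕ)) else 0
    with hlam
  have e1 : (fun j : Fin m => lam j) = fun j => l j - ((m : ℂ) - 1 - (j : ℕ)) := by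
    funext j
    simp only [hlam, dif_pos j.2]
  have h1 : zl m l (gi m p) = zc m lam (gi m p) := by
    unfold zl zc
    rw [e1]
  rw [h1]
  apply zc_unique
  unfold gi
  rw [map_sum, ← Finset.sum_sub_distrib]
  apply Submodule.sum_mem
  intro i _
  have h2 := EM_pow_mem m (fun j : Fin m => lam j) p i i le_rfl
  have h3 : (fun j : Fin m => lam j + ((m : ℂ) - 1 - (j : ℕ))) = l := by
    funext j
    have := congrFun e1 j
    rw [this]; ring
  rw [h3, if_pos rfl] at h2
  exact h2

section Separation

open PowerSeries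

/-- The generating series of the eigenvalues. -/
noncomputable def ser {m : ℕ} (l : Fin m → ℂ) : PowerSeries ℂ :=
  PowerSeries.mk fun p => ∑ j, alpha l p j

lemma alpha_succ {m : ℕ} (l : Fin (m + 1) → ℂ) (p : ℕ) (j : Fin m) :
    alpha l p j.succ = alpha (fun i : Fin m => l i.succ) p j := by
  induction p generalizing j with
  | zero => rfl
  | succ p ih =>
    simp only [alpha]
    rw [Fin.sum_univ_succ, ih]
    simp only [Fin.not_lt_zero, if_false, zero_add, Fin.succ_lt_succ_iff, ih]

lemma ser_identity {m : ℕ} (l : Fin m → ℂ) :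
    (1 - X * ser l) * ∏ j, (1 - C (l j) * X) = ∏ j, (1 - C (l j + 1) * X) := by
  induction m with
  | zero =>
    have : ser l = 0 := by
      unfold ser
      ext p
      simp
    rw [this]
    simp
  | succ m ih =>
    set l' : Fin m → ℂ := fun i => l i.succ with hl'
    set a : PowerSeries ℂ := PowerSeries.mk fun p => alpha l p 0 with ha
    have h1 : ser l = a + ser l' := by
      ext p
      simp only [ser, ha, PowerSeries.coeff_mk, map_add]
      rw [Fin.sum_univ_succ]
      simp only [alpha_succ]
      rfl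
    have h2 : (1 - C (l 0) * X) * a = 1 - X * ser l' := by
      ext p
      cases p with
      | zero => simp [ha, alpha]
      | succ p =>
        have e1 : (1 - C (l 0) * X) * a = a - C (l 0) * (X * a) := by ring
        rw [e1]
        simp only [map_sub, PowerSeries.coeff_C_mul, PowerSeries.coeff_succ_X_mul, ha, ser,
          PowerSeries.coeff_mk, PowerSeries.coeff_one, Nat.succ_ne_zero, if_false, zero_sub]
        simp only [alpha]
        rw [Fin.sum_univ_succ]
        simp only [lt_irrefl, if_false, zero_add, Fin.succ_pos, if_true, alpha_succ]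
        simp
        rfl
    rw [Fin.prod_univ_succ, Fin.prod_univ_succ, h1, ← ih l']
    have h3 : (1 - X * (a + ser l')) * ((1 - C (l 0) * X) * ∏ i, (1 - C (l' i) * X)) =
        ((1 - X * ser l') * (1 - C (l 0) * X) - X * ((1 - C (l 0) * X) * a)) *
          ∏ i, (1 - C (l' i) * X) := by ring
    have h4 : (∏ i : Fin m, (1 - C (l i.succ) * X) : PowerSeries ℂ) =
        ∏ i, (1 - C (l' i) * X) := rfl
    rw [h4, h3, h2]
    simp only [map_add, map_one]
    ring

/-- Multisets with the same shifted difference are equal. -/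
lemma multiset_eq_of_shift (M N : Multiset ℂ)
    (h : M.map (fun x => x + 1) + N = N.map (fun x => x + 1) + M) : M = N := by
  classical
  have hcount : ∀ (K : Multiset ℂ) (x : ℂ), (K.map (fun x => x + 1)).count x = K.count (x - 1) := by
    intro K x
    have h1 : x = (fun y : ℂ => y + 1) (x - 1) := by simp
    conv_lhs => rw [h1]
    exact Multiset.count_map_eq_count' _ _ (add_left_injective 1) _
  have h1 : ∀ x, M.count (x - 1) + N.count x = N.count (x - 1) + M.count x := by
    intro x
    have := congrArg (Multiset.count x) h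
    rw [Multiset.count_add, Multiset.count_add, hcount, hcount] at this
    exact this
  by_contra hne
  obtain ⟨x, hx⟩ : ∃ x, M.count x ≠ N.count x := by
    by_contra hcon
    push Not at hcon
    exact hne (Multiset.ext.mpr hcon)
  have h2 : ∀ k : ℕ, M.count (x - k) ≠ N.count (x - k) := by
    intro k
    induction k with
    | zero => simpa using hx
    | succ k ih =>
      have h3 := h1 (x - k)
      have h4 : x - ((k + 1 : ℕ) : ℂ) = x - k - 1 := by push_cast; ring
      rw [h4]
      intro h5
      apply ih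
      omega
  have h3 : ∀ k : ℕ, x - (k : ℂ) ∈ (M + N).toFinset := by
    intro k
    rw [Multiset.mem_toFinset, Multiset.mem_add]
    by_contra hcon
    push Not at hcon
    apply h2 k
    rw [Multiset.count_eq_zero_of_notMem hcon.1, Multiset.count_eq_zero_of_notMem hcon.2]
  have hinj : Function.Injective (fun k : ℕ => x - (k : ℂ)) := by
    intro a b hab
    have : (a : ℂ) = b := by
      have h5 : x - (a : ℂ) = x - b := hab
      linear_combination -h5
    exact_mod_cast this
  exact (Set.infinite_range_of_injective hinj)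
    (((M + N).toFinset.finite_toSet).subset (by rintro _ ⟨k, rfl⟩; exact h3 k))

/-- Separation: the power sums of the eigenvalues determine the multiset. -/
theorem separation {m : ℕ} (l l' : Fin m → ℂ)
    (h : ∀ p, ∑ j, alpha l p j = ∑ j, alpha l' p j) :
    Multiset.map l Finset.univ.val = Multiset.map l' Finset.univ.val := by
  have hser : ser l = ser l' := by
    unfold ser
    congr 1
    funext p
    exact h p
  have h1 := ser_identity l
  have h2 := ser_identity l'
  rw [hser] at h1
  have h3 : (∏ j, (1 - C (l j + 1) * X : PowerSeries ℂ)) * ∏ j, (1 - C (l' j) * X) =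
      (∏ j, (1 - C (l' j + 1) * X)) * ∏ j, (1 - C (l j) * X) := by
    rw [← h1, ← h2]; ring
  -- as polynomials
  have h4 : (∏ j, (1 - Polynomial.C (l j + 1) * Polynomial.X)) *
      ∏ j, (1 - Polynomial.C (l' j) * Polynomial.X) =
      (∏ j, (1 - Polynomial.C (l' j + 1) * Polynomial.X)) *
        ∏ j, (1 - Polynomial.C (l j) * Polynomial.X) := by
    apply Polynomial.coe_injective ℂ
    have hc : ∀ r : Fin m → ℂ, (((∏ j, (1 - Polynomial.C (r j) * Polynomial.X) :
        Polynomial ℂ)) : PowerSeries ℂ) = ∏ j, (1 - C (r j) * X) := by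
      intro r
      have := map_prod (Polynomial.coeToPowerSeries.ringHom (R := ℂ))
        (fun j => (1 - Polynomial.C (r j) * Polynomial.X)) Finset.univ
      simp only [Polynomial.coeToPowerSeries.ringHom_apply] at this
      rw [this]
      apply Finset.prod_congr rfl
      intro j _
      simp
    rw [Polynomial.coe_mul, Polynomial.coe_mul, hc, hc, hc, hc]
    exact h3
  -- evaluate at inverses
  have h5 : ∀ u : ℂ, u ≠ 0 → (∏ j, (u - (l j + 1))) * ∏ j, (u - l' j) =
      (∏ j, (u - (l' j + 1))) * ∏ j, (u - l j) := by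
    intro u hu
    have h6 := congrArg (Polynomial.eval u⁻¹) h4
    simp only [Polynomial.eval_mul, Polynomial.eval_prod, Polynomial.eval_sub,
      Polynomial.eval_one, Polynomial.eval_C, Polynomial.eval_X] at h6
    have hr : ∀ r : Fin m → ℂ, ∏ j, (u - r j) = u ^ m * ∏ j, (1 - r j * u⁻¹) := by
      intro r
      have : ∀ j, u - r j = u * (1 - r j * u⁻¹) := by
        intro j; field_simp
      simp only [this]
      rw [Finset.prod_mul_distrib, Finset.prod_const, Finset.card_univ, Fintype.card_fin]
    rw [hr, hr, hr, hr]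
    linear_combination (u ^ m * u ^ m) * h6
  have h6 : (∏ j, (Polynomial.X - Polynomial.C (l j + 1))) *
      ∏ j, (Polynomial.X - Polynomial.C (l' j)) =
      (∏ j, (Polynomial.X - Polynomial.C (l' j + 1))) *
        ∏ j, (Polynomial.X - Polynomial.C (l j)) := by
    apply Polynomial.eq_of_infinite_eval_eq
    apply Set.Infinite.mono (s := {0}ᶜ)
    · intro u hu
      have := h5 u hu
      simp only [Set.mem_ofPred_eq, Polynomial.eval_mul, Polynomial.eval_prod,
        Polynomial.eval_sub, Polynomial.eval_C, Polynomial.eval_X]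
      exact this
    · exact (Set.finite_singleton (0 : ℂ)).infinite_compl
  have hroots : ∀ r : Fin m → ℂ, (∏ j, (Polynomial.X - Polynomial.C (r j))).roots =
      Multiset.map r Finset.univ.val := by
    intro r
    have : (∏ j, (Polynomial.X - Polynomial.C (r j))) =
        ((Multiset.map r Finset.univ.val).map (fun a => Polynomial.X - Polynomial.C a)).prod := by
      rw [Multiset.map_map]; rfl
    rw [this, Polynomial.roots_multiset_prod_X_sub_C]
  have hne : ∀ r : Fin m → ℂ, (∏ j, (Polynomial.X - Polynomial.C (r j))) ≠ 0 := by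
    intro r
    exact Finset.prod_ne_zero_iff.mpr (fun j _ => Polynomial.X_sub_C_ne_zero _)
  have h7 := congrArg Polynomial.roots h6
  rw [Polynomial.roots_mul (mul_ne_zero (hne _) (hne _)),
    Polynomial.roots_mul (mul_ne_zero (hne _) (hne _)), hroots, hroots, hroots, hroots] at h7
  apply multiset_eq_of_shift
  rw [Multiset.map_map, Multiset.map_map]
  exact h7

end Separation

/-- Central characters separate multisets. -/
theorem multiset_eq_of_zl {m : ℕ} (l l' : Fin m → ℂ)
    (h : ∀ z ∈ Subalgebra.center ℂ (Ugl m), zl m l z = zl m l' z) :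
    Multiset.map l Finset.univ.val = Multiset.map l' Finset.univ.val := by
  apply separation
  intro p
  rw [← zl_gi, ← zl_gi]
  exact h _ (gi_central m p)

end Pool.Agent.Lib.MP_b5066f_al
end

section

/-!
# Triangularity of the Gelfand-Tsetlin subalgebra
-/

namespace Pool.Agent.Lib.MP_b5066f_al

lemma zl_lrow (n : ℕ) (lam : ℕ → ℂ) (T : Pat n) (k : ℕ) (z : Ugl k) :
    zl k (lrow n lam T k) z = zc k (rowWt n lam T k) z := by
  unfold zl zc lrow
  congr 1
  funext j
  ring

section Relative

variable {Q : Type*} [AddCommGroup Q] [Module ℂ Q] {n : ℕ} {e : ℕ → ℕ → Module.End ℂ Q}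

/-- The central elements of the smaller algebras act triangularly. -/
theorem tri (hrel : GLRel n e) : ∀ m, m ≤ n → ∀ F : Submodule ℂ Q, Inv e m F →
    ∀ (lam : ℕ → ℂ) (v : Q), Sing e m F lam v → ∀ (T : Pat m) (k : ℕ) (hk : k ≤ m) (hkn : k ≤ n)
      (z : Ugl k), z ∈ Subalgebra.center ℂ (Ugl k) →
      phi (hrel.mono hkn) z (mon e m T v) - zc k (rowWt m lam T k) z • mon e m T v ∈
        F ⊔ Submodule.span ℂ {x | ∃ S : Pat m, S < T ∧ x = mon e m S v} := by
  intro m
  have top : ∀ m, m ≤ n → ∀ F : Submodule ℂ Q, Inv e m F →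
      ∀ (lam : ℕ → ℂ) (v : Q), Sing e m F lam v → ∀ (T : Pat m) (hm : m ≤ n)
        (z : Ugl m), z ∈ Subalgebra.center ℂ (Ugl m) →
        phi (hrel.mono hm) z (mon e m T v) - zc m (rowWt m lam T m) z • mon e m T v ∈ F := by
    intro m hmn F hF lam v hv T hm z hz
    rw [rowWt_top]
    have h1 := central_sing (hrel.mono hm) hF hv hz
    have h2 := commute_mon hrel (g := phi (hrel.mono hm) z) hm
      (fun i j hi hj => phi_central (hrel.mono hm) hz hi hj) m le_rfl T
    have h3 := congrArg (fun f : Module.End ℂ Q => f v) h2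
    simp only [Module.End.mul_apply] at h3
    rw [h3, ← map_smul, ← map_sub]
    exact hF.mon_mem hrel hm T h1
  induction m with
  | zero =>
    intro hmn F hF lam v hv T k hk hkn z hz
    obtain rfl : k = 0 := by omega
    exact le_sup_left (α := Submodule ℂ Q) (top 0 hmn F hF lam v hv T hkn z hz)
  | succ m ih =>
    intro hmn F hF lam v hv T k hk hkn z hz
    by_cases hkm : k = m + 1
    · subst hkm
      exact le_sup_left (α := Submodule ℂ Q) (top (m + 1) hmn F hF lam v hv T hkn z hz)
    · have hk' : k ≤ m := by omega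
      rw [rowWt_lt lam T hk']
      have h1 := ih (by omega) (Flt e m F v T.row) (inv_Flt hrel hmn hF hv T.row) _ _
        (sing_step hrel hmn hF hv T.row) T.low k hk' hkn z hz
      have h2 : Flt e m F v T.row ⊔ Submodule.span ℂ
          {x | ∃ S : Pat m, S < T.low ∧ x = mon e m S (rowMon e m T.row v)} ≤
          F ⊔ Submodule.span ℂ {x | ∃ S : Pat (m + 1), S < T ∧ x = mon e (m + 1) S v} := by
        apply sup_le
        · apply sup_le_sup le_rfl
          apply Submodule.span_mono
          rintro x ⟨S, hS, rfl⟩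
          exact ⟨S, Pat.lt_iff.mpr (Or.inl hS), rfl⟩
        · refine le_trans ?_ le_sup_right
          apply Submodule.span_mono
          rintro x ⟨S, hS, rfl⟩
          exact ⟨Pat.mk T.row S, Pat.lt_iff.mpr (Or.inr ⟨rfl, hS⟩), rfl⟩
      exact h2 h1

end Relative

section VermaTri

variable (n : ℕ) (lam : ℕ → ℂ)

lemma repr_ss (x y : Verma n (fun i => lam i)) (c : ℂ) (S : Pat n) :
    (vbasis n lam).repr (x - c • y) S =
      (vbasis n lam).repr x S - c * (vbasis n lam).repr y S := by
  rw [map_sub, map_smul]; rfl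

lemma repr_self_same (T : Pat n) : (vbasis n lam).repr (vbasis n lam T) T = 1 := by
  rw [Module.Basis.repr_self, Finsupp.single_eq_same]

lemma repr_self_ne {S T : Pat n} (h : S ≠ T) : (vbasis n lam).repr (vbasis n lam T) S = 0 := by
  rw [Module.Basis.repr_self, Finsupp.single_apply, if_neg (Ne.symm h)]

/-- Span of the basis vectors strictly below `T`. -/
noncomputable def LT' (T : Pat n) : Submodule ℂ (Verma n (fun i => lam i)) :=
  Submodule.span ℂ {x | ∃ S : Pat n, S < T ∧ x = vbasis n lam S}

lemma mem_LT'_iff (T : Pat n) (x : Verma n (fun i => lam i)) :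
    x ∈ LT' n lam T ↔ ∀ S, (vbasis n lam).repr x S ≠ 0 → S < T := by
  constructor
  · intro hx
    unfold LT' at hx
    induction hx using Submodule.span_induction with
    | mem x hx =>
      obtain ⟨S, hS, rfl⟩ := hx
      intro S' hS'
      rw [Module.Basis.repr_self, Finsupp.single_apply] at hS'
      split_ifs at hS' with h
      · rwa [← h]
      · exact absurd rfl hS'
    | zero => intro S hS; simp at hS
    | add x y _ _ hx hy =>
      intro S hS
      rw [map_add, Finsupp.add_apply] at hS
      by_contra hcon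
      apply hS
      have h1 : (vbasis n lam).repr x S = 0 := by
        by_contra h; exact hcon (hx S h)
      have h2 : (vbasis n lam).repr y S = 0 := by
        by_contra h; exact hcon (hy S h)
      rw [h1, h2, add_zero]
    | smul c x _ hx =>
      intro S hS
      rw [map_smul, Finsupp.smul_apply, smul_eq_mul] at hS
      exact hx S (right_ne_zero_of_mul hS)
  · intro h
    rw [← (vbasis n lam).linearCombination_repr x, Finsupp.linearCombination_apply]
    apply Submodule.sum_mem
    intro S hS
    apply Submodule.smul_mem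
    exact Submodule.subset_span ⟨S, h S (Finsupp.mem_support_iff.mp hS), rfl⟩

/-- Triangularity of an element of `U(gl(n))`. -/
def IsTri (G : Ugl n) : Prop :=
  ∀ T : Pat n, G • vbasis n lam T - (vbasis n lam).repr (G • vbasis n lam T) T • vbasis n lam T ∈
    LT' n lam T

lemma isTri_of {G : Ugl n} (h : ∀ T : Pat n, ∃ c : ℂ,
    G • vbasis n lam T - c • vbasis n lam T ∈ LT' n lam T) : IsTri n lam G := by
  intro T
  obtain ⟨c, hc⟩ := h T
  have h1 : (vbasis n lam).repr (G • vbasis n lam T - c • vbasis n lam T) T = 0 := by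
    by_contra hne
    exact lt_irrefl _ ((mem_LT'_iff n lam T _).mp hc T hne)
  rw [repr_ss, repr_self_same, mul_one, sub_eq_zero] at h1
  rw [h1]
  exact hc

/-- Diagonal entries from a triangular expression. -/
lemma repr_of {G : Ugl n} {T : Pat n} {c : ℂ}
    (hc : G • vbasis n lam T - c • vbasis n lam T ∈ LT' n lam T) :
    (vbasis n lam).repr (G • vbasis n lam T) T = c := by
  have h1 : (vbasis n lam).repr (G • vbasis n lam T - c • vbasis n lam T) T = 0 := by
    by_contra hne
    exact lt_irrefl _ ((mem_LT'_iff n lam T _).mp hc T hne)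
  rw [repr_ss, repr_self_same, mul_one, sub_eq_zero] at h1
  exact h1

lemma LT'_mono {S T : Pat n} (h : S ≤ T) : LT' n lam S ≤ LT' n lam T := by
  apply Submodule.span_mono
  rintro x ⟨U, hU, rfl⟩
  exact ⟨U, hU.trans_le h, rfl⟩

lemma vbasis_mem_LT' {S T : Pat n} (h : S < T) : vbasis n lam S ∈ LT' n lam T :=
  Submodule.subset_span ⟨S, h, rfl⟩

/-- Triangular elements preserve the filtration. -/
lemma IsTri.smul_mem {G : Ugl n} (hG : IsTri n lam G) (T : Pat n)
    {x : Verma n (fun i => lam i)} (hx : x ∈ LT' n lam T) : G • x ∈ LT' n lam T := by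
  unfold LT' at hx
  induction hx using Submodule.span_induction with
  | mem x hx =>
    obtain ⟨S, hS, rfl⟩ := hx
    have h1 := LT'_mono n lam hS.le (hG S)
    have h2 := (LT' n lam T).add_mem h1 ((LT' n lam T).smul_mem
      ((vbasis n lam).repr (G • vbasis n lam S) S) (vbasis_mem_LT' n lam hS))
    rwa [sub_add_cancel] at h2
  | zero => rw [smul_zero]; exact zero_mem _
  | add x y _ _ hx hy => rw [smul_add]; exact Submodule.add_mem _ hx hy
  | smul c x _ hx => rw [smul_comm]; exact Submodule.smul_mem _ _ hx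

/-- The product of triangular elements. -/
lemma IsTri.mul_aux {G H : Ugl n} (hG : IsTri n lam G) (hH : IsTri n lam H) (T : Pat n) :
    (G * H) • vbasis n lam T - ((vbasis n lam).repr (G • vbasis n lam T) T *
      (vbasis n lam).repr (H • vbasis n lam T) T) • vbasis n lam T ∈ LT' n lam T := by
  set g := (vbasis n lam).repr (G • vbasis n lam T) T
  set k := (vbasis n lam).repr (H • vbasis n lam T) T
  have h1 := hG.smul_mem n lam T (hH T)
  have h2 := (LT' n lam T).smul_mem k (hG T)
  have h3 := (LT' n lam T).add_mem h1 h2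
  convert h3 using 1
  rw [smul_sub, mul_smul, smul_sub, smul_comm G (k : ℂ), mul_comm, mul_smul]
  change _ = G • H • _ - k • G • vbasis n lam T + (k • G • vbasis n lam T - k • g • _)
  abel

/-- Generators of the Gelfand-Tsetlin subalgebra. -/
lemma gen_tri {m : ℕ} (h : m ≤ n) {z : Ugl m} (hz : z ∈ Subalgebra.center ℂ (Ugl m))
    (T : Pat n) : cornerU h z • vbasis n lam T - zl m (lrow n lam T m) z • vbasis n lam T ∈
      LT' n lam T := by
  have h1 := tri (vop_rel n lam) n le_rfl ⊥ (inv_bot _ _) lam _ (vsing n lam) T m h h z hz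
  rw [bot_sup_eq] at h1
  have h2 : ∀ x : Verma n (fun i => lam i), phi ((vop_rel n lam).mono h) z x =
      cornerU h z • x := by
    intro x
    have h3 := comp_cornerU h (Algebra.lsmul ℂ ℂ (Verma n (fun i => lam i)) :
      Ugl n →ₐ[ℂ] Module.End ℂ (Verma n (fun i => lam i))) z
    have h4 := congrArg (fun f : Module.End ℂ (Verma n (fun i => lam i)) => f x) h3
    exact h4.symm
  rw [h2, ← vbasis_apply, ← zl_lrow] at h1
  unfold LT'
  simp only [vbasis_apply] at h1 ⊢
  exact h1

/-- Elements of the Gelfand-Tsetlin subalgebra are triangular. -/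
lemma gt_tri {G : Ugl n} (hG : G ∈ GT n) : IsTri n lam G := by
  unfold GT at hG
  induction hG using Algebra.adjoin_induction with
  | mem x hx =>
    obtain ⟨m, _, h, z, hz, rfl⟩ := hx
    exact isTri_of n lam (fun T => ⟨_, gen_tri n lam h hz T⟩)
  | algebraMap c =>
    exact isTri_of n lam (fun T => ⟨c, by rw [algebraMap_smul, sub_self]; exact zero_mem _⟩)
  | add x y _ _ hx hy =>
    apply isTri_of
    intro T
    refine ⟨(vbasis n lam).repr (x • vbasis n lam T) T +
      (vbasis n lam).repr (y • vbasis n lam T) T, ?_⟩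
    have := (LT' n lam T).add_mem (hx T) (hy T)
    convert this using 1
    rw [add_smul, add_smul]
    abel
  | mul x y _ _ hx hy => exact isTri_of n lam (fun T => ⟨_, hx.mul_aux n lam hy T⟩)

/-- The character of the Gelfand-Tsetlin subalgebra attached to a pattern. -/
noncomputable def chi (T : Pat n) : GT n →ₐ[ℂ] ℂ where
  toFun G := (vbasis n lam).repr ((G : Ugl n) • vbasis n lam T) T
  map_one' := by
    change (vbasis n lam).repr ((1 : Ugl n) • vbasis n lam T) T = 1
    rw [one_smul, Module.Basis.repr_self, Finsupp.single_eq_same]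
  map_mul' G H := repr_of n lam ((gt_tri n lam G.2).mul_aux n lam (gt_tri n lam H.2) T)
  map_zero' := by
    change (vbasis n lam).repr ((0 : Ugl n) • vbasis n lam T) T = 0
    rw [zero_smul, map_zero, Finsupp.zero_apply]
  map_add' G H := by
    change (vbasis n lam).repr (((G : Ugl n) + H) • vbasis n lam T) T = _
    rw [add_smul, map_add, Finsupp.add_apply]
  commutes' c := by
    change (vbasis n lam).repr ((algebraMap ℂ (Ugl n) c) • vbasis n lam T) T = c
    rw [algebraMap_smul, map_smul, Finsupp.smul_apply, Module.Basis.repr_self,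
      Finsupp.single_eq_same, smul_eq_mul, mul_one]

lemma chi_apply (T : Pat n) (G : GT n) :
    chi n lam T G = (vbasis n lam).repr ((G : Ugl n) • vbasis n lam T) T := rfl

lemma chi_gen (T : Pat n) {m : ℕ} (h : m ≤ n) {z : Ugl m}
    (hz : z ∈ Subalgebra.center ℂ (Ugl m)) (hmem : cornerU h z ∈ GT n) :
    chi n lam T ⟨cornerU h z, hmem⟩ = zl m (lrow n lam T m) z :=
  repr_of n lam (gen_tri n lam h hz T)

omit lam in
lemma cornerU_mem {m : ℕ} (h1 : 1 ≤ m) (h : m ≤ n) {z : Ugl m}
    (hz : z ∈ Subalgebra.center ℂ (Ugl m)) : cornerU h z ∈ GT n :=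
  Algebra.subset_adjoin ⟨m, h1, h, z, hz, rfl⟩

/-- Equality of characters is tested on generators. -/
lemma chi_eq_of {T S : Pat n} (h : ∀ m, 1 ≤ m → m ≤ n → ∀ z ∈ Subalgebra.center ℂ (Ugl m),
    zl m (lrow n lam T m) z = zl m (lrow n lam S m) z) : chi n lam T = chi n lam S := by
  apply AlgHom.ext
  rintro ⟨G, hG⟩
  unfold GT at hG
  induction hG using Algebra.adjoin_induction with
  | mem x hx =>
    obtain ⟨m, h1, h', z, hz, rfl⟩ := hx
    exact (chi_gen n lam T h' hz (cornerU_mem n h1 h' hz)).trans
      ((h m h1 h' z hz).trans (chi_gen n lam S h' hz (cornerU_mem n h1 h' hz)).symm)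
  | algebraMap c =>
    have h1 := (chi n lam T).commutes c
    have h2 := (chi n lam S).commutes c
    exact h1.trans h2.symm
  | add x y hx' hy' hx hy =>
    have h1 := map_add (chi n lam T) (⟨x, hx'⟩ : GT n) ⟨y, hy'⟩
    have h2 := map_add (chi n lam S) (⟨x, hx'⟩ : GT n) ⟨y, hy'⟩
    rw [hx, hy] at h1
    exact h1.trans h2.symm
  | mul x y hx' hy' hx hy =>
    have h1 := map_mul (chi n lam T) (⟨x, hx'⟩ : GT n) ⟨y, hy'⟩
    have h2 := map_mul (chi n lam S) (⟨x, hx'⟩ : GT n) ⟨y, hy'⟩
    rw [hx, hy] at h1
    exact h1.trans h2.symm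

/-- The leading coefficient of `G x`. -/
lemma repr_smul_leading {G : Ugl n} (hG : G ∈ GT n) {T : Pat n}
    {x : Verma n (fun i => lam i)} (hx : ∀ S, (vbasis n lam).repr x S ≠ 0 → S ≤ T) :
    (∀ S, (vbasis n lam).repr (G • x) S ≠ 0 → S ≤ T) ∧
    (vbasis n lam).repr (G • x) T = chi n lam T ⟨G, hG⟩ * (vbasis n lam).repr x T := by
  have hGt := gt_tri n lam hG
  set c := (vbasis n lam).repr x T with hc
  set y := x - c • vbasis n lam T with hy
  have hyLT : y ∈ LT' n lam T := by
    rw [mem_LT'_iff]
    intro S hS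
    rw [hy, repr_ss] at hS
    by_cases hST : S = T
    · subst hST
      rw [repr_self_same, mul_one, ← hc, sub_self] at hS
      exact absurd rfl hS
    · rw [repr_self_ne n lam hST, mul_zero, sub_zero] at hS
      exact lt_of_le_of_ne (hx S hS) hST
  have hxy : x = y + c • vbasis n lam T := by rw [hy]; abel
  have hGx : G • x = G • y + c • (G • vbasis n lam T) := by
    conv_lhs => rw [hxy, smul_add, smul_comm G c]
  clear_value y
  have h1 := hGt.smul_mem n lam T hyLT
  have h2 := hGt T
  have h3 : G • x - (chi n lam T ⟨G, hG⟩ * c) • vbasis n lam T ∈ LT' n lam T := by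
    have h4 := (LT' n lam T).add_mem h1 ((LT' n lam T).smul_mem c h2)
    convert h4 using 1
    rw [hGx, smul_sub, chi_apply, mul_comm, mul_smul]
    abel
  have h4 := (mem_LT'_iff n lam T _).mp h3
  constructor
  · intro S hS
    by_cases hST : S = T
    · exact hST.le
    · apply le_of_lt
      apply h4 S
      rw [repr_ss, repr_self_ne n lam hST, mul_zero, sub_zero]
      exact hS
  · by_contra hne
    apply lt_irrefl T
    apply h4 T
    rw [repr_ss, repr_self_same, mul_one]
    exact sub_ne_zero.mpr hne

end VermaTri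

end Pool.Agent.Lib.MP_b5066f_al
end

section

/-!
# Commutativity of the Gelfand-Tsetlin subalgebra and finite-dimensional stable subspaces
-/

namespace Pool.Agent.Lib.MP_b5066f_al

lemma cornerU_comp {k m n : ℕ} (h : k ≤ m) (h' : m ≤ n) (z : Ugl k) :
    cornerU h' (cornerU h z) = cornerU (h.trans h') z := by
  have h1 : (cornerU h').comp (cornerU h) = cornerU (h.trans h') := by
    apply Ugl_hom_ext
    intro i j
    rw [AlgHom.comp_apply, cornerU_E, cornerU_E, cornerU_E]
    rfl
  exact AlgHom.congr_fun h1 z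

lemma cornerU_commute {k m n : ℕ} (h : k ≤ m) (h' : m ≤ n) (x : Ugl k) {z : Ugl m}
    (hz : z ∈ Subalgebra.center ℂ (Ugl m)) :
    cornerU (h.trans h') x * cornerU h' z = cornerU h' z * cornerU (h.trans h') x := by
  rw [← cornerU_comp h h', ← map_mul, ← map_mul, Subalgebra.mem_center_iff.mp hz]

/-- The Gelfand-Tsetlin subalgebra is commutative. -/
lemma gt_comm (n : ℕ) (x y : GT n) : x * y = y * x := by
  have h : ∀ a ∈ {x : Ugl n | ∃ (m : ℕ) (_ : 1 ≤ m) (h : m ≤ n),
      ∃ z ∈ Subalgebra.center ℂ (Ugl m), x = cornerU h z},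
      ∀ b ∈ {x : Ugl n | ∃ (m : ℕ) (_ : 1 ≤ m) (h : m ≤ n),
      ∃ z ∈ Subalgebra.center ℂ (Ugl m), x = cornerU h z}, a * b = b * a := by
    rintro _ ⟨m, _, h, z, hz, rfl⟩ _ ⟨k, _, h', w, hw, rfl⟩
    rcases le_total m k with hmk | hkm
    · exact cornerU_commute hmk h' z hw
    · exact (cornerU_commute hkm h w hz).symm
  have h2 := Algebra.isMulCommutative_adjoin ℂ h
  exact h2.is_comm.comm x y

/-- `E_ii` commutes with the smaller enveloping algebras. -/
lemma cornerU_comm_E {m n : ℕ} (h : m ≤ n) (i : Fin n) (hi : m ≤ (i : ℕ)) (x : Ugl m) :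
    cornerU h x * E i i = E i i * cornerU h x := by
  induction x using Ugl_induction with
  | hE a b =>
    rw [cornerU_E]
    have h1 := E_rel (Fin.castLE h a) (Fin.castLE h b) i i
    have h2 : Fin.castLE h b ≠ i := by
      intro hc
      have := congrArg Fin.val hc
      have hb := b.2
      simp only [Fin.val_castLE] at this
      omega
    have h3 : i ≠ Fin.castLE h a := by
      intro hc
      have := congrArg Fin.val hc
      have hb := a.2
      simp only [Fin.val_castLE] at this
      omega
    rw [if_neg h2, if_neg h3, sub_zero] at h1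
    exact sub_eq_zero.mp h1
  | hc c => rw [AlgHom.commutes]; exact Algebra.commutes c _
  | hadd x y hx hy => rw [map_add, add_mul, mul_add, hx, hy]
  | hmul x y hx hy => rw [map_mul, mul_assoc, hy, ← mul_assoc, hx, mul_assoc]

/-- The Gelfand-Tsetlin subalgebra commutes with the Cartan subalgebra. -/
lemma gt_comm_cartan (n : ℕ) {G : Ugl n} (hG : G ∈ GT n) (i : Fin n) :
    G * E i i = E i i * G := by
  unfold GT at hG
  induction hG using Algebra.adjoin_induction with
  | mem x hx =>
    obtain ⟨m, _, h, z, hz, rfl⟩ := hx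
    by_cases hi : (i : ℕ) < m
    · have h1 : (E i i : Ugl n) = cornerU h (E ⟨i, hi⟩ ⟨i, hi⟩) := by
        rw [cornerU_E]; rfl
      rw [h1, ← map_mul, ← map_mul, Subalgebra.mem_center_iff.mp hz]
    · exact cornerU_comm_E h i (not_lt.mp hi) z
  | algebraMap c => exact Algebra.commutes c _
  | add x y _ _ hx hy => rw [add_mul, mul_add, hx, hy]
  | mul x y _ _ hx hy => rw [mul_assoc, hy, ← mul_assoc, hx, mul_assoc]

section Stable

variable (n : ℕ) (lam : ℕ → ℂ)

/-- The span of the basis vectors below `T` and of the same weight. -/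
noncomputable def XT (T : Pat n) : Submodule ℂ (Verma n (fun i => lam i)) where
  carrier := {x | ∀ S, (vbasis n lam).repr x S ≠ 0 →
    S ≤ T ∧ ∀ i, i < n → wt n lam S i = wt n lam T i}
  zero_mem' := by intro S hS; simp at hS
  add_mem' := by
    intro x y hx hy S hS
    by_cases h1 : (vbasis n lam).repr x S = 0
    · apply hy S
      intro h2
      apply hS
      rw [map_add, Finsupp.add_apply, h1, h2, add_zero]
    · exact hx S h1
  smul_mem' := by
    intro c x hx S hS
    apply hx S
    intro h1
    apply hS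
    rw [map_smul, Finsupp.smul_apply, h1, smul_zero]

lemma vbasis_mem_XT (T : Pat n) : vbasis n lam T ∈ XT n lam T := by
  intro S hS
  have h : S = T := by
    by_contra hne
    exact hS (repr_self_ne n lam hne)
  subst h
  exact ⟨le_rfl, fun i _ => rfl⟩

lemma finite_XT (T : Pat n) : FiniteDimensional ℂ (XT n lam T) := by
  have hfin : {S : Pat n | ∀ i, i < n → wt n lam S i = wt n lam T i}.Finite :=
    finite_wt n lam (wt n lam T)
  have h1 : XT n lam T ≤ Submodule.span ℂ ((vbasis n lam) ''
      {S : Pat n | ∀ i, i < n → wt n lam S i = wt n lam T i}) := by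
    intro x hx
    rw [← (vbasis n lam).linearCombination_repr x, Finsupp.linearCombination_apply]
    apply Submodule.sum_mem
    intro S hS
    apply Submodule.smul_mem
    exact Submodule.subset_span ⟨S, (hx S (Finsupp.mem_support_iff.mp hS)).2, rfl⟩
  have h2 : FiniteDimensional ℂ (Submodule.span ℂ ((vbasis n lam) ''
      {S : Pat n | ∀ i, i < n → wt n lam S i = wt n lam T i})) :=
    FiniteDimensional.span_of_finite ℂ (hfin.image _)
  exact Submodule.finiteDimensional_of_le h1

lemma vop_sum {x : Verma n (fun i => lam i)} {i : ℕ} (hi : i < n) (c : ℂ)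
    (hx : ∀ S, (vbasis n lam).repr x S ≠ 0 → wt n lam S i = c) :
    vop n lam i i x = c • x := by
  conv_lhs => rw [← (vbasis n lam).linearCombination_repr x, Finsupp.linearCombination_apply,
    Finsupp.sum, map_sum]
  conv_rhs => rw [← (vbasis n lam).linearCombination_repr x, Finsupp.linearCombination_apply,
    Finsupp.sum, Finset.smul_sum]
  apply Finset.sum_congr rfl
  intro S hS
  rw [map_smul, vweight n lam S hi, hx S (Finsupp.mem_support_iff.mp hS), smul_comm]

lemma XT_stable (T : Pat n) {G : Ugl n} (hG : G ∈ GT n) {x : Verma n (fun i => lam i)}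
    (hx : x ∈ XT n lam T) : G • x ∈ XT n lam T := by
  intro S hS
  refine ⟨(repr_smul_leading n lam hG (fun S hS => (hx S hS).1)).1 S hS, fun i hi => ?_⟩
  have h1 : vop n lam i i x = wt n lam T i • x := vop_sum n lam hi _ (fun S hS => (hx S hS).2 i hi)
  have h2 : vop n lam i i (G • x) = wt n lam T i • (G • x) := by
    have h3 := fun y => vop_apply n lam ⟨i, hi⟩ ⟨i, hi⟩ y
    simp only at h3
    rw [h3, ← mul_smul, ← gt_comm_cartan n hG, mul_smul, ← h3, h1, smul_comm]
  exact repr_eq_zero_of_weight n lam hi h2 hS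

end Stable

end Pool.Agent.Lib.MP_b5066f_al
end

section

/-!
# Generalized eigenvectors for the Gelfand-Tsetlin subalgebra with prescribed leading term
-/

namespace Pool.Agent.Lib.MP_b5066f_al

section Alg

/-- Local nilpotency implies that a power of the ideal kills the vector. -/
lemma pow_kill {R : Type*} [CommRing R] [Algebra ℂ R] {V : Type*} [AddCommGroup V] [Module ℂ V]
    [Module R V] [IsScalarTower ℂ R V] (W : Submodule ℂ V) [FiniteDimensional ℂ W]
    (x : V) (hW : ∀ r : R, r • x ∈ W) (I : Ideal R) (hI : ∀ a ∈ I, ∃ k : ℕ, a ^ k • x = 0) :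
    ∃ N : ℕ, ∀ y ∈ I ^ N, y • x = 0 := by
  set J : Ideal R := LinearMap.ker (LinearMap.toSpanSingleton R V x) with hJ
  have hmemJ : ∀ r, r ∈ J ↔ r • x = 0 := by
    intro r
    rw [hJ, LinearMap.mem_ker, LinearMap.toSpanSingleton_apply]
  -- the quotient is finite-dimensional
  let g : R →ₗ[ℂ] W :=
    { toFun := fun r => ⟨r • x, hW r⟩
      map_add' := fun a b => Subtype.ext (add_smul a b x)
      map_smul' := fun c a => Subtype.ext (smul_assoc c a x) }
  have hker : LinearMap.ker g = J.restrictScalars ℂ := by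
    ext r
    rw [LinearMap.mem_ker, Submodule.restrictScalars_mem, hmemJ]
    constructor
    · intro h; exact congrArg Subtype.val h
    · intro h; exact Subtype.ext h
  have hfin : Module.Finite ℂ (R ⧸ J) := by
    have h1 : Module.Finite ℂ (R ⧸ LinearMap.ker g) := by
      have h2 : Function.Injective ((LinearMap.ker g).liftQ g le_rfl) := by
        rw [← LinearMap.ker_eq_bot]
        exact Submodule.ker_liftQ_eq_bot' _ _ rfl
      exact Module.Finite.of_injective _ h2
    rw [hker] at h1
    exact h1
  have hnoeth : IsNoetherianRing (R ⧸ J) := IsNoetherianRing.of_finite ℂ _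
  have hrad : I.map (Ideal.Quotient.mk J) ≤ (⊥ : Ideal (R ⧸ J)).radical := by
    rw [Ideal.map_le_iff_le_comap]
    intro a ha
    obtain ⟨k, hk⟩ := hI a ha
    refine ⟨k, ?_⟩
    rw [← map_pow, Submodule.mem_bot, Ideal.Quotient.eq_zero_iff_mem, hmemJ]
    exact hk
  obtain ⟨N, hN⟩ := Ideal.exists_pow_le_of_le_radical_of_fg hrad
    (IsNoetherian.noetherian (I.map (Ideal.Quotient.mk J)))
  refine ⟨N, fun y hy => ?_⟩
  rw [← hmemJ, ← Ideal.Quotient.eq_zero_iff_mem, ← Submodule.mem_bot (R ⧸ J)]
  apply hN
  rw [← Ideal.map_pow]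
  exact Ideal.mem_map_of_mem _ hy

end Alg

section Vec

variable (n : ℕ) (lam : ℕ → ℂ)

/-- The action of `G` on `XT`. -/
noncomputable def actX (T : Pat n) (G : GT n) : Module.End ℂ (XT n lam T) where
  toFun x := ⟨(G : Ugl n) • x.1, XT_stable n lam T G.2 x.2⟩
  map_add' _ _ := Subtype.ext (smul_add _ _ _)
  map_smul' _ _ := Subtype.ext (smul_comm _ _ _)

lemma actX_apply (T : Pat n) (G : GT n) (x : XT n lam T) :
    ((actX n lam T G x : XT n lam T) : Verma n (fun i => lam i)) = (G : Ugl n) • x.1 := rfl

lemma actX_commute (T : Pat n) (G H : GT n) : Commute (actX n lam T G) (actX n lam T H) := by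
  apply LinearMap.ext
  intro x
  apply Subtype.ext
  rw [Module.End.mul_apply, Module.End.mul_apply, actX_apply, actX_apply, actX_apply, actX_apply,
    smul_smul, smul_smul]
  have h := congrArg Subtype.val (gt_comm n G H)
  change (G : Ugl n) * H = H * G at h
  rw [h]

lemma coord_actX_pow (T : Pat n) (G : GT n) (c : ℂ) (k : ℕ) (x : XT n lam T) :
    (vbasis n lam).repr (((actX n lam T G - c • (1 : Module.End ℂ (XT n lam T))) ^ k) x :
      XT n lam T) T = (chi n lam T G - c) ^ k * (vbasis n lam).repr x T := by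
  induction k generalizing x with
  | zero => simp
  | succ k ih =>
    rw [pow_succ, Module.End.mul_apply, ih, pow_succ, mul_assoc]
    congr 1
    rw [LinearMap.sub_apply, LinearMap.smul_apply, Module.End.one_apply, Submodule.coe_sub,
      Submodule.coe_smul, actX_apply, repr_ss,
      (repr_smul_leading n lam G.2 (fun S hS => (x.2 S hS).1)).2, sub_mul]

/-- Generalized eigenvectors with prescribed leading term. -/
lemma exists_vec (T : Pat n) : ∃ x ∈ XT n lam T, (vbasis n lam).repr x T ≠ 0 ∧
    ∀ G : GT n, chi n lam T G = 0 → ∃ k : ℕ, ((G ^ k : GT n) : Ugl n) • x = 0 := by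
  have := finite_XT n lam T
  have htop := Module.End.iSup_iInf_maxGenEigenspace_eq_top_of_iSup_maxGenEigenspace_eq_top_of_commute
    (actX n lam T) (fun G H _ => actX_commute n lam T G H)
    (fun G => Module.End.iSup_maxGenEigenspace_eq_top _)
  -- the coordinate functional
  let φ : XT n lam T →ₗ[ℂ] ℂ := ((vbasis n lam).coord T) ∘ₗ (XT n lam T).subtype
  have hφ : ∀ x : XT n lam T, φ x = (vbasis n lam).repr x T := fun x => rfl
  have hex : ∃ χ : GT n → ℂ, ∃ y ∈ ⨅ G, (actX n lam T G).maxGenEigenspace (χ G), φ y ≠ 0 := by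
    by_contra hcon
    push Not at hcon
    have h1 : (⊤ : Submodule ℂ (XT n lam T)) ≤ LinearMap.ker φ := by
      rw [← htop]
      apply iSup_le
      intro χ y hy
      exact hcon χ y hy
    have h2 := h1 (show (⟨vbasis n lam T, vbasis_mem_XT n lam T⟩ : XT n lam T) ∈ ⊤ from trivial)
    rw [LinearMap.mem_ker, hφ, repr_self_same] at h2
    exact one_ne_zero h2
  obtain ⟨χ, y, hy, hφy⟩ := hex
  rw [Module.End.mem_iInf_maxGenEigenspace_iff] at hy
  refine ⟨y, y.2, hφy, ?_⟩
  have hχ : ∀ G, chi n lam T G = χ G := by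
    intro G
    obtain ⟨k, hk⟩ := hy G
    have h1 := coord_actX_pow n lam T G (χ G) k y
    have h2 : (((actX n lam T G - χ G • (1 : Module.End ℂ (XT n lam T))) ^ k) y) = 0 := hk
    rw [h2, Submodule.coe_zero, map_zero, Finsupp.zero_apply] at h1
    have h3 : (chi n lam T G - χ G) ^ k = 0 := by
      rcases mul_eq_zero.mp h1.symm with h | h
      · exact h
      · exact absurd h hφy
    by_cases hk0 : k = 0
    · rw [hk0, pow_zero] at h3
      exact absurd h3 one_ne_zero
    · exact sub_eq_zero.mp (pow_eq_zero_iff hk0 |>.mp h3)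
  intro G hG
  obtain ⟨k, hk⟩ := hy G
  refine ⟨k, ?_⟩
  have hk' : ((actX n lam T G) ^ k) y = 0 := by
    have e : actX n lam T G - χ G • (1 : Module.End ℂ (XT n lam T)) = actX n lam T G := by
      rw [← hχ G, hG]
      apply LinearMap.ext
      intro x
      rw [LinearMap.sub_apply, LinearMap.smul_apply, zero_smul, sub_zero]
    have hk0 : ((actX n lam T G - χ G • (1 : Module.End ℂ (XT n lam T))) ^ k) y = 0 := hk
    rwa [e] at hk0
  have h1 : ∀ (k : ℕ) (x : XT n lam T), (((actX n lam T G) ^ k) x : XT n lam T).1 =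
      ((G ^ k : GT n) : Ugl n) • x.1 := by
    intro k
    induction k with
    | zero => intro x; simp
    | succ k ih =>
      intro x
      rw [pow_succ, Module.End.mul_apply, ih, actX_apply, smul_smul, pow_succ]
      rfl
  rw [← h1, hk']
  rfl

/-- Every pattern is the leading pattern of a generalized eigenvector. -/
lemma exists_genSpace (T : Pat n) : ∃ x : Verma n (fun i => lam i),
    x ∈ genSpace (GT n) (Verma n (fun i => lam i)) (RingHom.ker (chi n lam T)) ∧
    x ∈ XT n lam T ∧ (vbasis n lam).repr x T ≠ 0 := by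
  obtain ⟨x, hx, hx', hk⟩ := exists_vec n lam T
  refine ⟨x, ?_, hx, hx'⟩
  have := finite_XT n lam T
  let iC : CommRing (GT n) := { (inferInstance : Ring (GT n)) with mul_comm := gt_comm n }
  obtain ⟨N, hN⟩ := @pow_kill (GT n) iC inferInstance (Verma n (fun i => lam i)) _ _ inferInstance
    inferInstance (XT n lam T) _ x (fun r => XT_stable n lam T r.2 hx) (RingHom.ker (chi n lam T))
    (fun a ha => hk a ha)
  exact ⟨N, hN⟩

end Vec

end Pool.Agent.Lib.MP_b5066f_al
end

section

/-!
# The Gelfand-Tsetlin degree: upper and lower bounds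
-/

namespace Pool.Agent.Lib.MP_b5066f_al

section Upper

variable (n : ℕ) (lam : ℕ → ℂ)

lemma exists_leading {x : Verma n (fun i => lam i)} (hx : x ≠ 0) :
    ∃ T : Pat n, (vbasis n lam).repr x T ≠ 0 ∧ ∀ S, (vbasis n lam).repr x S ≠ 0 → S ≤ T := by
  have h1 : (vbasis n lam).repr x ≠ 0 := by
    intro h
    exact hx ((vbasis n lam).repr.map_eq_zero_iff.mp h)
  have h2 : ((vbasis n lam).repr x).support.Nonempty := Finsupp.support_nonempty_iff.mpr h1
  refine ⟨((vbasis n lam).repr x).support.max' h2, ?_, fun S hS => ?_⟩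
  · exact Finsupp.mem_support_iff.mp (Finset.max'_mem _ h2)
  · exact Finset.le_max' _ _ (Finsupp.mem_support_iff.mpr hS)

lemma repr_pow_smul (G : GT n) (T : Pat n) (k : ℕ) {x : Verma n (fun i => lam i)}
    (hx : ∀ S, (vbasis n lam).repr x S ≠ 0 → S ≤ T) :
    (vbasis n lam).repr (((G ^ k : GT n) : Ugl n) • x) T =
      (chi n lam T G) ^ k * (vbasis n lam).repr x T := by
  rw [(repr_smul_leading n lam (G ^ k).2 hx).2]
  congr 1
  exact map_pow (chi n lam T) G k

lemma ker_chi_maximal (T : Pat n) : (RingHom.ker (chi n lam T)).IsMaximal :=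
  RingHom.ker_isMaximal_of_surjective (chi n lam T) (fun c => ⟨algebraMap ℂ _ c, by
    exact (chi n lam T).commutes c⟩)

/-- The leading pattern determines the maximal ideal. -/
lemma eq_ker_of_leading {𝔪 : Ideal (GT n)} (hm : 𝔪.IsMaximal) {x : Verma n (fun i => lam i)}
    (hx : x ∈ genSpace (GT n) (Verma n (fun i => lam i)) 𝔪) {T : Pat n}
    (hT : (vbasis n lam).repr x T ≠ 0) (hT' : ∀ S, (vbasis n lam).repr x S ≠ 0 → S ≤ T) :
    RingHom.ker (chi n lam T) = 𝔪 := by
  obtain ⟨k, hk⟩ := hx
  symm
  apply hm.eq_of_le (ker_chi_maximal n lam T).ne_top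
  intro G hG
  have h1 := hk (G ^ k) (Ideal.pow_mem_pow hG k)
  have h2 := repr_pow_smul n lam G T k hT'
  rw [h1, map_zero, Finsupp.zero_apply] at h2
  rcases mul_eq_zero.mp h2.symm with h | h
  · rw [RingHom.mem_ker]
    exact eq_zero_of_pow_eq_zero h
  · exact absurd h hT

/-- Patterns with the same kernel have the same rows up to permutation. -/
lemma sameRows_of_ker {T T₀ : Pat n} (h : RingHom.ker (chi n lam T) = RingHom.ker (chi n lam T₀)) :
    T ∈ sameRows n lam T₀ := by
  have h1 : ∀ G, chi n lam T G = chi n lam T₀ G := by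
    intro G
    have h2 : G - algebraMap ℂ (GT n) (chi n lam T₀ G) ∈ RingHom.ker (chi n lam T₀) := by
      rw [RingHom.mem_ker, map_sub, sub_eq_zero]
      exact ((chi n lam T₀).commutes _).symm
    rw [← h, RingHom.mem_ker, map_sub, sub_eq_zero] at h2
    exact h2.trans ((chi n lam T).commutes _)
  intro k hk
  rcases Nat.eq_zero_or_pos k with rfl | hk0
  · congr 1
    funext i
    exact i.elim0
  · apply multiset_eq_of_zl
    intro z hz
    have h2 := h1 ⟨cornerU hk.le z, cornerU_mem n hk0 hk.le hz⟩
    rwa [chi_gen n lam T hk.le hz, chi_gen n lam T₀ hk.le hz] at h2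

/-- The upper bound. -/
theorem rank_le {𝔪 : Ideal (GT n)} (hm : 𝔪.IsMaximal) :
    Module.rank ℂ (genSpace (GT n) (Verma n (fun i => lam i)) 𝔪) ≤
      ((∏ k ∈ Finset.range n, k.factorial : ℕ) : Cardinal) := by
  classical
  by_cases hbot : genSpace (GT n) (Verma n (fun i => lam i)) 𝔪 = ⊥
  · rw [hbot, rank_bot]
    exact zero_le
  obtain ⟨x₀, hx₀, hne⟩ := (Submodule.ne_bot_iff _).mp hbot
  obtain ⟨T₀, hT₀, hT₀'⟩ := exists_leading n lam hne
  have hk₀ := eq_ker_of_leading n lam hm hx₀ hT₀ hT₀'
  let J : Set (Pat n) := {T | RingHom.ker (chi n lam T) = 𝔪}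
  have hJ : J ⊆ sameRows n lam T₀ := by
    intro T hT
    exact sameRows_of_ker n lam (hT.trans hk₀.symm)
  obtain ⟨f, hf⟩ := exists_injection n lam T₀
  have hf' : Function.Injective (fun T : J => f ⟨T.1, hJ T.2⟩) := by
    intro S T hST
    have h1 := hf hST
    exact Subtype.ext (congrArg (fun t : sameRows n lam T₀ => t.1) h1)
  have hfin : Finite J := Finite.of_injective _ hf'
  have : Fintype J := Fintype.ofFinite J
  have hcard : Fintype.card J ≤ ∏ k ∈ Finset.range n, k.factorial := by
    rw [← card_perms n]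
    exact Fintype.card_le_of_injective _ hf'
  let L : genSpace (GT n) (Verma n (fun i => lam i)) 𝔪 →ₗ[ℂ] (J → ℂ) :=
    LinearMap.pi (fun T => ((vbasis n lam).coord T.1) ∘ₗ
      (genSpace (GT n) (Verma n (fun i => lam i)) 𝔪).subtype)
  have hL : ∀ x T, L x T = (vbasis n lam).repr x.1 T.1 := fun x T => rfl
  have hinj : Function.Injective L := by
    rw [injective_iff_map_eq_zero]
    intro x hx
    by_contra hxne
    have hxne' : x.1 ≠ 0 := fun h => hxne (Subtype.ext h)
    obtain ⟨T, hT, hT'⟩ := exists_leading n lam hxne'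
    have h1 := eq_ker_of_leading n lam hm x.2 hT hT'
    apply hT
    rw [← hL x ⟨T, h1⟩, hx]
    rfl
  refine (LinearMap.rank_le_of_injective L hinj).trans ?_
  rw [rank_fun']
  exact_mod_cast hcard

end Upper

section Lower

variable (n : ℕ) (lam : ℕ → ℂ)

/-- The lower bound, when the shifted top row is constant. -/
theorem le_rank (hn : 1 ≤ n) (c : ℂ) (hc : ∀ j, j < n → lam j + ((n : ℂ) - 1 - j) = c) :
    ∃ 𝔪 : Ideal (GT n), 𝔪.IsMaximal ∧ ((∏ k ∈ Finset.range n, k.factorial : ℕ) : Cardinal) ≤
      Module.rank ℂ (genSpace (GT n) (Verma n (fun i => lam i)) 𝔪) := by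
  classical
  obtain ⟨r, F, hF, hr⟩ := exists_family n hn lam c hc
  -- all characters agree
  have hchi : ∀ σ, chi n lam (F σ) = chi n lam (F 1) := by
    intro σ
    apply chi_eq_of
    intro m hm1 hmn z hz
    rcases Nat.lt_or_ge m n with hlt | hge
    · have h1 : lrow n lam (F σ) m = (lrow n lam (F 1) m) ∘ (σ ⟨m, hlt⟩) := by
        funext j
        have h2 := hr σ ⟨m, hlt⟩ j
        have h3 := hr 1 ⟨m, hlt⟩ (σ ⟨m, hlt⟩ j)
        simp only [Pi.one_apply, Equiv.Perm.coe_one, id_eq] at h2 h3
        exact h2.trans h3.symm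
      rw [h1]
      apply zl_perm hz
      intro i j
      have h3 := hr 1 ⟨m, hlt⟩ i
      have h4 := hr 1 ⟨m, hlt⟩ j
      simp only [Pi.one_apply, Equiv.Perm.coe_one, id_eq] at h3 h4
      refine ⟨(r m j : ℤ) - r m i, ?_⟩
      rw [h3, h4]
      push_cast
      ring
    · obtain rfl : m = n := le_antisymm hmn hge
      have h1 : lrow m lam (F σ) m = lrow m lam (F 1) m := by
        funext j
        simp only [lrow, rowWt_top]
      rw [h1]
  refine ⟨RingHom.ker (chi n lam (F 1)), ker_chi_maximal n lam _, ?_⟩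
  have hex : ∀ σ, ∃ x : genSpace (GT n) (Verma n (fun i => lam i))
      (RingHom.ker (chi n lam (F 1))), (∀ S, (vbasis n lam).repr x.1 S ≠ 0 → S ≤ F σ) ∧
        (vbasis n lam).repr x.1 (F σ) ≠ 0 := by
    intro σ
    obtain ⟨x, hx, hx', hx''⟩ := exists_genSpace n lam (F σ)
    rw [hchi σ] at hx
    exact ⟨⟨x, hx⟩, fun S hS => (hx' S hS).1, hx''⟩
  choose x hx hx' using hex
  have hli : LinearIndependent ℂ x := by
    rw [linearIndependent_iff']
    intro s g hg σ hσ
    by_contra hne
    -- choose the largest index with nonzero coefficient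
    have hne' : (s.filter (fun τ => g τ ≠ 0)).Nonempty := ⟨σ, by
      rw [Finset.mem_filter]; exact ⟨hσ, hne⟩⟩
    obtain ⟨τ, hτ, hmax⟩ := Finset.exists_max_image (s.filter (fun τ => g τ ≠ 0)) F hne'
    rw [Finset.mem_filter] at hτ
    have h1 := congrArg (fun y : genSpace (GT n) (Verma n (fun i => lam i))
      (RingHom.ker (chi n lam (F 1))) => (vbasis n lam).repr y.1 (F τ)) hg
    have h2 : (vbasis n lam).repr (∑ i ∈ s, g i • x i : genSpace (GT n)
        (Verma n (fun i => lam i)) (RingHom.ker (chi n lam (F 1)))).1 (F τ) =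
        ∑ i ∈ s, g i * (vbasis n lam).repr (x i).1 (F τ) := by
      rw [Submodule.coe_sum, map_sum, Finsupp.finsetSum_apply]
      apply Finset.sum_congr rfl
      intro i _
      rw [Submodule.coe_smul, map_smul, Finsupp.smul_apply, smul_eq_mul]
    simp only [h2] at h1
    rw [Finset.sum_eq_single τ] at h1
    · rw [Submodule.coe_zero, map_zero, Finsupp.zero_apply] at h1
      rcases mul_eq_zero.mp h1 with h | h
      · exact hτ.2 h
      · exact hx' τ h
    · intro υ hυ hυτ
      by_cases hgυ : g υ = 0
      · rw [hgυ, zero_mul]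
      · have h3 := hmax υ (by rw [Finset.mem_filter]; exact ⟨hυ, hgυ⟩)
        have h4 : F υ < F τ := lt_of_le_of_ne h3 (fun h => hυτ (hF h))
        have h5 : (vbasis n lam).repr (x υ).1 (F τ) = 0 := by
          by_contra h
          exact absurd (hx υ (F τ) h) (not_le.mpr h4)
        rw [h5, mul_zero]
    · intro h
      exact absurd hτ.1 h
  have h1 := hli.cardinal_le_rank
  rw [Cardinal.mk_fintype, card_perms n] at h1
  exact h1

end Lower

/-- The degree of a Verma module whose shifted highest weight is constant. -/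
theorem degree_eq (n : ℕ) (hn : 1 ≤ n) (lam : ℕ → ℂ) (c : ℂ)
    (hc : ∀ j, j < n → lam j + ((n : ℂ) - 1 - j) = c) :
    degree (GT n) (Verma n (fun i => lam i)) =
      ((∏ k ∈ Finset.range n, k.factorial : ℕ) : ℕ∞) := by
  unfold degree
  apply le_antisymm
  · apply iSup_le
    intro 𝔪
    apply iSup_le
    intro hm
    rw [Cardinal.toENat_le_natCast]
    exact rank_le n lam hm
  · obtain ⟨𝔪, hm, h⟩ := le_rank n lam hn c hc
    refine le_trans ?_ (le_iSup₂ (α := ℕ∞) 𝔪 hm)
    rw [Cardinal.natCast_le_toENat]
    exact h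


end Pool.Agent.Lib.MP_b5066f_al
end
end
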