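import Pool.Agent.Lib.MP_b5066f_al.Defs

section

/-!
# Families of operators satisfying the relations of `gl(n)`
-/

namespace Pool.Agent.Lib.MP_b5066f_al

attribute [local instance 100] LieRing.ofAssociativeRing

/-- The commutation relations of `gl(n)`. -/
def GLRel {A : Type*} [Ring A] (n : ℕ) (e : ℕ → ℕ → A) : Prop :=
  ∀ i j k l, i < n → j < n → k < n → l < n →
    e i j * e k l - e k l * e i j = (if j = k then e i l else 0) - (if l = i then e k j else 0)

lemma GLRel.mono {A : Type*} [Ring A] {n m : ℕ} {e : ℕ → ℕ → A} (h : GLRel n e) (hm : m ≤ n) :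
    GLRel m e :=
  fun i j k l hi hj hk hl => h i j k l (hi.trans_le hm) (hj.trans_le hm) (hk.trans_le hm)
    (hl.trans_le hm)

section Hom

variable {A : Type*} [Ring A] [Algebra ℂ A]

/-- The linear map `gl(m) → A` given by a family. -/
noncomputable def linOf (m : ℕ) (e : ℕ → ℕ → A) : gl m →ₗ[ℂ] A :=
  ∑ i : Fin m, ∑ j : Fin m,
    (LinearMap.toSpanSingleton ℂ A (e i j)) ∘ₗ (Matrix.entryLinearMap ℂ ℂ i j)

lemma linOf_single (m : ℕ) (e : ℕ → ℕ → A) (i j : Fin m) (x : ℂ) :
    linOf m e (Matrix.single i j x) = x • e i j := by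
  classical
  simp only [linOf, LinearMap.sum_apply, LinearMap.comp_apply, Matrix.entryLinearMap_apply,
    LinearMap.toSpanSingleton_apply]
  rw [Finset.sum_eq_single i, Finset.sum_eq_single j]
  · simp
  · intro b _ hb; simp [Ne.symm hb]
  · simp
  · intro b _ hb
    apply Finset.sum_eq_zero
    intro c _
    simp [Ne.symm hb]
  · simp

/-- The Lie algebra homomorphism given by a family satisfying the relations. -/
noncomputable def lieOf {m : ℕ} {e : ℕ → ℕ → A} (h : GLRel m e) : gl m →ₗ⁅ℂ⁆ A :=
  { linOf m e with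
    map_lie' := by
      intro X Y
      change linOf m e (X * Y - Y * X) = linOf m e X * linOf m e Y - linOf m e Y * linOf m e X
      induction X using Matrix.induction_on' with
      | h_zero => simp
      | h_add p q hp hq =>
        rw [add_mul, mul_add, map_add, add_mul, mul_add]
        have : p * Y + q * Y - (Y * p + Y * q) = (p * Y - Y * p) + (q * Y - Y * q) := by abel
        rw [this, map_add, hp, hq]
        abel
      | h_std_basis i j x =>
        induction Y using Matrix.induction_on' with
        | h_zero => simp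
        | h_add p q hp hq =>
          rw [add_mul, mul_add, map_add, add_mul, mul_add]
          have : Matrix.single i j x * p + Matrix.single i j x * q -
              (p * Matrix.single i j x + q * Matrix.single i j x) =
              (Matrix.single i j x * p - p * Matrix.single i j x) +
              (Matrix.single i j x * q - q * Matrix.single i j x) := by abel
          rw [this, map_add, hp, hq]
          abel
        | h_std_basis k l y =>
          have hrel := h i j k l i.2 j.2 k.2 l.2
          rw [linOf_single, linOf_single, map_sub]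
          have h1 : Matrix.single i j x * Matrix.single k l y =
              if j = k then Matrix.single i l (x * y) else 0 := by
            split_ifs with hjk
            · subst hjk; rw [Matrix.single_mul_single_same]
            · rw [Matrix.single_mul_single_of_ne _ _ _ _ hjk]
          have h2 : Matrix.single k l y * Matrix.single i j x =
              if l = i then Matrix.single k j (y * x) else 0 := by
            split_ifs with hli
            · subst hli; rw [Matrix.single_mul_single_same]
            · rw [Matrix.single_mul_single_of_ne _ _ _ _ hli]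
          have h3 : x • e i j * y • e k l - y • e k l * x • e i j =
              (x * y) • (e i j * e k l - e k l * e i j) := by
            rw [smul_mul_smul_comm, smul_mul_smul_comm, smul_sub, mul_comm y x]
          rw [h3, hrel, h1, h2]
          have e1 : ((j : ℕ) = (k : ℕ)) ↔ j = k := Fin.ext_iff.symm
          have e2 : ((l : ℕ) = (i : ℕ)) ↔ l = i := Fin.ext_iff.symm
          simp only [e1, e2]
          split_ifs <;> simp [linOf_single, mul_comm, smul_sub] }

lemma lieOf_single {m : ℕ} {e : ℕ → ℕ → A} (h : GLRel m e) (i j : Fin m) :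
    lieOf h (Matrix.single i j 1) = e i j := by
  change linOf m e _ = _
  rw [linOf_single, one_smul]

/-- The algebra homomorphism `U(gl(m)) → A` given by a family satisfying the relations. -/
noncomputable def phi {m : ℕ} {e : ℕ → ℕ → A} (h : GLRel m e) : Ugl m →ₐ[ℂ] A :=
  UniversalEnvelopingAlgebra.lift ℂ (lieOf h)

lemma phi_E {m : ℕ} {e : ℕ → ℕ → A} (h : GLRel m e) (i j : Fin m) : phi h (E i j) = e i j := by
  unfold phi E
  rw [UniversalEnvelopingAlgebra.lift_ι_apply, lieOf_single]

end Hom

/-- `U(L)` is generated by `L`. -/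
lemma adjoin_ι (L : Type*) [LieRing L] [LieAlgebra ℂ L] :
    Algebra.adjoin ℂ (Set.range (UniversalEnvelopingAlgebra.ι ℂ : L → _)) = ⊤ := by
  set S := Algebra.adjoin ℂ (Set.range (UniversalEnvelopingAlgebra.ι ℂ : L → _)) with hS
  let f : L →ₗ⁅ℂ⁆ S :=
    { toFun := fun x => ⟨UniversalEnvelopingAlgebra.ι ℂ x, Algebra.subset_adjoin ⟨x, rfl⟩⟩
      map_add' := fun x y => Subtype.ext (map_add _ x y)
      map_smul' := fun c x => Subtype.ext (map_smul _ c x)
      map_lie' := fun {x y} => Subtype.ext (LieHom.map_lie _ x y) }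
  have h : S.val.comp (UniversalEnvelopingAlgebra.lift ℂ f) = AlgHom.id ℂ _ := by
    apply UniversalEnvelopingAlgebra.hom_ext
    ext x
    change (UniversalEnvelopingAlgebra.lift ℂ f (UniversalEnvelopingAlgebra.ι ℂ x) : _) =
      UniversalEnvelopingAlgebra.ι ℂ x
    rw [UniversalEnvelopingAlgebra.lift_ι_apply]
    rfl
  rw [eq_top_iff]
  intro x _
  have h1 := AlgHom.congr_fun h x
  change ((UniversalEnvelopingAlgebra.lift ℂ f x : S) : UniversalEnvelopingAlgebra ℂ L) = x at h1
  rw [← h1]
  exact (UniversalEnvelopingAlgebra.lift ℂ f x).2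

/-- `U(gl(m))` is generated by the `E_ij`. -/
lemma adjoin_E (m : ℕ) : Algebra.adjoin ℂ {x : Ugl m | ∃ i j, x = E i j} = ⊤ := by
  rw [eq_top_iff, ← adjoin_ι]
  apply Algebra.adjoin_le
  rintro _ ⟨X, rfl⟩
  induction X using Matrix.induction_on' with
  | h_zero => rw [map_zero]; exact zero_mem _
  | h_add p q hp hq => rw [map_add]; exact add_mem hp hq
  | h_std_basis i j x =>
    have h1 : Matrix.single i j x = x • Matrix.single i j (1 : ℂ) := by
      rw [Matrix.smul_single, smul_eq_mul, mul_one]
    have h2 : E i j ∈ Algebra.adjoin ℂ {x : Ugl m | ∃ i j, x = E i j} :=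
      Algebra.subset_adjoin ⟨i, j, rfl⟩
    rw [h1, map_smul]
    exact Subalgebra.smul_mem _ h2 x

/-- Induction principle for `U(gl(m))`. -/
lemma Ugl_induction {m : ℕ} (p : Ugl m → Prop) (hE : ∀ i j, p (E i j))
    (hc : ∀ c : ℂ, p (algebraMap ℂ _ c)) (hadd : ∀ x y, p x → p y → p (x + y))
    (hmul : ∀ x y, p x → p y → p (x * y)) (x : Ugl m) : p x := by
  have hx : x ∈ Algebra.adjoin ℂ {x : Ugl m | ∃ i j, x = E i j} := by
    rw [adjoin_E]; trivial
  induction hx using Algebra.adjoin_induction with
  | mem x hx => obtain ⟨i, j, rfl⟩ := hx; exact hE i j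
  | algebraMap c => exact hc c
  | add x y _ _ hx hy => exact hadd x y hx hy
  | mul x y _ _ hx hy => exact hmul x y hx hy

lemma Ugl_hom_ext {m : ℕ} {A : Type*} [Ring A] [Algebra ℂ A] {f g : Ugl m →ₐ[ℂ] A}
    (h : ∀ i j, f (E i j) = g (E i j)) : f = g := by
  apply AlgHom.ext
  intro x
  induction x using Ugl_induction with
  | hE i j => exact h i j
  | hc c => rw [AlgHom.commutes, AlgHom.commutes]
  | hadd x y hx hy => rw [map_add, map_add, hx, hy]
  | hmul x y hx hy => rw [map_mul, map_mul, hx, hy]

/-- The relations in `U(gl(n))`. -/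
lemma E_rel {n : ℕ} (i j k l : Fin n) : (E i j : Ugl n) * E k l - E k l * E i j =
    (if j = k then E i l else 0) - (if l = i then E k j else 0) := by
  have h1 : (E i j : Ugl n) * E k l - E k l * E i j =
      UniversalEnvelopingAlgebra.ι ℂ ⁅Matrix.single i j (1 : ℂ), Matrix.single k l 1⁆ := by
    rw [LieHom.map_lie]; rfl
  rw [h1]
  change UniversalEnvelopingAlgebra.ι ℂ
    (Matrix.single i j (1 : ℂ) * Matrix.single k l 1 - Matrix.single k l 1 * Matrix.single i j 1)
    = _
  have h2 : Matrix.single i j (1 : ℂ) * Matrix.single k l 1 =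
      if j = k then Matrix.single i l 1 else 0 := by
    split_ifs with hjk
    · subst hjk; rw [Matrix.single_mul_single_same, mul_one]
    · rw [Matrix.single_mul_single_of_ne _ _ _ _ hjk]
  have h3 : Matrix.single k l (1 : ℂ) * Matrix.single i j 1 =
      if l = i then Matrix.single k j 1 else 0 := by
    split_ifs with hli
    · subst hli; rw [Matrix.single_mul_single_same, mul_one]
    · rw [Matrix.single_mul_single_of_ne _ _ _ _ hli]
  rw [h2, h3, map_sub]
  unfold E
  split_ifs <;> simp

section Of

variable {A : Type*} [Ring A] [Algebra ℂ A]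

open Classical in
/-- The family of operators given by an algebra homomorphism. -/
noncomputable def famOf {n : ℕ} (Ψ : Ugl n →ₐ[ℂ] A) (i j : ℕ) : A :=
  if h : i < n ∧ j < n then Ψ (E ⟨i, h.1⟩ ⟨j, h.2⟩) else 0

lemma famOf_eq {n : ℕ} (Ψ : Ugl n →ₐ[ℂ] A) (i j : Fin n) : famOf Ψ i j = Ψ (E i j) := by
  unfold famOf
  rw [dif_pos ⟨i.2, j.2⟩]

lemma famOf_rel {n : ℕ} (Ψ : Ugl n →ₐ[ℂ] A) : GLRel n (famOf Ψ) := by
  intro i j k l hi hj hk hl
  have h1 := famOf_eq Ψ ⟨i, hi⟩ ⟨j, hj⟩
  have h2 := famOf_eq Ψ ⟨k, hk⟩ ⟨l, hl⟩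
  have h3 := famOf_eq Ψ ⟨i, hi⟩ ⟨l, hl⟩
  have h4 := famOf_eq Ψ ⟨k, hk⟩ ⟨j, hj⟩
  simp only at h1 h2 h3 h4
  rw [h1, h2, h3, h4, ← map_mul, ← map_mul, ← map_sub, E_rel, map_sub]
  simp only [Fin.mk.injEq]
  split_ifs <;> simp

lemma corner_single {m n : ℕ} (h : m ≤ n) (i j : Fin m) :
    corner h (Matrix.single i j 1) = Matrix.single (Fin.castLE h i) (Fin.castLE h j) 1 := by
  change incMatrix h * Matrix.single i j (1 : ℂ) * (incMatrix h).transpose = _
  ext a b
  simp only [Matrix.mul_apply, Matrix.single_apply, incMatrix, Matrix.of_apply,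
    Matrix.transpose_apply]
  rw [Finset.sum_eq_single j]
  · rw [Finset.sum_eq_single i]
    · simp only [and_self, if_true, mul_one]
      by_cases h1 : a = Fin.castLE h i <;> by_cases h2 : b = Fin.castLE h j <;>
        simp [h1, h2, eq_comm]
    · intro c _ hc; simp [Ne.symm hc]
    · simp
  · intro c _ hc
    rw [Finset.sum_eq_zero, zero_mul]
    intro d _
    simp [Ne.symm hc]
  · simp

lemma cornerU_E {m n : ℕ} (h : m ≤ n) (i j : Fin m) :
    cornerU h (E i j) = E (Fin.castLE h i) (Fin.castLE h j) := by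
  unfold cornerU E
  rw [UniversalEnvelopingAlgebra.lift_ι_apply]
  change UniversalEnvelopingAlgebra.ι ℂ (corner h (Matrix.single i j 1)) = _
  rw [corner_single]

lemma comp_cornerU {m n : ℕ} (h : m ≤ n) (Ψ : Ugl n →ₐ[ℂ] A) (z : Ugl m) :
    Ψ (cornerU h z) = phi ((famOf_rel Ψ).mono h) z := by
  have h1 : Ψ.comp (cornerU h) = phi ((famOf_rel Ψ).mono h) := by
    apply Ugl_hom_ext
    intro i j
    rw [phi_E, AlgHom.comp_apply, cornerU_E, ← famOf_eq]
    rfl
  exact AlgHom.congr_fun h1 z

/-- Central elements commute with the family. -/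
lemma phi_central {m : ℕ} {e : ℕ → ℕ → A} (h : GLRel m e) {z : Ugl m}
    (hz : z ∈ Subalgebra.center ℂ (Ugl m)) {i j : ℕ} (hi : i < m) (hj : j < m) :
    phi h z * e i j = e i j * phi h z := by
  have h1 := phi_E h ⟨i, hi⟩ ⟨j, hj⟩
  simp only at h1
  rw [← h1, ← map_mul, ← map_mul, (Subalgebra.mem_center_iff.mp hz (E ⟨i, hi⟩ ⟨j, hj⟩))]

end Of

end Pool.Agent.Lib.MP_b5066f_al
end

section

/-!
# Monomials in the last row
-/

namespace Pool.Agent.Lib.MP_b5066f_al

open MvPolynomial

section CommEval

variable {σ A : Type*} [Ring A] [Algebra ℂ A]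

/-- Evaluation of polynomials at commuting elements. -/
noncomputable def commEval (f : σ → A) (h : ∀ i j, f i * f j = f j * f i) :
    MvPolynomial σ ℂ →ₐ[ℂ] A :=
  letI : CommRing (Algebra.adjoin ℂ (Set.range f)) :=
    Algebra.adjoinCommRingOfComm ℂ (by rintro _ ⟨i, rfl⟩ _ ⟨j, rfl⟩; exact h i j)
  (Algebra.adjoin ℂ (Set.range f)).val.comp
    (MvPolynomial.aeval (fun i =>
      (⟨f i, Algebra.subset_adjoin ⟨i, rfl⟩⟩ : Algebra.adjoin ℂ (Set.range f))))

lemma commEval_X (f : σ → A) (h : ∀ i j, f i * f j = f j * f i) (i : σ) :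
    commEval f h (X i) = f i := by
  unfold commEval
  simp only [AlgHom.comp_apply, MvPolynomial.aeval_X]
  rfl

lemma commEval_comm (f : σ → A) (h : ∀ i j, f i * f j = f j * f i) (p q : MvPolynomial σ ℂ) :
    commEval f h p * commEval f h q = commEval f h q * commEval f h p := by
  rw [← map_mul, ← map_mul, mul_comm]

/-- Commutation with a derivation `-X_j ∂_i`. -/
lemma commEval_deriv [DecidableEq σ] (f : σ → A) (h : ∀ i j, f i * f j = f j * f i) {g : A}
    {i j : σ} (hg : ∀ k, g * f k = f k * g - if k = i then f j else 0) (p : MvPolynomial σ ℂ) :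
    g * commEval f h p = commEval f h p * g - commEval f h (X j * pderiv i p) := by
  induction p using MvPolynomial.induction_on with
  | C a =>
    rw [pderiv_C, mul_zero, map_zero, sub_zero]
    have : commEval f h (C a) = algebraMap ℂ A a := (commEval f h).commutes a
    rw [this, Algebra.commutes]
  | add p q hp hq =>
    rw [map_add, mul_add, hp, hq, map_add, mul_add, map_add, add_mul]
    abel
  | mul_X p k hp =>
    rw [map_mul, ← mul_assoc, hp, sub_mul, mul_assoc (commEval f h p) g, commEval_X, hg,
      pderiv_mul, pderiv_X, mul_add, map_add]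
    have e1 : commEval f h (X j * (pderiv i p * X k)) = commEval f h (X j * pderiv i p) * f k := by
      rw [← mul_assoc, map_mul, commEval_X]
    have e2 : commEval f h (X j * (p * Pi.single (M := fun _ => MvPolynomial σ ℂ) i 1 k)) =
        commEval f h p * (if k = i then f j else 0) := by
      by_cases hk : k = i
      · subst hk
        rw [if_pos rfl, Pi.single_eq_same, mul_one, map_mul, commEval_X, ← commEval_X f h j,
          commEval_comm]
      · rw [if_neg hk, Pi.single_eq_of_ne hk]
        simp
    rw [e1, e2, mul_sub, mul_assoc]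
    abel

end CommEval

/-- Induction on exponents. -/
lemma expo_induction {σ : Type*} {P : (σ →₀ ℕ) → Prop} (h0 : P 0)
    (hs : ∀ a k, P a → P (a + Finsupp.single k 1)) (a : σ →₀ ℕ) : P a := by
  classical
  induction a using Finsupp.induction with
  | zero => exact h0
  | single_add k b a _ _ ih =>
    have : ∀ b : ℕ, P (Finsupp.single k b + a) := by
      intro b
      induction b with
      | zero => simpa using ih
      | succ b ihb =>
        have h1 := hs _ k ihb
        have h2 : Finsupp.single k b + a + Finsupp.single k 1 = Finsupp.single k (b + 1) + a := by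
          rw [Finsupp.single_add]; abel
        rwa [h2] at h1
    exact this b

section Row

variable {A : Type*} [Ring A] [Algebra ℂ A] {n : ℕ} {e : ℕ → ℕ → A}

lemma row_comm (h : GLRel n e) {m : ℕ} (hm : m < n) (i j : Fin m) :
    e m i * e m j = e m j * e m i := by
  have h1 := h m i m j hm (i.2.trans hm) hm (j.2.trans hm)
  have h2 : (i : ℕ) ≠ m := i.2.ne
  have h3 : (j : ℕ) ≠ m := j.2.ne
  rw [if_neg h2, if_neg h3, sub_zero] at h1
  exact sub_eq_zero.mp h1

open Classical in
/-- The monomial `∏ e_{m,j}^{a_j}`. -/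
noncomputable def rowMon (e : ℕ → ℕ → A) (m : ℕ) (a : Fin m →₀ ℕ) : A :=
  if h : ∀ i j : Fin m, e m i * e m j = e m j * e m i then
    commEval (fun j : Fin m => e m j) h (monomial a 1) else 0

lemma rowMon_eq (h : GLRel n e) {m : ℕ} (hm : m < n) (a : Fin m →₀ ℕ) :
    rowMon e m a = commEval (fun j : Fin m => e m j) (row_comm h hm) (monomial a 1) := by
  unfold rowMon
  rw [dif_pos (row_comm h hm)]

lemma rowMon_zero (h : GLRel n e) {m : ℕ} (hm : m < n) : rowMon e m 0 = 1 := by
  rw [rowMon_eq h hm]
  exact map_one _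

lemma rowMon_add_single (h : GLRel n e) {m : ℕ} (hm : m < n) (a : Fin m →₀ ℕ) (j : Fin m) :
    rowMon e m (a + Finsupp.single j 1) = e m j * rowMon e m a := by
  rw [rowMon_eq h hm, rowMon_eq h hm]
  have : (monomial (a + Finsupp.single j 1)) (1 : ℂ) = X j * monomial a 1 := by
    rw [X, monomial_mul, one_mul, add_comm]
  rw [this, map_mul, commEval_X]

/-- Commutation of `e_ij` with row monomials. -/
lemma e_mul_rowMon (h : GLRel n e) {m : ℕ} (hm : m < n) (i j : Fin m) (a : Fin m →₀ ℕ) :
    e i j * rowMon e m a = rowMon e m a * e i j -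
      (a i : ℂ) • rowMon e m (a - Finsupp.single i 1 + Finsupp.single j 1) := by
  rw [rowMon_eq h hm, rowMon_eq h hm]
  rw [commEval_deriv (i := i) (j := j)]
  · congr 1
    rw [pderiv_monomial, ← map_smul]
    congr 1
    rw [X, monomial_mul, smul_monomial, add_comm]
    simp
  · intro k
    have h1 := h i j m k (i.2.trans hm) (j.2.trans hm) hm (k.2.trans hm)
    rw [if_neg j.2.ne, zero_sub] at h1
    have h2 : ((k : ℕ) = (i : ℕ)) ↔ k = i := Fin.ext_iff.symm
    simp only [h2] at h1
    rw [sub_eq_iff_eq_add] at h1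
    rw [h1]
    split_ifs <;> simp [sub_eq_add_neg, add_comm]

lemma emm_mul_rowMon (h : GLRel n e) {m : ℕ} (hm : m < n) (a : Fin m →₀ ℕ) :
    e m m * rowMon e m a = rowMon e m a * e m m + (a.degree : ℂ) • rowMon e m a := by
  induction a using expo_induction with
  | h0 => rw [rowMon_zero h hm]; simp
  | hs a k ih =>
    have h1 := h m m m k hm hm hm (k.2.trans hm)
    rw [if_pos rfl, if_neg k.2.ne, sub_zero, sub_eq_iff_eq_add] at h1
    rw [rowMon_add_single h hm, ← mul_assoc, h1, add_mul, mul_assoc, ih, mul_add, ← mul_assoc,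
      map_add, Finsupp.degree_single]
    push_cast
    rw [mul_smul_comm, add_smul, one_smul]
    abel

/-- Commutation of `e_im` with one step of a row monomial. -/
lemma eim_mul (h : GLRel n e) {m : ℕ} (hm : m < n) (i j : Fin m) :
    e i m * e m j = e m j * e i m + (e i j - if j = i then e m m else 0) := by
  have h1 := h i m m j (i.2.trans hm) hm hm (j.2.trans hm)
  have h2 : ((j : ℕ) = (i : ℕ)) ↔ j = i := Fin.ext_iff.symm
  simp only [h2, if_true] at h1
  rw [sub_eq_iff_eq_add] at h1
  rw [h1]
  abel

end Row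

end Pool.Agent.Lib.MP_b5066f_al
end

section

/-!
# Patterns and the monomials attached to them
-/

namespace Pool.Agent.Lib.MP_b5066f_al

open MvPolynomial

/-- Patterns: rows of exponents. -/
def Pat : ℕ → Type
  | 0 => PUnit
  | m + 1 => (Lex (Fin m →₀ ℕ)) ×ₗ (Pat m)

noncomputable instance instLinearOrderPat : ∀ m, LinearOrder (Pat m)
  | 0 => inferInstanceAs (LinearOrder PUnit)
  | m + 1 => @Prod.Lex.instLinearOrder (Lex (Fin m →₀ ℕ)) (Pat m) _ (instLinearOrderPat m)

namespace Pat

/-- Constructor. -/
def mk {m : ℕ} (a : Fin m →₀ ℕ) (T : Pat m) : Pat (m + 1) := toLex (toLex a, T)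

/-- The last row. -/
def row {m : ℕ} (T : Pat (m + 1)) : Fin m →₀ ℕ := ofLex (ofLex T).1

/-- The remaining rows. -/
def low {m : ℕ} (T : Pat (m + 1)) : Pat m := (ofLex T).2

@[simp] lemma row_mk {m : ℕ} (a : Fin m →₀ ℕ) (T : Pat m) : (mk a T).row = a := rfl

@[simp] lemma low_mk {m : ℕ} (a : Fin m →₀ ℕ) (T : Pat m) : (mk a T).low = T := rfl

@[simp] lemma mk_row_low {m : ℕ} (T : Pat (m + 1)) : mk T.row T.low = T := rfl

lemma lt_iff {m : ℕ} {S T : Pat (m + 1)} :
    S < T ↔ toLex S.row < toLex T.row ∨ (S.row = T.row ∧ S.low < T.low) :=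
  Prod.Lex.lt_iff

/-- The zero pattern. -/
def zero : ∀ m, Pat m
  | 0 => PUnit.unit
  | m + 1 => mk 0 (zero m)

end Pat

lemma subsingleton_pat_zero (S T : Pat 0) : S = T := by
  cases S; cases T; rfl

section Mon

variable {A : Type*} [Ring A] [Algebra ℂ A]

/-- The monomial attached to a pattern. -/
noncomputable def mon (e : ℕ → ℕ → A) : ∀ m, Pat m → A
  | 0, _ => 1
  | m + 1, T => mon e m T.low * rowMon e m T.row

lemma mon_mk (e : ℕ → ℕ → A) {m : ℕ} (a : Fin m →₀ ℕ) (T : Pat m) :
    mon e (m + 1) (Pat.mk a T) = mon e m T * rowMon e m a := rfl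

lemma mon_zero {n : ℕ} {e : ℕ → ℕ → A} (h : GLRel n e) : ∀ {m : ℕ}, m ≤ n →
    mon e m (Pat.zero m) = 1 := by
  intro m
  induction m with
  | zero => intro _; rfl
  | succ m ih =>
    intro hm
    rw [Pat.zero, mon_mk, ih (by omega), rowMon_zero h (by omega), one_mul]

end Mon

/-- Shifting a weight by a row of exponents. -/
def shift {m : ℕ} (lam : ℕ → ℂ) (a : Fin m →₀ ℕ) : ℕ → ℂ :=
  fun i => lam i - if h : i < m then (a ⟨i, h⟩ : ℂ) else 0

section Modules

variable {Q : Type*} [AddCommGroup Q] [Module ℂ Q] {n : ℕ} {e : ℕ → ℕ → Module.End ℂ Q}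

/-- `F` is stable under the `e_ij` with `i, j < m`. -/
def Inv (e : ℕ → ℕ → Module.End ℂ Q) (m : ℕ) (F : Submodule ℂ Q) : Prop :=
  ∀ i j, i < m → j < m → ∀ x ∈ F, e i j x ∈ F

/-- `v` is a singular vector of weight `lam` modulo `F`. -/
def Sing (e : ℕ → ℕ → Module.End ℂ Q) (m : ℕ) (F : Submodule ℂ Q) (lam : ℕ → ℂ) (v : Q) :
    Prop :=
  (∀ i j, i < j → j < m → e i j v ∈ F) ∧ ∀ i, i < m → e i i v - lam i • v ∈ F

lemma Inv.mono {F : Submodule ℂ Q} {m m' : ℕ} (h : Inv e m F) (hm : m' ≤ m) : Inv e m' F :=
  fun i j hi hj => h i j (hi.trans_le hm) (hj.trans_le hm)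

lemma rowMon_mem (hrel : GLRel n e) {m : ℕ} (hm : m < n) {F : Submodule ℂ Q}
    (hF : ∀ j, j < m → ∀ x ∈ F, e m j x ∈ F) (a : Fin m →₀ ℕ) {x : Q} (hx : x ∈ F) :
    rowMon e m a x ∈ F := by
  induction a using expo_induction with
  | h0 => rw [rowMon_zero hrel hm]; exact hx
  | hs a k ih => rw [rowMon_add_single hrel hm]; exact hF k k.2 _ ih

lemma Inv.rowMon_mem (hrel : GLRel n e) {m : ℕ} (hm : m < n) {F : Submodule ℂ Q}
    (hF : Inv e (m + 1) F) (a : Fin m →₀ ℕ) {x : Q} (hx : x ∈ F) : rowMon e m a x ∈ F :=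
  MP_b5066f_al.rowMon_mem hrel hm
    (fun j hj x hx => hF m j (Nat.lt_succ_self m) (hj.trans (Nat.lt_succ_self m)) x hx) a hx

lemma Inv.mon_mem (hrel : GLRel n e) {m : ℕ} (hm : m ≤ n) {F : Submodule ℂ Q}
    (hF : Inv e m F) (T : Pat m) {x : Q} (hx : x ∈ F) : mon e m T x ∈ F := by
  induction m generalizing x with
  | zero => exact hx
  | succ m ih =>
    change mon e m T.low (rowMon e m T.row x) ∈ F
    exact ih (by omega) (hF.mono (Nat.le_succ m)) T.low (hF.rowMon_mem hrel (by omega) _ hx)

/-- The part of the filtration strictly below `a`. -/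
def Flt (e : ℕ → ℕ → Module.End ℂ Q) (m : ℕ) (F : Submodule ℂ Q) (v : Q)
    (a : Fin m →₀ ℕ) : Submodule ℂ Q :=
  F ⊔ Submodule.span ℂ {x | ∃ S : Pat (m + 1), toLex S.row < toLex a ∧ x = mon e (m + 1) S v}

/-- The part of the filtration up to `a`. -/
def Fle (e : ℕ → ℕ → Module.End ℂ Q) (m : ℕ) (F : Submodule ℂ Q) (v : Q)
    (a : Fin m →₀ ℕ) : Submodule ℂ Q :=
  F ⊔ Submodule.span ℂ {x | ∃ S : Pat (m + 1), toLex S.row ≤ toLex a ∧ x = mon e (m + 1) S v}

/-- The submodule generated over `F`. -/
def Fall (e : ℕ → ℕ → Module.End ℂ Q) (m : ℕ) (F : Submodule ℂ Q) (v : Q) : Submodule ℂ Q :=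
  F ⊔ Submodule.span ℂ {x | ∃ S : Pat m, x = mon e m S v}

lemma le_Flt {m : ℕ} {F : Submodule ℂ Q} {v : Q} {a : Fin m →₀ ℕ} : F ≤ Flt e m F v a :=
  le_sup_left

lemma Fle_le_Flt {m : ℕ} {F : Submodule ℂ Q} {v : Q} {a b : Fin m →₀ ℕ}
    (hab : toLex a < toLex b) : Fle e m F v a ≤ Flt e m F v b := by
  apply sup_le_sup le_rfl
  apply Submodule.span_mono
  rintro x ⟨S, hS, rfl⟩
  exact ⟨S, lt_of_le_of_lt hS hab, rfl⟩

lemma Flt_le_Fle {m : ℕ} {F : Submodule ℂ Q} {v : Q} {a : Fin m →₀ ℕ} :
    Flt e m F v a ≤ Fle e m F v a := by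
  apply sup_le_sup le_rfl
  apply Submodule.span_mono
  rintro x ⟨S, hS, rfl⟩
  exact ⟨S, hS.le, rfl⟩

lemma Fle_le_Fall {m : ℕ} {F : Submodule ℂ Q} {v : Q} {a : Fin m →₀ ℕ} :
    Fle e m F v a ≤ Fall e (m + 1) F v := by
  apply sup_le_sup le_rfl
  apply Submodule.span_mono
  rintro x ⟨S, _, rfl⟩
  exact ⟨S, rfl⟩

lemma mon_mem_Fle {m : ℕ} {F : Submodule ℂ Q} {v : Q} (S : Pat (m + 1)) {a : Fin m →₀ ℕ}
    (h : toLex S.row ≤ toLex a) : mon e (m + 1) S v ∈ Fle e m F v a :=
  le_sup_right (a := F) (Submodule.subset_span ⟨S, h, rfl⟩)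

lemma mon_mem_Flt {m : ℕ} {F : Submodule ℂ Q} {v : Q} (S : Pat (m + 1)) {a : Fin m →₀ ℕ}
    (h : toLex S.row < toLex a) : mon e (m + 1) S v ∈ Flt e m F v a :=
  le_sup_right (a := F) (Submodule.subset_span ⟨S, h, rfl⟩)

lemma mon_mem_Fall {m : ℕ} {F : Submodule ℂ Q} {v : Q} (S : Pat m) :
    mon e m S v ∈ Fall e m F v :=
  le_sup_right (a := F) (Submodule.subset_span ⟨S, rfl⟩)

lemma rowMon_mem_Flt (hrel : GLRel n e) {m : ℕ} (hm : m < n) {F : Submodule ℂ Q} {v : Q}
    {a b : Fin m →₀ ℕ} (h : toLex b < toLex a) : rowMon e m b v ∈ Flt e m F v a := by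
  have h1 := mon_mem_Flt (e := e) (F := F) (v := v) (Pat.mk b (Pat.zero m)) h
  rw [mon_mk, mon_zero hrel hm.le, one_mul] at h1
  exact h1

lemma Fle_eq {m : ℕ} {F : Submodule ℂ Q} {v : Q} {a : Fin m →₀ ℕ} :
    Fle e m F v a = Fall e m (Flt e m F v a) (rowMon e m a v) := by
  apply le_antisymm
  · apply sup_le
    · exact le_Flt.trans le_sup_left
    · rw [Submodule.span_le]
      rintro x ⟨S, hS, rfl⟩
      rcases hS.lt_or_eq with h1 | h1
      · exact le_sup_left (α := Submodule ℂ Q) (mon_mem_Flt S h1)
      · have h2 : S.row = a := toLex.injective h1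
        subst h2
        exact mon_mem_Fall (e := e) (F := Flt e m F v S.row) (v := rowMon e m S.row v) S.low
  · apply sup_le Flt_le_Fle
    rw [Submodule.span_le]
    rintro x ⟨T, rfl⟩
    have := mon_mem_Fle (e := e) (F := F) (v := v) (Pat.mk a T) (a := a) le_rfl
    rw [mon_mk] at this
    exact this

lemma sing_step (hrel : GLRel n e) {m : ℕ} (hm : m < n) {F : Submodule ℂ Q}
    (hF : Inv e (m + 1) F) {lam : ℕ → ℂ} {v : Q} (hv : Sing e (m + 1) F lam v)
    (a : Fin m →₀ ℕ) : Sing e m (Flt e m F v a) (shift lam a) (rowMon e m a v) := by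
  constructor
  · intro i j hij hj
    have hi : i < m := hij.trans hj
    have h1 := congrArg (fun f : Module.End ℂ Q => f v) (e_mul_rowMon hrel hm ⟨i, hi⟩ ⟨j, hj⟩ a)
    simp only [Module.End.mul_apply, LinearMap.sub_apply, LinearMap.smul_apply] at h1
    rw [h1]
    apply Submodule.sub_mem
    · exact le_Flt (hF.rowMon_mem hrel hm a (hv.1 i j hij (by omega)))
    · by_cases ha : a ⟨i, hi⟩ = 0
      · rw [ha, Nat.cast_zero, zero_smul]; exact zero_mem _
      · apply Submodule.smul_mem
        apply rowMon_mem_Flt hrel hm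
        rw [Finsupp.Lex.lt_iff]
        refine ⟨⟨i, hi⟩, ?_, ?_⟩
        · intro k hk
          have h2 : (⟨i, hi⟩ : Fin m) ≠ k := hk.ne'
          have h3 : (⟨j, hj⟩ : Fin m) ≠ k := by
            intro h4
            rw [← h4] at hk
            exact absurd hk (not_lt.mpr (Fin.mk_le_mk.mpr hij.le))
          simp [h2, h3]
        · have h3 : (⟨j, hj⟩ : Fin m) ≠ ⟨i, hi⟩ := by
            intro h4
            rw [Fin.mk.injEq] at h4
            omega
          simp [h3]
          omega
  · intro i hi
    have h1 := congrArg (fun f : Module.End ℂ Q => f v) (e_mul_rowMon hrel hm ⟨i, hi⟩ ⟨i, hi⟩ a)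
    simp only [Module.End.mul_apply, LinearMap.sub_apply, LinearMap.smul_apply] at h1
    have h2 : (a ⟨i, hi⟩ : ℂ) • (rowMon e m (a - Finsupp.single ⟨i, hi⟩ 1 +
        Finsupp.single ⟨i, hi⟩ 1)) v = (a ⟨i, hi⟩ : ℂ) • rowMon e m a v := by
      by_cases ha : a ⟨i, hi⟩ = 0
      · rw [ha, Nat.cast_zero, zero_smul, zero_smul]
      · rw [tsub_add_cancel_of_le]
        rw [Finsupp.single_le_iff]
        omega
    rw [h1, h2]
    have h3 : shift lam a i = lam i - a ⟨i, hi⟩ := by simp [shift, hi]
    rw [h3]
    have h4 := hF.rowMon_mem hrel hm a (hv.2 i (by omega))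
    rw [map_sub, map_smul] at h4
    have h5 := le_Flt (e := e) (v := v) (a := a) h4
    convert h5 using 1
    rw [sub_smul]
    abel

/-- Stability of the span of the monomials. -/
theorem inv_span (hrel : GLRel n e) : ∀ m, m ≤ n → ∀ F : Submodule ℂ Q, Inv e m F →
    ∀ (lam : ℕ → ℂ) (v : Q), Sing e m F lam v → Inv e m (Fall e m F v) := by
  intro m
  induction m with
  | zero => intro _ F _ lam v _ i j hi; omega
  | succ m ih =>
    intro hm F hF lam v hv
    have hm' : m < n := hm
    have hFm : Inv e m F := hF.mono (Nat.le_succ m)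
    have step : ∀ a : Lex (Fin m →₀ ℕ), Inv e m (Flt e m F v (ofLex a)) ∧
        Inv e m (Fle e m F v (ofLex a)) := by
      intro a
      induction a using WellFoundedLT.induction with
      | ind a iha =>
        have h1 : Inv e m (Flt e m F v (ofLex a)) := by
          intro i j hi hj x hx
          obtain ⟨y, hy, z, hz, rfl⟩ := Submodule.mem_sup.mp hx
          rw [map_add]
          apply Submodule.add_mem
          · exact le_Flt (hFm i j hi hj y hy)
          · induction hz using Submodule.span_induction with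
            | mem z hz =>
              obtain ⟨S, hS, rfl⟩ := hz
              have h2 := (iha (toLex S.row) hS).2 i j hi hj _ (mon_mem_Fle S le_rfl)
              exact Fle_le_Flt hS h2
            | zero => rw [map_zero]; exact zero_mem _
            | add z w hz' hw' hz hw =>
              rw [map_add]
              exact Submodule.add_mem _
                (hz (Submodule.add_mem_sup hy hz')) (hw (Submodule.add_mem_sup hy hw'))
            | smul c z hz' hz =>
              rw [map_smul]
              exact Submodule.smul_mem _ _ (hz (Submodule.add_mem_sup hy hz'))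
        refine ⟨h1, ?_⟩
        rw [Fle_eq]
        exact ih (by omega) _ h1 _ _ (sing_step hrel hm' hF hv _)
    set X := Fall e (m + 1) F v with hX
    have hFX : F ≤ X := le_sup_left
    have hvX : ∀ a : Fin m →₀ ℕ, rowMon e m a v ∈ X := by
      intro a
      have h1 := mon_mem_Fall (e := e) (F := F) (v := v) (Pat.mk a (Pat.zero m))
      rw [mon_mk, mon_zero hrel hm'.le, one_mul] at h1
      exact h1
    -- `X` is the smallest submodule with the following properties
    have hmin : ∀ Y : Submodule ℂ Q, F ≤ Y → (∀ a : Fin m →₀ ℕ, rowMon e m a v ∈ Y) →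
        Inv e m Y → X ≤ Y := by
      intro Y h1 h2 h3
      apply sup_le h1
      rw [Submodule.span_le]
      rintro x ⟨S, rfl⟩
      exact h3.mon_mem hrel hm'.le S.low (h2 S.row)
    have hXm : Inv e m X := by
      intro i j hi hj x hx
      obtain ⟨y, hy, z, hz, rfl⟩ := Submodule.mem_sup.mp hx
      rw [map_add]
      apply Submodule.add_mem
      · exact hFX (hFm i j hi hj y hy)
      · clear hx
        induction hz using Submodule.span_induction with
        | mem z hz =>
          obtain ⟨S, rfl⟩ := hz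
          exact Fle_le_Fall ((step (toLex S.row)).2 i j hi hj _ (mon_mem_Fle S le_rfl))
        | zero => rw [map_zero]; exact zero_mem _
        | add z w _ _ hz hw => rw [map_add]; exact Submodule.add_mem _ hz hw
        | smul c z _ hz => rw [map_smul]; exact Submodule.smul_mem _ _ hz
    -- the last row
    have hrow : ∀ j, j < m → ∀ x ∈ X, e m j x ∈ X := by
      set Y : Submodule ℂ Q := X ⊓ ⨅ j : Fin m, X.comap (e m j) with hY
      have hYmem : ∀ x, x ∈ Y ↔ x ∈ X ∧ ∀ j : Fin m, e m j x ∈ X := by
        intro x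
        rw [hY, Submodule.mem_inf, Submodule.mem_iInf]
        rfl
      have hXY : X ≤ Y := by
        apply hmin
        · intro x hx
          rw [hYmem]
          exact ⟨hFX hx, fun j => hFX (hF m j (by omega) (by omega) x hx)⟩
        · intro a
          rw [hYmem]
          refine ⟨hvX a, fun j => ?_⟩
          have h1 := hvX (a + Finsupp.single j 1)
          rw [rowMon_add_single hrel hm'] at h1
          exact h1
        · intro i k hi hk x hx
          rw [hYmem] at hx ⊢
          refine ⟨hXm i k hi hk x hx.1, fun j => ?_⟩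
          have h1 := hrel m j i k hm' (j.2.trans hm') (hi.trans hm') (hk.trans hm')
          have h2 := congrArg (fun f : Module.End ℂ Q => f x) h1
          simp only [LinearMap.sub_apply, Module.End.mul_apply] at h2
          rw [sub_eq_iff_eq_add] at h2
          rw [h2]
          apply Submodule.add_mem
          · apply Submodule.sub_mem
            · split_ifs
              · exact hx.2 ⟨k, hk⟩
              · exact zero_mem _
            · rw [if_neg hk.ne]
              exact zero_mem _
          · exact hXm i k hi hk _ (hx.2 j)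
      intro j hj x hx
      exact ((hYmem x).mp (hXY hx)).2 ⟨j, hj⟩
    have hdiag : ∀ x ∈ X, e m m x ∈ X := by
      set Y : Submodule ℂ Q := X ⊓ X.comap (e m m) with hY
      have hXY : X ≤ Y := by
        apply hmin
        · intro x hx
          exact ⟨hFX hx, hFX (hF m m (by omega) (by omega) x hx)⟩
        · intro a
          refine ⟨hvX a, ?_⟩
          change e m m (rowMon e m a v) ∈ X
          have h1 := congrArg (fun f : Module.End ℂ Q => f v) (emm_mul_rowMon hrel hm' a)
          simp only [Module.End.mul_apply, LinearMap.add_apply, LinearMap.smul_apply] at h1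
          rw [h1]
          apply Submodule.add_mem
          · have h2 := hv.2 m (by omega)
            have h3 : e m m v = (e m m v - lam m • v) + lam m • v := by abel
            rw [h3, map_add, map_smul]
            exact Submodule.add_mem _ (hFX (hF.rowMon_mem hrel hm' a h2))
              (Submodule.smul_mem _ _ (hvX a))
          · exact Submodule.smul_mem _ _ (hvX a)
        · intro i k hi hk x hx
          refine ⟨hXm i k hi hk x hx.1, ?_⟩
          change e m m (e i k x) ∈ X
          have h1 := hrel m m i k hm' hm' (hi.trans hm') (hk.trans hm')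
          rw [if_neg hi.ne', if_neg hk.ne, sub_zero, sub_eq_zero] at h1
          have h2 := congrArg (fun f : Module.End ℂ Q => f x) h1
          simp only [Module.End.mul_apply] at h2
          rw [h2]
          exact hXm i k hi hk _ hx.2
      intro x hx
      exact (hXY hx).2
    have hcol : ∀ i, i < m → ∀ x ∈ X, e i m x ∈ X := by
      set Y : Submodule ℂ Q := X ⊓ ⨅ i : Fin m, X.comap (e i m) with hY
      have hYmem : ∀ x, x ∈ Y ↔ x ∈ X ∧ ∀ i : Fin m, e i m x ∈ X := by
        intro x
        rw [hY, Submodule.mem_inf, Submodule.mem_iInf]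
        rfl
      have hXY : X ≤ Y := by
        apply hmin
        · intro x hx
          rw [hYmem]
          exact ⟨hFX hx, fun i => hFX (hF i m (by omega) (by omega) x hx)⟩
        · intro a
          rw [hYmem]
          refine ⟨hvX a, fun i => ?_⟩
          induction a using expo_induction with
          | h0 =>
            rw [rowMon_zero hrel hm']
            exact hFX (hv.1 i m i.2 (by omega))
          | hs a k iha =>
            rw [rowMon_add_single hrel hm']
            have h1 := congrArg (fun f : Module.End ℂ Q => f (rowMon e m a v))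
              (eim_mul hrel hm' i k)
            simp only [Module.End.mul_apply, LinearMap.add_apply, LinearMap.sub_apply] at h1
            change e i m (e m k (rowMon e m a v)) ∈ X
            rw [h1]
            apply Submodule.add_mem
            · exact hrow k k.2 _ iha
            · apply Submodule.sub_mem
              · exact hXm i k i.2 k.2 _ (hvX a)
              · split_ifs
                · exact hdiag _ (hvX a)
                · exact zero_mem _
        · intro k l hk hl x hx
          rw [hYmem] at hx ⊢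
          refine ⟨hXm k l hk hl x hx.1, fun i => ?_⟩
          have h1 := hrel i m k l (i.2.trans hm') hm' (hk.trans hm') (hl.trans hm')
          have h2 := congrArg (fun f : Module.End ℂ Q => f x) h1
          simp only [LinearMap.sub_apply, Module.End.mul_apply] at h2
          rw [sub_eq_iff_eq_add] at h2
          rw [h2]
          apply Submodule.add_mem
          · apply Submodule.sub_mem
            · rw [if_neg hk.ne']
              exact zero_mem _
            · split_ifs
              · exact hx.2 ⟨k, hk⟩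
              · exact zero_mem _
          · exact hXm k l hk hl _ (hx.2 i)
      intro i hi x hx
      exact ((hYmem x).mp (hXY hx)).2 ⟨i, hi⟩
    intro i j hi hj x hx
    rcases Nat.lt_succ_iff_lt_or_eq.mp hi with hi' | rfl
    · rcases Nat.lt_succ_iff_lt_or_eq.mp hj with hj' | rfl
      · exact hXm i j hi' hj' x hx
      · exact hcol i hi' x hx
    · rcases Nat.lt_succ_iff_lt_or_eq.mp hj with hj' | rfl
      · exact hrow j hj' x hx
      · exact hdiag x hx

/-- Stability of the filtration under the smaller algebra. -/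
theorem inv_Flt (hrel : GLRel n e) {m : ℕ} (hm : m < n) {F : Submodule ℂ Q}
    (hF : Inv e (m + 1) F) {lam : ℕ → ℂ} {v : Q} (hv : Sing e (m + 1) F lam v)
    (a : Fin m →₀ ℕ) : Inv e m (Flt e m F v a) := by
  have step : ∀ a : Lex (Fin m →₀ ℕ), Inv e m (Flt e m F v (ofLex a)) ∧
      Inv e m (Fle e m F v (ofLex a)) := by
    intro a
    induction a using WellFoundedLT.induction with
    | ind a iha =>
      have h1 : Inv e m (Flt e m F v (ofLex a)) := by
        intro i j hi hj x hx
        obtain ⟨y, hy, z, hz, rfl⟩ := Submodule.mem_sup.mp hx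
        rw [map_add]
        apply Submodule.add_mem
        · exact le_Flt (hF i j (by omega) (by omega) y hy)
        · clear hx
          induction hz using Submodule.span_induction with
          | mem z hz =>
            obtain ⟨S, hS, rfl⟩ := hz
            have h2 := (iha (toLex S.row) hS).2 i j hi hj _ (mon_mem_Fle S le_rfl)
            exact Fle_le_Flt hS h2
          | zero => rw [map_zero]; exact zero_mem _
          | add z w _ _ hz hw => rw [map_add]; exact Submodule.add_mem _ hz hw
          | smul c z _ hz => rw [map_smul]; exact Submodule.smul_mem _ _ hz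
      refine ⟨h1, ?_⟩
      rw [Fle_eq]
      exact inv_span hrel m hm.le _ h1 _ _ (sing_step hrel hm hF hv _)
  exact (step (toLex a)).1

end Modules

end Pool.Agent.Lib.MP_b5066f_al
end
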